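import Pool.Agent.KR87.Base

set_option autoImplicit false
set_option linter.unusedSectionVars false

/-!
# KR87/Forced: all orientations are forced

`Y` is a set of vertices (`X` its complement); every edge of the cover graph joins `X` and `Y`.
`v ∈ X` has type 0 if `N(v) ∩ A` is below `v`, type 1 if it is above `v` (`A` is an antichain, so one of
the two holds, and `N(v) ∩ A` is not empty).  `w ∈ Y` has type 0 if `N(w) ∩ M` is above `w`, type 1 if it
is below `w`.  Layers: `0 = X¹`, `1 = Y⁰`, `2 = X⁰`, `3 = Y¹`.  Let `A_v = N(v) ∩ A`, `M_w = N(w) ∩ M`; by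
`hexp` some `a ∈ A_v`, `m ∈ M_w` are adjacent, and `m < a` is excluded, so `a ⋖ m`.
(a) `v ∈ X⁰`, `w ∈ Y⁰`, `v ⋖ w`: `a < v < w < m` against `a ⋖ m`.
(b) `v ∈ X⁰`, `w ∈ Y¹`, `w ⋖ v`: `a < m < w < v` against `a ⋖ v`.
(c) `v ∈ X¹`, `w ∈ Y⁰`, `w ⋖ v`: `w < v < a < m` against `w ⋖ m`.
(d) `v ∈ X¹`, `w ∈ Y¹`: `v ⋖ w`: `v < a < m < w` against `v ⋖ w`; `w ⋖ v`: `m < w < v < a` excluded.
-/

namespace Pool.KR87

open Finset

section

variable {V : Type} [Fintype V] [DecidableEq V]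

/-- the neighbours of `v` in an antichain are all below or all above `v` -/
private theorem side {P : SO V} {A : Finset V} (hA : P.anti A) (v : V) :
    (∀ a ∈ nb P v ∩ A, P.cov a v) ∨ (∀ a ∈ nb P v ∩ A, P.cov v a) := by
  by_contra hcon
  push Not at hcon
  obtain ⟨⟨a, ha, ha'⟩, ⟨b, hb, hb'⟩⟩ := hcon
  rw [mem_inter, mem_nb] at ha hb
  have h1 : P.cov v a := ha.1.resolve_right ha'
  have h2 : P.cov b v := hb.1.resolve_left hb'
  exact hA b hb.2 a ha.2 (P.tr _ _ _ h2.1 h1.1)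

theorem forced {P : SO V} {A M : Finset V} (Y : V → Prop) (s : ℕ) (hA : P.anti A) (hM : P.anti M)
    (hAY : ∀ a ∈ A, Y a) (hMY : ∀ m ∈ M, ¬ Y m) (hMA : ∀ m ∈ M, ∀ a ∈ A, ¬ P.lt m a)
    (hbip : ∀ v w, P.adj v w → (Y v ↔ ¬ Y w)) (hX : ∀ v, ¬ Y v → s < (nb P v ∩ A).card)
    (hY : ∀ w, Y w → s < (nb P w ∩ M).card)
    (hexp : ∀ A' ⊆ A, ∀ M' ⊆ M, s < A'.card → s < M'.card → ∃ a ∈ A', ∃ m ∈ M', P.adj a m) :
    ∃ f : V → Fin 4, Lay4 P f := by
  classical
  -- for `v ∈ X`, `w ∈ Y`: `a ⋖ m` with `a ∈ A_v`, `m ∈ M_w`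
  have key : ∀ v w, ¬ Y v → Y w → ∃ a ∈ nb P v ∩ A, ∃ m ∈ nb P w ∩ M, P.cov a m := by
    intro v w hv hw
    obtain ⟨a, ha, m, hm, h⟩ := hexp _ inter_subset_right _ inter_subset_right (hX v hv) (hY w hw)
    refine ⟨a, ha, m, hm, h.resolve_right fun h' => ?_⟩
    exact hMA m (mem_inter.1 hm).2 a (mem_inter.1 ha).2 h'.1
  refine ⟨fun v => if Y v then (if ∀ m ∈ nb P v ∩ M, P.cov v m then 1 else 3) else
    (if ∀ a ∈ nb P v ∩ A, P.cov a v then 2 else 0), ?_⟩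
  intro x y hxy
  have hb := hbip x y (Or.inl hxy)
  by_cases hx : Y x
  · have hy : ¬ Y y := hb.1 hx
    obtain ⟨a, ha, m, hm, ham⟩ := key y x hy hx
    simp only [if_pos hx, if_neg hy]
    rcases side hM x with h1 | h1
    · -- `x ∈ Y¹` : `m < x < y`
      have h2 := h1 m hm
      rcases side hA y with h3 | h3
      · -- `a < m < x < y`
        exact absurd (P.tr _ _ _ h2.1 hxy.1) ((h3 a ha).2 m ham.1)
      · exact absurd (P.tr _ _ _ (P.tr _ _ _ h2.1 hxy.1) (h3 a ha).1)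
          (hMA m (mem_inter.1 hm).2 a (mem_inter.1 ha).2)
    · rcases side hA y with h3 | h3
      · rw [if_pos h1, if_pos h3]; rfl
      · -- `x < y < a < m`
        exact absurd (P.tr _ _ _ (h3 a ha).1 ham.1) ((h1 m hm).2 y hxy.1)
  · have hy : Y y := by
      by_contra h
      exact hx (hb.2 h)
    obtain ⟨a, ha, m, hm, ham⟩ := key x y hx hy
    simp only [if_neg hx, if_pos hy]
    rcases side hA x with h1 | h1
    · rcases side hM y with h3 | h3
      · have h4 : ¬ ∀ m ∈ nb P y ∩ M, P.cov y m := fun h => P.asymm (h m hm).1 (h3 m hm).1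
        rw [if_pos h1, if_neg h4]; rfl
      · -- `a < x < y < m`
        exact absurd (P.tr _ _ _ hxy.1 (h3 m hm).1) (ham.2 x (h1 a ha).1)
    · have h4 : ¬ ∀ a ∈ nb P x ∩ A, P.cov a x := fun h => P.asymm (h a ha).1 (h1 a ha).1
      rcases side hM y with h3 | h3
      · -- `x < a < m < y`
        exact absurd (P.tr _ _ _ ham.1 (h3 m hm).1) (hxy.2 a (h1 a ha).1)
      · rw [if_neg h4, if_pos h3]; rfl

end

end Pool.KR87
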