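import Pool.Agent.KR87.Side
import Pool.Agent.KR87.Forced

set_option autoImplicit false
set_option linter.unusedSectionVars false

/-!
# KR87/Asm: four layers from the core structure

`Y = {v : k ≤ |N(v) ∩ M|}`.  Case `|B| ≤ |A|`: apply `forced` with `A ∩ Y` in place of `A`.
`hexp`: `A' ⊆ A ∩ Y`, `|A'| > s ≥ k`: `N(A') ⊆ X` (bipartite), more than `m3` elements; a `k`-subset of
`M` shows `|Y| > m3`, so `|X| < n - m3`, so `|X \ N(A')| ≤ n - 2 m3 - 2 < s + 1 ≤ |M'|`.
`hY`: `|N(w) ∩ M| ≥ |N(w)| - |N(w) \ M| ≥ (e + 1) - (n + z - 2 m3) > s`.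
Case `|A| < |B|`: the dual order has the core structure `(S, T, B, M, A)`; the events are self-dual.
-/

namespace Pool.KR87

open Finset

section

variable {V : Type} [Fintype V] [DecidableEq V]

private theorem nbS_op' (P : SO V) (Q : Finset V) : nbS P.op Q = nbS P Q := by
  ext y; simp [SO.adj_op]

private theorem upS_op' (P : SO V) (Q : Finset V) : upS P.op Q = dnS P Q := by
  ext y; simp [SO.cov_op]

private theorem dnS_op' (P : SO V) (Q : Finset V) : dnS P.op Q = upS P Q := by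
  ext y; simp [SO.cov_op]

private theorem covD_op' {P : SO V} {D : Finset V} {x y : V} :
    P.op.covD D x y ↔ P.covD D y x := by
  constructor
  · rintro ⟨h1, h2, h3, h4⟩
    exact ⟨h2, h1, h3, fun z hz h5 h6 => h4 z hz h6 h5⟩
  · rintro ⟨h1, h2, h3, h4⟩
    exact ⟨h2, h1, h3, fun z hz h5 h6 => h4 z hz h6 h5⟩

private theorem upD_op' (P : SO V) (D Q : Finset V) : upD P.op D Q = dnD P D Q := by
  ext y; simp [covD_op']

private theorem dnD_op' (P : SO V) (D Q : Finset V) : dnD P.op D Q = upD P D Q := by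
  ext y; simp [covD_op']

theorem Core.op {K z m3 : ℕ} {P : SO V} {S T A M B : Finset V}
    (hC : Core K z m3 P S T A M B) : Core K z m3 P.op S T B M A where
  cS := hC.cS
  cT := hC.cT
  aS := SO.anti_op.2 hC.aS
  aT := SO.anti_op.2 hC.aT
  adj s hs t ht := SO.adj_op.2 (hC.adj s hs t ht)
  aA := SO.anti_op.2 hC.aB
  aM := SO.anti_op.2 hC.aM
  aB := SO.anti_op.2 hC.aA
  dAM := hC.dMB.symm
  dAB := hC.dAB.symm
  dMB := hC.dAM.symm
  oMA x hx y hy := hC.oBM y hy x hx
  oBM x hx y hy := hC.oMA y hy x hx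
  oBA x hx y hy := hC.oBA y hy x hx
  sM := by rw [nbS_op']; exact hC.sM
  sA := by rw [dnS_op']; exact hC.sB
  sB := by rw [upS_op']; exact hC.sA
  cM := hC.cM
  cZ := by have := hC.cZ; omega

theorem nb_op (P : SO V) (v : V) : nb P.op v = nb P v := by
  ext y; simp [SO.adj_op]

theorem E2_op {e : ℕ} {P : SO V} : E2 e P.op ↔ E2 e P := by
  unfold E2
  simp only [nb_op]

theorem Exp_op {k m : ℕ} {P : SO V} : Exp k m P.op ↔ Exp k m P := by
  unfold Exp
  simp only [SO.anti_op, nbS_op']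

theorem E6_op {K m e : ℕ} {P : SO V} : E6 K m e P.op ↔ E6 K m e P := by
  unfold E6
  simp only [nb_op, upD_op', dnD_op']
  constructor
  · rintro ⟨v, Q, h1, h2⟩
    exact ⟨v, Q, h1, h2.symm⟩
  · rintro ⟨v, Q, h1, h2⟩
    exact ⟨v, Q, h1, h2.symm⟩

theorem E7_op {K m e : ℕ} {P : SO V} : E7 K m e P.op ↔ E7 K m e P := by
  unfold E7
  simp only [nb_op, upD_op', dnD_op', SO.cov_op]
  constructor
  · rintro ⟨v, w, h0, Q, h1, h2, h3, h4⟩
    refine ⟨w, v, h0, Q, h1, ?_, ?_, ?_⟩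
    · rw [pair_comm w v, union_comm]; exact h2
    · rw [pair_comm w v, union_comm]; exact h4
    · rw [pair_comm w v, union_comm]; exact h3
  · rintro ⟨v, w, h0, Q, h1, h2, h3, h4⟩
    refine ⟨w, v, h0, Q, h1, ?_, ?_, ?_⟩
    · rw [pair_comm w v, union_comm]; exact h2
    · rw [pair_comm w v, union_comm]; exact h4
    · rw [pair_comm w v, union_comm]; exact h3

theorem Core.lay4_of_le {k z m3 m6 e6 m7 e7 s e : ℕ} {P : SO V} {S T A M B : Finset V}
    (hC : Core (k + 2) z m3 P S T A M B) (hAB : B.card ≤ A.card) (h2 : ¬ E2 e P)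
    (hE : Exp k m3 P) (h6 : ¬ E6 (k + 2) m6 e6 P) (h7 : ¬ E7 (k + 2) m7 e7 P)
    (n1 : Fintype.card V ≤ m7 + m3) (n2 : k + z + (Fintype.card V - 2 * m3) ≤ e7)
    (n3 : 2 * (Fintype.card V - 2 * m3) + z ≤ e7)
    (n4 : 4 * Fintype.card V + z ≤ 2 * m6 + 7 * m3)
    (n5 : s + k + z + (Fintype.card V - 2 * m3) ≤ e6)
    (n6 : Fintype.card V - 2 * m3 ≤ s) (n7 : k ≤ s) (n8 : z + k ≤ m3) (n9 : 0 < k)
    (n10 : s + (Fintype.card V - 2 * m3) + z ≤ e) :
    ∃ f : V → Fin 4, Lay4 P f := by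
  classical
  have hbip := hC.bip hE h7 n1 n2 n3
  have hside := hC.side hAB hE h6 n4 n5
  have hMY : ∀ m ∈ M, ¬ k ≤ (nb P m ∩ M).card := by
    intro m hm h
    have h1 : nb P m ∩ M = ∅ := by
      apply eq_empty_of_forall_notMem
      intro y hy
      rw [mem_inter, mem_nb] at hy
      exact hC.aM.not_adj hm hy.2 hy.1
    rw [h1, card_empty] at h
    omega
  -- the set `Y` is large
  set Ys : Finset V := univ.filter (fun v => k ≤ (nb P v ∩ M).card) with hYs
  have hYc : m3 < Ys.card := by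
    have h1 : k ≤ M.card := by have := hC.cM; omega
    obtain ⟨Q, hQ1, hQ2⟩ := exists_subset_card_eq h1
    have h3 := hE Q (by omega) (hC.aM.subset hQ1)
    refine lt_of_lt_of_le h3 (card_le_card ?_)
    intro y hy
    rw [mem_nbS] at hy
    obtain ⟨q, hq, hqy⟩ := hy
    rw [hYs, mem_filter]
    refine ⟨mem_univ _, ?_⟩
    by_contra hn
    exact hMY q (hQ1 hq) ((hbip q y hqy).2 hn)
  refine forced (P := P) (A := A.filter (fun v => k ≤ (nb P v ∩ M).card)) (M := M)
    (fun v => k ≤ (nb P v ∩ M).card) s (hC.aA.subset (filter_subset _ _)) hC.aM ?_ hMY ?_ hbip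
    ?_ ?_ ?_
  · intro a ha
    exact (mem_filter.1 ha).2
  · intro m hm a ha
    exact hC.oMA m hm a (mem_filter.1 ha).1
  · intro v hv
    push Not at hv
    refine lt_of_lt_of_le (hside v hv) (card_le_card ?_)
    intro a ha
    rw [mem_inter, mem_nb] at ha
    rw [mem_inter, mem_nb, mem_filter]
    refine ⟨ha.1, ha.2, ?_⟩
    by_contra hn
    have := (hbip v a ha.1).2 hn
    omega
  · intro w hw
    have h1 := hC.out_le hE hw
    have h3 : e < (nb P w).card := by
      by_contra hn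
      push Not at hn
      exact h2 ⟨w, hn⟩
    have h4 := Finset.card_inter_add_card_sdiff (nb P w) M
    omega
  · intro A' hA' M' hM' hsA hsM
    by_contra hcon
    push Not at hcon
    have hA'anti : P.anti A' := hC.aA.subset (hA'.trans (filter_subset _ _))
    have h1 := hE A' (by omega) hA'anti
    have hdis : Disjoint (nbS P A' ∪ M') Ys := by
      rw [Finset.disjoint_left]
      intro y hy hyY
      have hyY' := (mem_filter.1 hyY).2
      rw [mem_union, mem_nbS] at hy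
      rcases hy with ⟨a, ha, hay⟩ | hy
      · have h3 := (mem_filter.1 (hA' ha)).2
        exact ((hbip a y hay).1 h3) hyY'
      · exact hMY y (hM' hy) hyY'
    have hdis2 : Disjoint (nbS P A') M' := by
      rw [Finset.disjoint_left]
      intro y hy hyM
      rw [mem_nbS] at hy
      obtain ⟨a, ha, hay⟩ := hy
      exact hcon a ha y hyM hay
    have h5 : (nbS P A' ∪ M' ∪ Ys).card ≤ Fintype.card V := card_le_univ _
    rw [card_union_of_disjoint hdis, card_union_of_disjoint hdis2] at h5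
    omega

theorem Core.lay4 {k z m3 m6 e6 m7 e7 s e : ℕ} {P : SO V} {S T A M B : Finset V}
    (hC : Core (k + 2) z m3 P S T A M B) (h2 : ¬ E2 e P)
    (hE : Exp k m3 P) (h6 : ¬ E6 (k + 2) m6 e6 P) (h7 : ¬ E7 (k + 2) m7 e7 P)
    (n1 : Fintype.card V ≤ m7 + m3) (n2 : k + z + (Fintype.card V - 2 * m3) ≤ e7)
    (n3 : 2 * (Fintype.card V - 2 * m3) + z ≤ e7)
    (n4 : 4 * Fintype.card V + z ≤ 2 * m6 + 7 * m3)
    (n5 : s + k + z + (Fintype.card V - 2 * m3) ≤ e6)
    (n6 : Fintype.card V - 2 * m3 ≤ s) (n7 : k ≤ s) (n8 : z + k ≤ m3) (n9 : 0 < k)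
    (n10 : s + (Fintype.card V - 2 * m3) + z ≤ e) :
    ∃ f : V → Fin 4, Lay4 P f := by
  rcases le_total B.card A.card with hAB | hAB
  · exact hC.lay4_of_le hAB h2 hE h6 h7 n1 n2 n3 n4 n5 n6 n7 n8 n9 n10
  · obtain ⟨f, hf⟩ := hC.op.lay4_of_le hAB (fun h => h2 (E2_op.1 h)) (Exp_op.2 hE)
      (fun h => h6 (E6_op.1 h)) (fun h => h7 (E7_op.1 h)) n1 n2 n3 n4 n5 n6 n7 n8 n9 n10
    refine ⟨fun v => Fin.rev (f v), ?_⟩
    intro x y hxy
    have h1 := hf y x (SO.cov_op.2 hxy)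
    have h3 := (f x).2
    simp only [Fin.val_rev]
    omega

end

end Pool.KR87
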