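import Mathlib

set_option autoImplicit false
set_option linter.unusedSectionVars false

/-!
# KR87/Base: strict partial orders on a finite type, covers, deletion, counting, events

Blueprint of the project KR87 (exponential Kleitman-Rothschild theorem): see the note on
MP_dcdbc5_co.  This file has the definitions only, and the elementary lemmas used everywhere.
-/

namespace Pool.KR87

open Finset

/-- A strict partial order on `V`. -/
@[ext] structure SO (V : Type) where
  lt : V → V → Prop
  irr : ∀ x, ¬ lt x x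
  tr : ∀ x y z, lt x y → lt y z → lt x z

namespace SO

variable {V : Type}

/-- `y` covers `x`. -/
def cov (P : SO V) (x y : V) : Prop := P.lt x y ∧ ∀ z, P.lt x z → ¬ P.lt z y

/-- Adjacency in the cover graph. -/
def adj (P : SO V) (x y : V) : Prop := P.cov x y ∨ P.cov y x

/-- `Q` is an antichain. -/
def anti (P : SO V) (Q : Finset V) : Prop := ∀ x ∈ Q, ∀ y ∈ Q, ¬ P.lt x y

/-- The dual order. -/
def op (P : SO V) : SO V where
  lt x y := P.lt y x
  irr := P.irr
  tr x y z h1 h2 := P.tr z y x h2 h1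

/-- The order induced on the complement of `D` (deletion of `D`). -/
def del (P : SO V) (D : Finset V) : SO {x // x ∉ D} where
  lt x y := P.lt x y
  irr x := P.irr x
  tr x y z := P.tr x y z

/-- `y` covers `x` in the order `P - D`. -/
def covD (P : SO V) (D : Finset V) (x y : V) : Prop :=
  x ∉ D ∧ y ∉ D ∧ P.lt x y ∧ ∀ z, z ∉ D → P.lt x z → ¬ P.lt z y

end SO

section fin

variable {V : Type} [Fintype V] [DecidableEq V]

open Classical in
/-- neighbours of `x` in the cover graph -/
noncomputable def nb (P : SO V) (x : V) : Finset V := univ.filter (fun y => P.adj x y)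

open Classical in
/-- neighbours of the set `Q` in the cover graph -/
noncomputable def nbS (P : SO V) (Q : Finset V) : Finset V :=
  univ.filter (fun y => ∃ q ∈ Q, P.adj q y)

open Classical in
/-- upper covers of elements of `Q` -/
noncomputable def upS (P : SO V) (Q : Finset V) : Finset V :=
  univ.filter (fun y => ∃ q ∈ Q, P.cov q y)

open Classical in
/-- lower covers of elements of `Q` -/
noncomputable def dnS (P : SO V) (Q : Finset V) : Finset V :=
  univ.filter (fun y => ∃ q ∈ Q, P.cov y q)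

open Classical in
/-- upper covers, in `P - D`, of elements of `Q` -/
noncomputable def upD (P : SO V) (D Q : Finset V) : Finset V :=
  univ.filter (fun y => ∃ q ∈ Q, P.covD D q y)

open Classical in
/-- lower covers, in `P - D`, of elements of `Q` -/
noncomputable def dnD (P : SO V) (D Q : Finset V) : Finset V :=
  univ.filter (fun y => ∃ q ∈ Q, P.covD D y q)

end fin

/-! ### Counting -/

section count

variable {V : Type}

instance SO.finite [Finite V] : Finite (SO V) :=
  Finite.of_injective (fun P : SO V => P.lt) (fun _ _ h => SO.ext h)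

noncomputable instance SO.fintype [Finite V] : Fintype (SO V) := Fintype.ofFinite _

/-- number of (strict) partial orders on `n` labelled points -/
noncomputable def pn (n : ℕ) : ℕ := Fintype.card (SO (Fin n))

/-- transport of an order along a bijection -/
def SO.congr {V W : Type} (e : V ≃ W) : SO V ≃ SO W where
  toFun P := ⟨fun x y => P.lt (e.symm x) (e.symm y), fun x => P.irr _, fun x y z => P.tr _ _ _⟩
  invFun P := ⟨fun x y => P.lt (e x) (e y), fun x => P.irr _, fun x y z => P.tr _ _ _⟩
  left_inv P := by ext; simp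
  right_inv P := by ext; simp

theorem card_SO (V : Type) [Fintype V] : Fintype.card (SO V) = pn (Fintype.card V) :=
  Fintype.card_congr (SO.congr (Fintype.equivFin V))

open Classical in
/-- number of orders on `V` with the property `p` -/
noncomputable def cnt [Finite V] (p : SO V → Prop) : ℕ := (univ.filter p).card

theorem cnt_mono [Finite V] {p q : SO V → Prop} (h : ∀ P, p P → q P) : cnt p ≤ cnt q := by
  classical
  unfold cnt
  apply card_le_card
  intro P hP
  simp only [mem_filter, mem_univ, true_and] at hP ⊢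
  exact h P hP

theorem cnt_or_le [Finite V] (p q : SO V → Prop) :
    cnt (fun P => p P ∨ q P) ≤ cnt p + cnt q := by
  classical
  unfold cnt
  refine le_trans (card_le_card ?_) (card_union_le _ _)
  intro P hP
  simpa using hP

theorem cnt_exists_mem_le [Finite V] {ι : Type} (s : Finset ι) (p : ι → SO V → Prop) (B : ℕ)
    (h : ∀ i ∈ s, cnt (p i) ≤ B) : cnt (fun P => ∃ i ∈ s, p i P) ≤ s.card * B := by
  classical
  have h1 : cnt (fun P => ∃ i ∈ s, p i P) ≤ (s.biUnion (fun i => univ.filter (p i))).card := by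
    unfold cnt
    apply card_le_card
    intro P hP
    simpa using hP
  refine h1.trans (card_biUnion_le.trans ?_)
  calc ∑ i ∈ s, (univ.filter (p i)).card ≤ ∑ _i ∈ s, B := by
        apply sum_le_sum
        intro i hi
        have h2 := h i hi
        unfold cnt at h2
        convert h2
    _ = s.card * B := by simp

theorem cnt_exists_le [Finite V] {ι : Type} [Fintype ι] (p : ι → SO V → Prop) (B : ℕ)
    (h : ∀ i, cnt (p i) ≤ B) : cnt (fun P => ∃ i, p i P) ≤ Fintype.card ι * B := by
  have := cnt_exists_mem_le (univ : Finset ι) p B (fun i _ => h i)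
  simpa using this

/-- An injection bounds a count. -/
theorem cnt_le_of_injOn [Finite V] {β : Type} (p : SO V → Prop) (f : SO V → β) (t : Finset β)
    (hf : ∀ P, p P → f P ∈ t) (hinj : ∀ P P', p P → p P' → f P = f P' → P = P') :
    cnt p ≤ t.card := by
  classical
  unfold cnt
  apply card_le_card_of_injOn f
  · intro P hP; simp only [coe_filter, mem_univ, true_and, Set.mem_ofPred_eq] at hP
    exact hf P hP
  · intro P hP P' hP' h
    simp only [coe_filter, mem_univ, true_and, Set.mem_ofPred_eq] at hP hP'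
    exact hinj P P' hP hP' h

/-- number of subsets with at most `m` elements of a set with `N` elements -/
def BS (N m : ℕ) : ℕ := ∑ j ∈ range (m + 1), N.choose j

end count

/-! ### Elementary order lemmas -/

section lemmas

variable {V : Type}

theorem SO.adj_comm (P : SO V) {x y : V} : P.adj x y ↔ P.adj y x := or_comm

theorem SO.asymm (P : SO V) {x y : V} (h : P.lt x y) : ¬ P.lt y x := fun h' =>
  P.irr x (P.tr x y x h h')

theorem SO.cov.lt' {P : SO V} {x y : V} (h : P.cov x y) : P.lt x y := h.1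

theorem SO.anti.subset {P : SO V} {Q Q' : Finset V} (h : P.anti Q) (hs : Q' ⊆ Q) : P.anti Q' :=
  fun x hx y hy => h x (hs hx) y (hs hy)

theorem SO.anti.not_adj {P : SO V} {Q : Finset V} (h : P.anti Q) {x y : V} (hx : x ∈ Q)
    (hy : y ∈ Q) : ¬ P.adj x y := by
  rintro (h1 | h1)
  · exact h x hx y hy h1.1
  · exact h y hy x hx h1.1

/-- The cover graph has no triangle. -/
theorem SO.no_triangle (P : SO V) {x y z : V} (h1 : P.adj x y) (h2 : P.adj y z) :
    ¬ P.adj x z := by
  intro h3
  rcases h1 with h1 | h1 <;> rcases h2 with h2 | h2 <;> rcases h3 with h3 | h3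
  · exact h3.2 y h1.1 h2.1
  · exact P.asymm (P.tr _ _ _ h1.1 h2.1) h3.1
  · exact h1.2 z h3.1 h2.1
  · exact h2.2 x h3.1 h1.1
  · exact h2.2 x h1.1 h3.1
  · exact h1.2 z h2.1 h3.1
  · exact P.asymm (P.tr _ _ _ h2.1 h1.1) h3.1
  · exact h3.2 y h2.1 h1.1

theorem SO.cov_del {P : SO V} {D : Finset V} {x y : {x // x ∉ D}} :
    (P.del D).cov x y ↔ P.covD D x y := by
  constructor
  · rintro ⟨h1, h2⟩
    exact ⟨x.2, y.2, h1, fun z hz h3 h4 => h2 ⟨z, hz⟩ h3 h4⟩
  · rintro ⟨_, _, h1, h2⟩
    exact ⟨h1, fun z h3 h4 => h2 z z.2 h3 h4⟩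

theorem SO.cov.covD {P : SO V} {D : Finset V} {x y : V} (h : P.cov x y) (hx : x ∉ D)
    (hy : y ∉ D) : P.covD D x y := ⟨hx, hy, h.1, fun z _ h3 => h.2 z h3⟩

theorem SO.cov_op {P : SO V} {x y : V} : P.op.cov x y ↔ P.cov y x := by
  constructor
  · rintro ⟨h1, h2⟩; exact ⟨h1, fun z h3 h4 => h2 z h4 h3⟩
  · rintro ⟨h1, h2⟩; exact ⟨h1, fun z h3 h4 => h2 z h4 h3⟩

theorem SO.adj_op {P : SO V} {x y : V} : P.op.adj x y ↔ P.adj x y := by
  unfold SO.adj
  rw [SO.cov_op, SO.cov_op]
  exact or_comm

theorem SO.anti_op {P : SO V} {Q : Finset V} : P.op.anti Q ↔ P.anti Q :=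
  ⟨fun h x hx y hy => h y hy x hx, fun h x hx y hy => h y hy x hx⟩

theorem SO.op_op (P : SO V) : P.op.op = P := rfl

/-- A finite strict order is generated by its covers: below `y` there is an upper cover of `x`. -/
theorem SO.exists_cov [Finite V] (P : SO V) {x y : V} (h : P.lt x y) :
    ∃ z, P.cov x z ∧ (z = y ∨ P.lt z y) := by
  classical
  have wf : WellFounded P.lt := by
    have : IsTrans V P.lt := ⟨fun a b c => P.tr a b c⟩
    have : Std.Irrefl P.lt := ⟨P.irr⟩
    exact Finite.wellFounded_of_trans_of_irrefl P.lt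
  obtain ⟨z, hz, hmin⟩ := wf.has_min {z | P.lt x z ∧ (z = y ∨ P.lt z y)} ⟨y, h, Or.inl rfl⟩
  refine ⟨z, ⟨hz.1, fun w h1 h2 => hmin w ⟨h1, ?_⟩ h2⟩, hz.2⟩
  rcases hz.2 with rfl | h3
  · exact Or.inr h2
  · exact Or.inr (P.tr _ _ _ h2 h3)

/-- Two finite orders with the same covers are equal. -/
theorem SO.ext_cov [Finite V] {P P' : SO V} (h : ∀ x y, P.cov x y ↔ P'.cov x y) : P = P' := by
  have key : ∀ (P P' : SO V), (∀ x y, P.cov x y → P'.cov x y) → ∀ x y, P.lt x y → P'.lt x y := by
    intro P P' h x y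
    have wf : WellFounded (fun a b => P.lt b a) := by
      have : IsTrans V (fun a b => P.lt b a) := ⟨fun a b c h1 h2 => P.tr _ _ _ h2 h1⟩
      have : Std.Irrefl (fun a b => P.lt b a) := ⟨P.irr⟩
      exact Finite.wellFounded_of_trans_of_irrefl _
    induction x using wf.induction with
    | _ x ih =>
      intro hxy
      obtain ⟨z, hz, hzy⟩ := P.exists_cov hxy
      have h1 := (h x z hz).1
      rcases hzy with rfl | hzy
      · exact h1
      · exact P'.tr _ _ _ h1 (ih z hz.1 hzy)
  apply SO.ext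
  funext x y
  exact propext ⟨key P P' (fun x y => (h x y).1) x y, key P' P (fun x y => (h x y).2) x y⟩

variable [Fintype V] [DecidableEq V]

@[simp] theorem mem_nb {P : SO V} {x y : V} : y ∈ nb P x ↔ P.adj x y := by simp [nb]

@[simp] theorem mem_nbS {P : SO V} {Q : Finset V} {y : V} :
    y ∈ nbS P Q ↔ ∃ q ∈ Q, P.adj q y := by simp [nbS]

@[simp] theorem mem_upS {P : SO V} {Q : Finset V} {y : V} :
    y ∈ upS P Q ↔ ∃ q ∈ Q, P.cov q y := by simp [upS]

@[simp] theorem mem_dnS {P : SO V} {Q : Finset V} {y : V} :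
    y ∈ dnS P Q ↔ ∃ q ∈ Q, P.cov y q := by simp [dnS]

@[simp] theorem mem_upD {P : SO V} {D Q : Finset V} {y : V} :
    y ∈ upD P D Q ↔ ∃ q ∈ Q, P.covD D q y := by simp [upD]

@[simp] theorem mem_dnD {P : SO V} {D Q : Finset V} {y : V} :
    y ∈ dnD P D Q ↔ ∃ q ∈ Q, P.covD D y q := by simp [dnD]

theorem nbS_eq (P : SO V) (Q : Finset V) : nbS P Q = dnS P Q ∪ upS P Q := by
  ext y
  simp only [mem_nbS, mem_union, mem_dnS, mem_upS, SO.adj]
  constructor
  · rintro ⟨q, hq, h | h⟩
    · exact Or.inr ⟨q, hq, h⟩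
    · exact Or.inl ⟨q, hq, h⟩
  · rintro (⟨q, hq, h⟩ | ⟨q, hq, h⟩)
    · exact ⟨q, hq, Or.inr h⟩
    · exact ⟨q, hq, Or.inl h⟩

theorem nbS_mono {P : SO V} {Q Q' : Finset V} (h : Q ⊆ Q') : nbS P Q ⊆ nbS P Q' := by
  intro y; simp only [mem_nbS]; rintro ⟨q, hq, h1⟩; exact ⟨q, h hq, h1⟩

/-- For an antichain the lower and upper covers are disjoint sets. -/
theorem disjoint_dnS_upS {P : SO V} {Q : Finset V} (h : P.anti Q) :
    Disjoint (dnS P Q) (upS P Q) := by
  rw [Finset.disjoint_left]
  intro y h1 h2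
  rw [mem_dnS] at h1; rw [mem_upS] at h2
  obtain ⟨q, hq, h1⟩ := h1
  obtain ⟨q', hq', h2⟩ := h2
  exact h q' hq' q hq (P.tr _ _ _ h2.1 h1.1)

end lemmas

/-! ### The events -/

section events

variable {V : Type} [Fintype V] [DecidableEq V]

/-- some vertex has at most `e` neighbours -/
def E2 (e : ℕ) (P : SO V) : Prop := ∃ v, (nb P v).card ≤ e

/-- some antichain with `k` elements has at most `m` neighbours -/
def E3 (k m : ℕ) (P : SO V) : Prop := ∃ Q : Finset V, Q.card = k ∧ P.anti Q ∧ (nbS P Q).card ≤ m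

/-- `W` contains `g` disjoint comparable pairs -/
def Mat (P : SO V) (W : Finset V) (g : ℕ) : Prop :=
  ∃ a b : Fin g → V, Function.Injective a ∧ Function.Injective b ∧ (∀ i j, a i ≠ b j) ∧
    (∀ i, a i ∈ W) ∧ (∀ i, b i ∈ W) ∧ ∀ i, P.lt (a i) (b i)

/-- some antichain `Q` with `K` elements has at most `m` neighbours, but its upper (or lower)
covers contain `g` disjoint comparable pairs -/
def E4 (K m g : ℕ) (P : SO V) : Prop := ∃ Q : Finset V, Q.card = K ∧ P.anti Q ∧
  (nbS P Q).card ≤ m ∧ (Mat P (upS P Q) g ∨ Mat P (dnS P Q) g)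

open Classical in
/-- ordered pairs of neighbours of `Q` with no common neighbour in `Q` -/
noncomputable def farPairs (P : SO V) (Q : Finset V) : Finset (V × V) :=
  (nbS P Q ×ˢ nbS P Q).filter (fun xz => ∀ q ∈ Q, ¬ (P.adj q xz.1 ∧ P.adj q xz.2))

/-- some antichain `Q` with `K` elements has at most `m` neighbours, but at least `2 t n` ordered
pairs of neighbours of `Q` have no common neighbour in `Q` -/
def E3b (K m t : ℕ) (P : SO V) : Prop := ∃ Q : Finset V, Q.card = K ∧ P.anti Q ∧
  (nbS P Q).card ≤ m ∧ 2 * t * Fintype.card V ≤ (farPairs P Q).card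

/-- regular pairs of layers -/
def reg5 (i j : Fin 5) : Prop := (i = 0 ∧ j = 1) ∨ (i = 1 ∧ j = 2) ∨ (i = 2 ∧ j = 3)

open Classical in
/-- ordered cover pairs that are irregular for the layer function `f` -/
noncomputable def irrPairs (P : SO V) (f : V → Fin 5) : Finset (V × V) :=
  univ.filter (fun xy => P.cov xy.1 xy.2 ∧ ¬ reg5 (f xy.1) (f xy.2))

/-- size of a layer -/
def lsz {r : ℕ} (f : V → Fin r) (i : Fin r) : ℕ := (univ.filter (fun v => f v = i)).card

/-- four layers, the outer ones with at least `b` points, and at most `u` irregular covers -/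
def E5 (m b u : ℕ) (P : SO V) : Prop := ∃ f : V → Fin 5, b ≤ lsz f 0 ∧ b ≤ lsz f 3 ∧
  lsz f 0 + lsz f 2 ≤ m ∧ lsz f 1 + lsz f 3 ≤ m ∧ (irrPairs P f).card ≤ u

/-- some vertex `v` has almost all its neighbours in a set of at most `m` vertices that is the set
of upper covers (or the set of lower covers), in `P - v`, of a set with at most `K` elements -/
def E6 (K m e : ℕ) (P : SO V) : Prop := ∃ v : V, ∃ Q : Finset V, Q.card ≤ K ∧
  (((upD P {v} Q).card ≤ m ∧ (nb P v \ upD P {v} Q).card ≤ e) ∨
    ((dnD P {v} Q).card ≤ m ∧ (nb P v \ dnD P {v} Q).card ≤ e))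

/-- some adjacent vertices `v, w` have almost all their neighbours in one set with at most `m`
elements that is the set of neighbours, in `P - {v, w}`, of a set with at most `K` elements -/
def E7 (K m e : ℕ) (P : SO V) : Prop := ∃ v w : V, P.cov v w ∧ ∃ Q : Finset V, Q.card ≤ K ∧
  (upD P {v, w} Q ∪ dnD P {v, w} Q).card ≤ m ∧
  ((nb P v \ {w}) \ (upD P {v, w} Q ∪ dnD P {v, w} Q)).card ≤ e ∧
  ((nb P w \ {v}) \ (upD P {v, w} Q ∪ dnD P {v, w} Q)).card ≤ e

/-- the covers go upwards between consecutive layers of `f`, four layers -/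
def Lay4 (P : SO V) (f : V → Fin 4) : Prop :=
  ∀ x y, P.cov x y → (f y : ℕ) = f x + 1

/-- the covers go upwards between consecutive layers of `f`, three layers -/
def Lay3 (P : SO V) (f : V → Fin 3) : Prop :=
  ∀ x y, P.cov x y → (f y : ℕ) = f x + 1

/-- three layers: no four-element chain -/
def Good (P : SO V) : Prop := ∃ f : V → Fin 3, Lay3 P f

/-- four layers, the outer ones not empty -/
def Both (P : SO V) : Prop := ∃ f : V → Fin 4, Lay4 P f ∧ (∃ x, f x = 0) ∧ ∃ y, f y = 3

/-- antichains with at least `k` elements have more than `m` neighbours -/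
def Exp (k m : ℕ) (P : SO V) : Prop := ∀ Q : Finset V, k ≤ Q.card → P.anti Q → m < (nbS P Q).card

theorem exp_of_not_E3 {k m : ℕ} {P : SO V} (h : ¬ E3 k m P) : Exp k m P := by
  intro Q hk hQ
  obtain ⟨Q', h1, h2⟩ := exists_subset_card_eq hk
  by_contra h3
  push Not at h3
  exact h ⟨Q', h2, hQ.subset h1, (card_le_card (nbS_mono h1)).trans h3⟩

/-- The core structure of a typical order: three antichains `A`, `M`, `B`, any relation between them
going upwards `A → M → B`, at most `z` further points, `M` having about `n / 2` points, and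
witnesses `S`, `T`: antichains with `K` elements, completely adjacent to each other, with
`M ⊆ N(S)`, `A ⊆ N⁻(T)`, `B ⊆ N⁺(T)`. -/
structure Core (K z m : ℕ) (P : SO V) (S T A M B : Finset V) : Prop where
  cS : S.card = K
  cT : T.card = K
  aS : P.anti S
  aT : P.anti T
  adj : ∀ s ∈ S, ∀ t ∈ T, P.adj s t
  aA : P.anti A
  aM : P.anti M
  aB : P.anti B
  dAM : Disjoint A M
  dAB : Disjoint A B
  dMB : Disjoint M B
  oMA : ∀ x ∈ M, ∀ y ∈ A, ¬ P.lt x y
  oBM : ∀ x ∈ B, ∀ y ∈ M, ¬ P.lt x y
  oBA : ∀ x ∈ B, ∀ y ∈ A, ¬ P.lt x y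
  sM : M ⊆ nbS P S
  sA : A ⊆ dnS P T
  sB : B ⊆ upS P T
  cM : m ≤ M.card + z
  cZ : Fintype.card V ≤ A.card + M.card + B.card + z

open Classical in
/-- the layers given by a completely joined pair `S < T` -/
noncomputable def lay (P : SO V) (S T : Finset V) (v : V) : Fin 5 :=
  if v ∈ dnS P S then 0 else if v ∈ dnS P T then 1 else if v ∈ upS P S then 2
    else if v ∈ upS P T then 3 else 4

end events

end Pool.KR87
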