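import Pool.Agent.KR87.Lay

set_option autoImplicit false
set_option linter.unusedSectionVars false

/-!
# KR87/Bip: the cover graph is bipartite

Let `Y = {v : k ≤ |N(v) ∩ M|}`.  `v ∈ Y`: take `Q ⊆ N(v) ∩ M` with `k` elements; `N(Q)` is disjoint
from `N(v)` (no triangle) and from `M`, and has more than `m3` elements.
Edge `v ⋖ w`; let `S' = S \ {v, w}`, `T' = T \ {v, w}` (at least `k` elements) and
`N'(Q) = upD P {v, w} Q ∪ dnD P {v, w} Q`.  Then `N(Q) \ {v, w} ⊆ N'(Q)` for `Q ∌ v, w`, and
`N'(S')`, `N'(T')` are disjoint (apply `no_triangle` to `P.del {v, w}`), so each has at most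
`n - 2 - (m3 + 1 - 2)` elements.  Moreover `|N(T) \ N(T')| ≤ (n - m3 - 1) - (m3 + 1)`, the same for `S`.
Both `v, w ∉ Y`: `E7` with `Q = T'`.  Both in `Y`: `E7` with `Q = S'`.
-/

namespace Pool.KR87

open Finset

section

variable {V : Type} [Fintype V] [DecidableEq V]

/-- `N(Q)` minus `D` consists of neighbours of `Q` in `P - D` -/
theorem nbS_sdiff_subset {P : SO V} {D Q : Finset V} (h : Disjoint Q D) :
    nbS P Q \ D ⊆ upD P D Q ∪ dnD P D Q := by
  intro x hx
  rw [mem_sdiff, mem_nbS] at hx
  obtain ⟨⟨q, hq, ha⟩, hxD⟩ := hx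
  have hqD : q ∉ D := Finset.disjoint_left.mp h hq
  rw [mem_union, mem_upD, mem_dnD]
  rcases ha with ha | ha
  · exact Or.inl ⟨q, hq, ha.covD hqD hxD⟩
  · exact Or.inr ⟨q, hq, ha.covD hxD hqD⟩

theorem disjoint_nbD {P : SO V} {D S T : Finset V} (hS : Disjoint S D) (hT : Disjoint T D)
    (h : ∀ s ∈ S, ∀ t ∈ T, P.adj s t) :
    Disjoint (upD P D S ∪ dnD P D S) (upD P D T ∪ dnD P D T) := by
  rw [Finset.disjoint_left]
  intro x hx hy
  rw [mem_union, mem_upD, mem_dnD] at hx hy
  have key : ∀ s ∈ S, ∀ t ∈ T, ∀ (hxD : x ∉ D) (hsD : s ∉ D) (htD : t ∉ D),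
      (P.del D).adj ⟨s, hsD⟩ ⟨x, hxD⟩ → (P.del D).adj ⟨t, htD⟩ ⟨x, hxD⟩ → False := by
    intro s hs t ht hxD hsD htD h1 h2
    have h3 : (P.del D).adj ⟨s, hsD⟩ ⟨t, htD⟩ := by
      rcases h s hs t ht with h4 | h4
      · exact Or.inl (SO.cov_del.mpr (h4.covD hsD htD))
      · exact Or.inr (SO.cov_del.mpr (h4.covD htD hsD))
    exact (P.del D).no_triangle h3 h2 h1
  have hxD : x ∉ D := by
    rcases hx with ⟨s, hs, h1⟩ | ⟨s, hs, h1⟩
    · exact h1.2.1
    · exact h1.1
  have g1 : ∃ s, ∃ (hs : s ∈ S) (hsD : s ∉ D), (P.del D).adj ⟨s, hsD⟩ ⟨x, hxD⟩ := by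
    rcases hx with ⟨s, hs, h1⟩ | ⟨s, hs, h1⟩
    · exact ⟨s, hs, h1.1, Or.inl (SO.cov_del.mpr h1)⟩
    · exact ⟨s, hs, h1.2.1, Or.inr (SO.cov_del.mpr h1)⟩
  have g2 : ∃ s, ∃ (hs : s ∈ T) (hsD : s ∉ D), (P.del D).adj ⟨s, hsD⟩ ⟨x, hxD⟩ := by
    rcases hy with ⟨s, hs, h1⟩ | ⟨s, hs, h1⟩
    · exact ⟨s, hs, h1.1, Or.inl (SO.cov_del.mpr h1)⟩
    · exact ⟨s, hs, h1.2.1, Or.inr (SO.cov_del.mpr h1)⟩
  obtain ⟨s, hs, hsD, a1⟩ := g1
  obtain ⟨t, ht, htD, a2⟩ := g2
  exact key s hs t ht hxD hsD htD a1 a2

/-- for a subset of `T` (or of `S`) with at least `k` elements few neighbours are lost -/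
theorem Core.loss {k K z m3 : ℕ} {P : SO V} {S T A M B : Finset V}
    (hC : Core K z m3 P S T A M B) (hE : Exp k m3 P) (hk : k ≤ K) {T' : Finset V} (h : T' ⊆ T)
    (hc : k ≤ T'.card) : (nbS P T \ nbS P T').card + 2 * m3 + 2 ≤ Fintype.card V := by
  have h1 := hE T' hc (hC.aT.subset h)
  have h2 := hE S (by rw [hC.cS]; exact hk) hC.aS
  have h3 : (nbS P S ∪ nbS P T).card ≤ Fintype.card V := card_le_univ _
  rw [card_union_of_disjoint (disjoint_nbS_of_adj hC.adj)] at h3
  have h4 := card_sdiff_of_subset (nbS_mono (P := P) h)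
  have h5 := card_le_card (nbS_mono (P := P) h)
  omega

theorem Core.loss' {k K z m3 : ℕ} {P : SO V} {S T A M B : Finset V}
    (hC : Core K z m3 P S T A M B) (hE : Exp k m3 P) (hk : k ≤ K) {S' : Finset V} (h : S' ⊆ S)
    (hc : k ≤ S'.card) : (nbS P S \ nbS P S').card + 2 * m3 + 2 ≤ Fintype.card V := by
  have h1 := hE S' hc (hC.aS.subset h)
  have h2 := hE T (by rw [hC.cT]; exact hk) hC.aT
  have h3 : (nbS P S ∪ nbS P T).card ≤ Fintype.card V := card_le_univ _
  rw [card_union_of_disjoint (disjoint_nbS_of_adj hC.adj)] at h3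
  have h4 := card_sdiff_of_subset (nbS_mono (P := P) h)
  have h5 := card_le_card (nbS_mono (P := P) h)
  omega

theorem Core.out_le {k K z m3 : ℕ} {P : SO V} {S T A M B : Finset V}
    (hC : Core K z m3 P S T A M B) (hE : Exp k m3 P) {v : V} (hv : k ≤ (nb P v ∩ M).card) :
    (nb P v \ M).card + 2 * m3 ≤ Fintype.card V + z := by
  obtain ⟨Q, hQ, hQc⟩ := exists_subset_card_eq hv
  have hQM : Q ⊆ M := fun x hx => (mem_inter.mp (hQ hx)).2
  have hQv : Q ⊆ nb P v := fun x hx => (mem_inter.mp (hQ hx)).1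
  have h1 := hE Q (by omega) (hC.aM.subset hQM)
  -- `N(Q)` is disjoint from `N(v)` and from `M`
  have d1 : Disjoint (nbS P Q) (nb P v ∪ M) := by
    rw [Finset.disjoint_left]
    intro x hx hy
    rw [mem_nbS] at hx
    obtain ⟨q, hq, ha⟩ := hx
    rw [mem_union, mem_nb] at hy
    rcases hy with hy | hy
    · have h2 := hQv hq
      rw [mem_nb] at h2
      exact P.no_triangle h2 ha hy
    · exact hC.aM.not_adj (hQM hq) hy ha
  have h3 : (nbS P Q ∪ (nb P v ∪ M)).card ≤ Fintype.card V := card_le_univ _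
  rw [card_union_of_disjoint d1] at h3
  have h4 : (nb P v ∪ M).card = (nb P v \ M).card + M.card := by
    rw [← card_sdiff_add_card]
  have h5 := hC.cM
  omega

theorem Core.bip {k z m3 m7 e7 : ℕ} {P : SO V} {S T A M B : Finset V}
    (hC : Core (k + 2) z m3 P S T A M B) (hE : Exp k m3 P) (h7 : ¬ E7 (k + 2) m7 e7 P)
    (n1 : Fintype.card V ≤ m7 + m3) (n2 : k + z + (Fintype.card V - 2 * m3) ≤ e7)
    (n3 : 2 * (Fintype.card V - 2 * m3) + z ≤ e7) :
    ∀ v w, P.adj v w → (k ≤ (nb P v ∩ M).card ↔ ¬ k ≤ (nb P w ∩ M).card) := by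
  -- the case of a cover
  have main : ∀ v w, P.cov v w → (k ≤ (nb P v ∩ M).card ↔ ¬ k ≤ (nb P w ∩ M).card) := by
    intro v w hvw
    have hTs : T \ {v, w} ⊆ T := sdiff_subset
    have hSs : S \ {v, w} ⊆ S := sdiff_subset
    have hpair : ({v, w} : Finset V).card ≤ 2 := Finset.card_le_two
    have hTc : k ≤ (T \ {v, w}).card := by
      have h1 := Finset.le_card_sdiff ({v, w} : Finset V) T
      have h2 := hC.cT
      omega
    have hSc : k ≤ (S \ {v, w}).card := by
      have h1 := Finset.le_card_sdiff ({v, w} : Finset V) S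
      have h2 := hC.cS
      omega
    have hTd : Disjoint (T \ {v, w}) ({v, w} : Finset V) := sdiff_disjoint
    have hSd : Disjoint (S \ {v, w}) ({v, w} : Finset V) := sdiff_disjoint
    have hadj : ∀ x ∈ S \ {v, w}, ∀ t ∈ T \ {v, w}, P.adj x t :=
      fun x hx t ht => hC.adj x (hSs hx) t (hTs ht)
    have hdis := disjoint_nbD (D := ({v, w} : Finset V)) hSd hTd hadj
    have hlossT := hC.loss hE (by omega) hTs hTc
    have hlossS := hC.loss' hE (by omega) hSs hSc
    have hne : v ≠ w := by
      rintro rfl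
      exact P.irr _ hvw.1
    have hvw2 : ({v, w} : Finset V).card = 2 := card_pair hne
    -- the two neighbourhoods and the pair are disjoint
    have hdv : Disjoint (({v, w} : Finset V))
        ((upD P {v, w} (S \ {v, w}) ∪ dnD P {v, w} (S \ {v, w})) ∪
        (upD P {v, w} (T \ {v, w}) ∪ dnD P {v, w} (T \ {v, w}))) := by
      rw [Finset.disjoint_left]
      intro x hx hy
      rw [mem_union, mem_union, mem_union, mem_upD, mem_dnD, mem_upD, mem_dnD] at hy
      rcases hy with (⟨q, hq, h1⟩ | ⟨q, hq, h1⟩) | (⟨q, hq, h1⟩ | ⟨q, hq, h1⟩)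
      · exact h1.2.1 hx
      · exact h1.1 hx
      · exact h1.2.1 hx
      · exact h1.1 hx
    have hsz : 2 + ((upD P {v, w} (S \ {v, w}) ∪ dnD P {v, w} (S \ {v, w})).card +
        (upD P {v, w} (T \ {v, w}) ∪ dnD P {v, w} (T \ {v, w})).card) ≤ Fintype.card V := by
      have h1 : (({v, w} : Finset V) ∪ ((upD P {v, w} (S \ {v, w}) ∪ dnD P {v, w} (S \ {v, w})) ∪
        (upD P {v, w} (T \ {v, w}) ∪ dnD P {v, w} (T \ {v, w})))).card ≤ Fintype.card V :=
        card_le_univ _
      rw [card_union_of_disjoint hdv, card_union_of_disjoint hdis, hvw2] at h1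
      exact h1
    have hbig : ∀ Q : Finset V, P.anti Q → k ≤ Q.card → Disjoint Q ({v, w} : Finset V) →
        m3 + 1 ≤ (upD P {v, w} Q ∪ dnD P {v, w} Q).card + 2 := by
      intro Q hQ hQc hQd
      have h1 := hE Q hQc hQ
      have h2 := card_le_card (nbS_sdiff_subset (P := P) hQd)
      have h3 := Finset.le_card_sdiff ({v, w} : Finset V) (nbS P Q)
      omega
    have hbS := hbig _ (hC.aS.subset hSs) hSc hSd
    have hbT := hbig _ (hC.aT.subset hTs) hTc hTd
    have hcard : ∀ Q : Finset V, Q ⊆ S ∨ Q ⊆ T → Q.card ≤ k + 2 := by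
      rintro Q (hQ | hQ)
      · have h1 := card_le_card hQ
        have h2 := hC.cS
        omega
      · have h1 := card_le_card hQ
        have h2 := hC.cT
        omega
    have hZ : (univ \ (A ∪ M ∪ B)).card ≤ z := by
      have h6 : (univ \ (A ∪ M ∪ B)).card = Fintype.card V - (A ∪ M ∪ B).card := by
        rw [← Finset.compl_eq_univ_sdiff, Finset.card_compl]
      have h7 : (A ∪ M ∪ B).card = A.card + M.card + B.card := by
        rw [card_union_of_disjoint, card_union_of_disjoint hC.dAM]
        rw [Finset.disjoint_union_left]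
        exact ⟨hC.dAB, hC.dMB⟩
      have h8 := hC.cZ
      omega
    constructor
    · -- both in `Y`
      intro hv hw
      apply h7
      have outer : ∀ x : V, k ≤ (nb P x ∩ M).card → x ∈ ({v, w} : Finset V) → ∀ y : V,
          y ∈ ({v, w} : Finset V) → y ≠ x →
          ((nb P x \ {y}) \ (upD P {v, w} (S \ {v, w}) ∪ dnD P {v, w} (S \ {v, w}))).card ≤ e7 := by
        intro x hx hxm y hym hyx
        have h1 := hC.out_le hE hx
        have hsub : (nb P x \ {y}) \ (upD P {v, w} (S \ {v, w}) ∪ dnD P {v, w} (S \ {v, w})) ⊆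
            (nb P x \ M) ∪ (nbS P S \ nbS P (S \ {v, w})) := by
          intro u hu
          rw [mem_sdiff, mem_sdiff, mem_singleton, mem_nb] at hu
          obtain ⟨⟨hu1, hu2⟩, hu3⟩ := hu
          by_cases huM : u ∈ M
          · rw [mem_union, mem_sdiff (s := nbS P S)]
            refine Or.inr ⟨hC.sM huM, fun hu4 => hu3 ?_⟩
            apply nbS_sdiff_subset hSd
            rw [mem_sdiff]
            refine ⟨hu4, fun hu5 => ?_⟩
            rw [mem_insert, mem_singleton] at hxm hym hu5
            have hux : u ≠ x := by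
              rintro rfl
              rcases hu1 with h3 | h3
              · exact P.irr _ h3.1
              · exact P.irr _ h3.1
            rcases hxm with rfl | rfl <;> rcases hym with rfl | rfl <;> rcases hu5 with rfl | rfl <;>
              first
                | exact hyx rfl
                | exact hux rfl
                | exact hu2 rfl
          · rw [mem_union, mem_sdiff, mem_nb]
            exact Or.inl ⟨hu1, huM⟩
        have h2 := card_le_card hsub
        have h3 := card_union_le (nb P x \ M) (nbS P S \ nbS P (S \ {v, w}))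
        omega
      refine ⟨v, w, hvw, S \ {v, w}, hcard _ (Or.inl hSs), by omega, ?_, ?_⟩
      · exact outer v hv (mem_insert_self _ _) w (mem_insert_of_mem (mem_singleton_self _)) hne.symm
      · exact outer w hw (mem_insert_of_mem (mem_singleton_self _)) v (mem_insert_self _ _) hne
    · -- both outside of `Y`
      intro hw
      by_contra hv
      push Not at hv hw
      apply h7
      have outer : ∀ x : V, (nb P x ∩ M).card < k → x ∈ ({v, w} : Finset V) → ∀ y : V,
          y ∈ ({v, w} : Finset V) → y ≠ x →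
          ((nb P x \ {y}) \ (upD P {v, w} (T \ {v, w}) ∪ dnD P {v, w} (T \ {v, w}))).card ≤ e7 := by
        intro x hx hxm y hym hyx
        have hsub : (nb P x \ {y}) \ (upD P {v, w} (T \ {v, w}) ∪ dnD P {v, w} (T \ {v, w})) ⊆
            (nb P x ∩ M) ∪ ((univ \ (A ∪ M ∪ B)) ∪ (nbS P T \ nbS P (T \ {v, w}))) := by
          intro u hu
          rw [mem_sdiff, mem_sdiff, mem_singleton, mem_nb] at hu
          obtain ⟨⟨hu1, hu2⟩, hu3⟩ := hu
          by_cases huM : u ∈ M
          · rw [mem_union, mem_inter, mem_nb]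
            exact Or.inl ⟨hu1, huM⟩
          by_cases huT : u ∈ nbS P T
          · rw [mem_union, mem_union (s := univ \ (A ∪ M ∪ B)), mem_sdiff (s := nbS P T)]
            refine Or.inr (Or.inr ⟨huT, fun hu4 => hu3 ?_⟩)
            apply nbS_sdiff_subset hTd
            rw [mem_sdiff]
            refine ⟨hu4, fun hu5 => ?_⟩
            rw [mem_insert, mem_singleton] at hxm hym hu5
            have hux : u ≠ x := by
              rintro rfl
              rcases hu1 with h3 | h3
              · exact P.irr _ h3.1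
              · exact P.irr _ h3.1
            rcases hxm with rfl | rfl <;> rcases hym with rfl | rfl <;> rcases hu5 with rfl | rfl <;>
              first
                | exact hyx rfl
                | exact hux rfl
                | exact hu2 rfl
          · have huA : u ∉ A := by
              intro h1
              apply huT
              rw [nbS_eq]
              exact mem_union_left _ (hC.sA h1)
            have huB : u ∉ B := by
              intro h1
              apply huT
              rw [nbS_eq]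
              exact mem_union_right _ (hC.sB h1)
            rw [mem_union, mem_union (s := univ \ (A ∪ M ∪ B))]
            refine Or.inr (Or.inl ?_)
            simp [huA, huM, huB]
        have h2 := card_le_card hsub
        have h3 := card_union_le (nb P x ∩ M)
          ((univ \ (A ∪ M ∪ B)) ∪ (nbS P T \ nbS P (T \ {v, w})))
        have h4 := card_union_le (univ \ (A ∪ M ∪ B)) (nbS P T \ nbS P (T \ {v, w}))
        omega
      refine ⟨v, w, hvw, T \ {v, w}, hcard _ (Or.inr hTs), by omega, ?_, ?_⟩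
      · exact outer v hv (mem_insert_self _ _) w (mem_insert_of_mem (mem_singleton_self _)) hne.symm
      · exact outer w hw (mem_insert_of_mem (mem_singleton_self _)) v (mem_insert_self _ _) hne
  intro v w h
  rcases h with h | h
  · exact main v w h
  · have h1 := main w v h
    tauto

end

end Pool.KR87
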