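import Pool.Agent.KR87.Base

set_option autoImplicit false
set_option linter.unusedSectionVars false

/-!
# KR87/Comb: small subsets
-/

namespace Pool.KR87

open Finset

theorem BS_mono_left {N N' : ℕ} (h : N ≤ N') (m : ℕ) : BS N m ≤ BS N' m := by
  unfold BS
  exact sum_le_sum fun j _ => Nat.choose_le_choose j h

theorem BS_mono_right (N : ℕ) {m m' : ℕ} (h : m ≤ m') : BS N m ≤ BS N m' := by
  unfold BS
  apply sum_le_sum_of_subset
  intro j hj
  rw [mem_range] at hj ⊢
  omega

open Classical in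
/-- subsets of `U` with at most `m` elements -/
theorem card_small_powerset {V : Type} (U : Finset V) (m : ℕ) :
    (U.powerset.filter (fun A => A.card ≤ m)).card = BS U.card m := by
  unfold BS
  rw [card_eq_sum_card_fiberwise (f := Finset.card) (t := range (m + 1))]
  · apply sum_congr rfl
    intro j hj
    rw [← card_powersetCard j U]
    congr 1
    ext A
    simp only [mem_filter, mem_powerset, mem_powersetCard]
    rw [mem_range] at hj
    constructor
    · rintro ⟨⟨h1, _⟩, h3⟩
      exact ⟨h1, h3⟩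
    · rintro ⟨h1, h3⟩
      exact ⟨⟨h1, by omega⟩, h3⟩
  · intro A hA
    have h := (mem_filter.1 (mem_coe.1 hA)).2
    rw [mem_coe, mem_range]
    omega

open Classical in
theorem card_small (V : Type) [Fintype V] (m : ℕ) :
    ((univ : Finset (Finset V)).filter (fun A => A.card ≤ m)).card = BS (Fintype.card V) m := by
  rw [← Finset.card_univ, ← card_small_powerset (univ : Finset V) m, powerset_univ]

theorem BS_le_succ_pow (N K : ℕ) : BS N K ≤ (N + 1) ^ K := by
  induction K with
  | zero => simp [BS]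
  | succ K ih =>
    have h1 : BS N (K + 1) = BS N K + N.choose (K + 1) := by
      unfold BS
      rw [sum_range_succ]
    have h2 : N.choose (K + 1) ≤ N ^ (K + 1) := Nat.choose_le_pow _ _
    have h3 : N ^ K ≤ (N + 1) ^ K := Nat.pow_le_pow_left (Nat.le_succ N) K
    rw [h1]
    calc BS N K + N.choose (K + 1) ≤ (N + 1) ^ K + N ^ (K + 1) := Nat.add_le_add ih h2
      _ = (N + 1) ^ K + N ^ K * N := by rw [pow_succ N K]
      _ ≤ (N + 1) ^ K + (N + 1) ^ K * N := Nat.add_le_add_left (Nat.mul_le_mul_right N h3) _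
      _ = (N + 1) ^ (K + 1) := by rw [pow_succ (N + 1) K]; ring

open Classical in
theorem card_le_pow (V : Type) [Fintype V] (K : ℕ) :
    ((univ : Finset (Finset V)).filter (fun A => A.card ≤ K)).card ≤ (Fintype.card V + 1) ^ K := by
  rw [card_small]
  exact BS_le_succ_pow _ _

open Classical in
theorem card_eq_pow (V : Type) [Fintype V] (k : ℕ) :
    ((univ : Finset (Finset V)).filter (fun A => A.card = k)).card ≤ Fintype.card V ^ k := by
  have h1 : (univ : Finset (Finset V)).filter (fun A => A.card = k)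
      = powersetCard k (univ : Finset V) := by
    ext A
    simp [mem_powersetCard]
  rw [h1, card_powersetCard, Finset.card_univ]
  exact Nat.choose_le_pow _ _

theorem BS_mul_le (N m : ℕ) (x : ℝ) (h0 : 0 < x) (h1 : x ≤ 1) :
    x ^ m * (BS N m : ℝ) ≤ (1 + x) ^ N := by
  have e1 : x ^ m * (BS N m : ℝ) ≤ ∑ j ∈ range (m + 1), (N.choose j : ℝ) * x ^ j := by
    unfold BS
    rw [Nat.cast_sum, mul_sum]
    apply sum_le_sum
    intro j hj
    rw [mem_range] at hj
    rw [mul_comm]
    exact mul_le_mul_of_nonneg_left (pow_le_pow_of_le_one h0.le h1 (by omega)) (Nat.cast_nonneg _)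
  have e2 : ∑ j ∈ range (m + 1), (N.choose j : ℝ) * x ^ j
      ≤ ∑ j ∈ range (max m N + 1), (N.choose j : ℝ) * x ^ j := by
    apply sum_le_sum_of_subset_of_nonneg
    · intro j hj
      rw [mem_range] at hj ⊢
      have := le_max_left m N
      omega
    · intro j _ _
      exact mul_nonneg (Nat.cast_nonneg _) (pow_nonneg h0.le _)
  have e3 : ∑ j ∈ range (N + 1), (N.choose j : ℝ) * x ^ j
      = ∑ j ∈ range (max m N + 1), (N.choose j : ℝ) * x ^ j := by
    apply sum_subset
    · intro j hj
      rw [mem_range] at hj ⊢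
      have := le_max_right m N
      omega
    · intro j _ hj
      rw [mem_range] at hj
      rw [Nat.choose_eq_zero_of_lt (by omega), Nat.cast_zero, zero_mul]
  have e4 : (1 + x) ^ N = ∑ j ∈ range (N + 1), (N.choose j : ℝ) * x ^ j := by
    rw [add_comm, add_pow]
    apply sum_congr rfl
    intro j _
    rw [one_pow, mul_one, mul_comm]
  rw [e4, e3]
  exact e1.trans e2

/-- take `x = 1 / 7` in `BS_mul_le`: `8 ^ 8 / 7 ^ 7 < 32`. -/
theorem BS_eighth (L : ℕ) : BS (8 * L) L ≤ 2 ^ (5 * L) := by
  have h := BS_mul_le (8 * L) L (1 / 7) (by norm_num) (by norm_num)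
  have h2 : (BS (8 * L) L : ℝ) ≤ (2 : ℝ) ^ (5 * L) := by
    rw [pow_mul] at h
    have h3 : ((1 : ℝ) / 7) ^ L * (7 : ℝ) ^ L = 1 := by
      rw [← mul_pow]
      norm_num
    calc (BS (8 * L) L : ℝ) = (((1 : ℝ) / 7) ^ L * (BS (8 * L) L : ℝ)) * 7 ^ L := by
          rw [mul_right_comm, h3, one_mul]
      _ ≤ ((1 + (1 : ℝ) / 7) ^ 8) ^ L * 7 ^ L :=
          mul_le_mul_of_nonneg_right h (by positivity)
      _ = ((1 + (1 : ℝ) / 7) ^ 8 * 7) ^ L := by rw [mul_pow]
      _ ≤ ((2 : ℝ) ^ 5) ^ L := by
          apply pow_le_pow_left₀ (by positivity)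
          norm_num
      _ = (2 : ℝ) ^ (5 * L) := by rw [pow_mul]
  exact_mod_cast h2

end Pool.KR87
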