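import Pool.Agent.KR87.Rec
import Pool.Agent.KR87.Comb

set_option autoImplicit false
set_option linter.unusedSectionVars false

/-!
# KR87/C2: orders with a vertex of small degree

For a fixed vertex `v` apply `rec_count` with `S = {v}`; `N(v)` is a subset with at most `e`
elements.
-/

namespace Pool.KR87

open Finset

private theorem cnt_deg_le {V : Type} [Fintype V] [DecidableEq V] (e : ℕ) (v : V) :
    cnt (fun P : SO V => (nb P v).card ≤ e) ≤
      3 * BS (Fintype.card V) e * pn (Fintype.card V - 1) := by
  classical
  have h := rec_count ({v} : Finset V) (fun _ _ => False)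
    (fun _ => ((univ : Finset (Finset V)).filter (fun A => A.card ≤ e)).image
      (fun A (_ : {x // x ∈ ({v} : Finset V)}) => A))
    (BS (Fintype.card V) e)
    (fun Q => by
      refine card_image_le.trans ?_
      have := card_small V e
      convert this.le)
    (fun P : SO V => (nb P v).card ≤ e)
    (fun P _ s hs s' hs' => by
      rw [mem_singleton] at hs hs'
      subst hs; subst hs'
      exact ⟨iff_of_false (P.irr _) not_false, fun h => absurd h (P.irr _)⟩)
    (fun P hP => by
      rw [mem_image]
      refine ⟨nb P v \ {v}, ?_, ?_⟩
      · rw [mem_filter]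
        exact ⟨mem_univ _, (card_le_card sdiff_subset).trans hP⟩
      · funext s
        have hs : (s : V) = v := mem_singleton.mp s.2
        rw [hs])
  simpa using h

theorem cnt_E2_le {V : Type} [Fintype V] [DecidableEq V] (e : ℕ) :
    cnt (E2 (V := V) e) ≤
      Fintype.card V * (3 * BS (Fintype.card V) e * pn (Fintype.card V - 1)) :=
  cnt_exists_le (fun (v : V) (P : SO V) => (nb P v).card ≤ e) _ (fun v => cnt_deg_le e v)

end Pool.KR87
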