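import Pool.Agent.KR87.Rec
import Pool.Agent.KR87.Comb

set_option autoImplicit false
set_option linter.unusedSectionVars false

/-!
# KR87/C3: orders with a non-expanding antichain

For a fixed `Q` apply `rec_count` with `S = Q`; choose the set `R = N(Q)` (at most `2 ^ n` ways), then
`N(q) ⊆ R` for the `k` elements `q` of `Q`.
-/

namespace Pool.KR87

open Finset

/-- Number of families of subsets of some set `R` with at most `m` elements. -/
private theorem card_families_le {V : Type} [Fintype V] [DecidableEq V] (Q : Finset V) (m : ℕ) :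
    (((univ : Finset (Finset V)).filter (fun R => R.card ≤ m)).biUnion
      (fun R => Fintype.piFinset (fun _ : {x // x ∈ Q} => R.powerset))).card ≤
      2 ^ Fintype.card V * 2 ^ (Q.card * m) := by
  classical
  refine card_biUnion_le.trans ?_
  calc ∑ R ∈ (univ : Finset (Finset V)).filter (fun R => R.card ≤ m),
        (Fintype.piFinset (fun _ : {x // x ∈ Q} => R.powerset)).card
      ≤ ∑ _R ∈ (univ : Finset (Finset V)).filter (fun R => R.card ≤ m), 2 ^ (Q.card * m) := by
        apply sum_le_sum
        intro R hR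
        rw [mem_filter] at hR
        rw [Fintype.card_piFinset]
        simp only [card_powerset, prod_const, card_univ, Fintype.card_coe]
        rw [← pow_mul, mul_comm]
        exact Nat.pow_le_pow_right (by norm_num) (Nat.mul_le_mul_left _ hR.2)
    _ = ((univ : Finset (Finset V)).filter (fun R => R.card ≤ m)).card * 2 ^ (Q.card * m) := by
        rw [sum_const, smul_eq_mul]
    _ ≤ 2 ^ Fintype.card V * 2 ^ (Q.card * m) := by
        apply Nat.mul_le_mul_right
        refine (card_filter_le _ _).trans ?_
        rw [card_univ, Fintype.card_finset]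

private theorem cnt_E3_fix {V : Type} [Fintype V] [DecidableEq V] (m : ℕ) (Q : Finset V) :
    cnt (fun P : SO V => P.anti Q ∧ (nbS P Q).card ≤ m) ≤
      3 ^ Q.card * (2 ^ Fintype.card V * 2 ^ (Q.card * m)) * pn (Fintype.card V - Q.card) := by
  classical
  refine rec_count Q (fun _ _ => False)
    (fun _ => ((univ : Finset (Finset V)).filter (fun R => R.card ≤ m)).biUnion
      (fun R => Fintype.piFinset (fun _ : {x // x ∈ Q} => R.powerset)))
    (2 ^ Fintype.card V * 2 ^ (Q.card * m)) (fun _ => card_families_le Q m)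
    (fun P : SO V => P.anti Q ∧ (nbS P Q).card ≤ m) ?_ ?_
  · rintro P ⟨hP, _⟩ s hs s' hs'
    have h : ¬ P.lt s s' := hP s hs s' hs'
    exact ⟨iff_of_false h not_false, fun h' => absurd h' h⟩
  · rintro P ⟨_, hP⟩
    rw [mem_biUnion]
    refine ⟨nbS P Q, ?_, ?_⟩
    · rw [mem_filter]
      exact ⟨mem_univ _, hP⟩
    · rw [Fintype.mem_piFinset]
      intro s
      rw [mem_powerset]
      intro y hy
      rw [mem_sdiff, mem_nb] at hy
      rw [mem_nbS]
      exact ⟨s, s.2, hy.1⟩

theorem cnt_E3_le {V : Type} [Fintype V] [DecidableEq V] (k m : ℕ) :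
    cnt (E3 (V := V) k m) ≤ Fintype.card V ^ k *
      (3 ^ k * (2 ^ Fintype.card V * 2 ^ (k * m)) * pn (Fintype.card V - k)) := by
  classical
  have h1 : cnt (E3 (V := V) k m) ≤
      cnt (fun P : SO V => ∃ Q ∈ (univ : Finset (Finset V)).filter (fun A => A.card = k),
        P.anti Q ∧ (nbS P Q).card ≤ m) := by
    apply cnt_mono
    rintro P ⟨Q, h2, h3⟩
    exact ⟨Q, mem_filter.2 ⟨mem_univ _, h2⟩, h3⟩
  refine h1.trans ((cnt_exists_mem_le _ _
    (3 ^ k * (2 ^ Fintype.card V * 2 ^ (k * m)) * pn (Fintype.card V - k)) ?_).trans ?_)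
  · intro Q hQ
    rw [mem_filter] at hQ
    have h := cnt_E3_fix m Q
    rw [hQ.2] at h
    exact h
  · apply Nat.mul_le_mul_right
    have h := card_eq_pow V k
    convert h

end Pool.KR87
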