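import Pool.Agent.KR87.Rec
import Pool.Agent.KR87.Comb

set_option autoImplicit false
set_option linter.unusedSectionVars false

/-!
# KR87/C3b: orders with an antichain `Q` and many pairs of neighbours of `Q` without a common
neighbour in `Q`

For a fixed `Q`, `|Q| = 8 L`, apply `rec_count` with `S = Q`; choose `R = N(Q)` (`2 ^ n` ways).  For
`x ∈ R` let `σ(x) = N(x) ∩ Q` (the pattern).  Call `x` light if `|σ(x)| ≤ L` (at most `2 ^ (5 L)`
patterns, `BS_eighth`).  If there are fewer than `t` light points, then fewer than `t n` of the far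
pairs have a light first point, so some heavy `x` has at least `t` far partners `z`, with
`σ(z) ⊆ Q \ σ(x)`: at most `2 ^ (7 L)` patterns for each of them.  So with the choice of a set of `t`
points (`2 ^ n` ways), of `x` (`n` ways) and of `σ(x)` (`2 ^ (8 L)` ways) the number of possible
pattern functions is at most `2 ^ (8 L m - L t)` in both cases.
-/

namespace Pool.KR87

open Finset

section C3b

variable {V : Type} [Fintype V] [DecidableEq V]

/-- the allowed patterns of the `t` special points -/
private noncomputable def SP (Q : Finset V) (L : ℕ) :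
    Option (V × Finset {x // x ∈ Q}) → Finset (Finset {x // x ∈ Q})
  | none => univ.filter (fun A => A.card ≤ L)
  | some xA => if L ≤ xA.2.card then (xA.2)ᶜ.powerset else ∅

private theorem SP_card (Q : Finset V) (L : ℕ) (hQ : Q.card = 8 * L)
    (o : Option (V × Finset {x // x ∈ Q})) : (SP Q L o).card ≤ 2 ^ (7 * L) := by
  classical
  have hc : Fintype.card {x // x ∈ Q} = 8 * L := by rw [Fintype.card_coe, hQ]
  rcases o with _ | ⟨x, A⟩
  · have h1 := card_small {x // x ∈ Q} L
    rw [hc] at h1
    have h2 : (SP Q L none).card = BS (8 * L) L := by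
      rw [← h1]
      unfold SP
      congr
    rw [h2]
    exact (BS_eighth L).trans (Nat.pow_le_pow_right (by norm_num) (by omega))
  · unfold SP
    dsimp only
    split_ifs with h
    · rw [card_powerset, card_compl, hc]
      exact Nat.pow_le_pow_right (by norm_num) (by omega)
    · simp

/-- the pattern functions for given choices -/
private noncomputable def PF (Q : Finset V) (L m t : ℕ)
    (c : (Finset V × Finset V) × Option (V × Finset {x // x ∈ Q})) :
    Finset ({x // x ∈ Q} → Finset V) :=
  univ.filter (fun D => c.1.2 ⊆ c.1.1 ∧ c.1.1.card ≤ m ∧ c.1.2.card = t ∧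
    (∀ q, D q ⊆ c.1.1) ∧ ∀ z ∈ c.1.2, univ.filter (fun q => z ∈ D q) ∈ SP Q L c.2)

private theorem PF_card (Q : Finset V) (L m t : ℕ) (hQ : Q.card = 8 * L)
    (c : (Finset V × Finset V) × Option (V × Finset {x // x ∈ Q})) :
    (PF Q L m t c).card ≤ 2 ^ (8 * L * m - L * t) := by
  classical
  obtain ⟨⟨R, T⟩, o⟩ := c
  by_cases hc : T ⊆ R ∧ R.card ≤ m ∧ T.card = t
  · obtain ⟨hTR, hRm, hTt⟩ := hc
    have hcQ : Fintype.card {x // x ∈ Q} = 8 * L := by rw [Fintype.card_coe, hQ]
    have h1 : (PF Q L m t ((R, T), o)).card ≤ (Fintype.piFinset (fun x : V =>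
        if x ∈ T then SP Q L o else if x ∈ R then (univ : Finset (Finset {x // x ∈ Q}))
          else {∅})).card := by
      apply card_le_card_of_injOn (fun D x => univ.filter (fun q => x ∈ D q))
      · intro D hD
        simp only [PF, coe_filter, mem_univ, true_and, Set.mem_ofPred_eq] at hD
        obtain ⟨-, -, -, h4, h5⟩ := hD
        rw [mem_coe, Fintype.mem_piFinset]
        intro x
        split_ifs with h6 h7
        · exact h5 x h6
        · exact mem_univ _
        · rw [mem_singleton, filter_eq_empty_iff]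
          intro q _ h8
          exact h7 (h4 q h8)
      · intro D _ D' _ h
        funext q
        ext x
        have h2 := congrFun h x
        have h3 : q ∈ univ.filter (fun q => x ∈ D q) ↔ q ∈ univ.filter (fun q => x ∈ D' q) := by
          rw [show univ.filter (fun q => x ∈ D q) = univ.filter (fun q => x ∈ D' q) from h2]
        simpa using h3
    refine h1.trans ?_
    rw [Fintype.card_piFinset]
    have h2 : ∏ x : V, (if x ∈ T then SP Q L o else if x ∈ R then
        (univ : Finset (Finset {x // x ∈ Q})) else {∅}).card ≤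
        ∏ x : V, ((if x ∈ T then 2 ^ (7 * L) else 1) * (if x ∈ R \ T then 2 ^ (8 * L) else 1)) := by
      apply prod_le_prod'
      intro x _
      by_cases h3 : x ∈ T
      · have h4 : x ∉ R \ T := by simp [h3]
        rw [if_pos h3, if_pos h3, if_neg h4, mul_one]
        exact SP_card Q L hQ o
      · by_cases h4 : x ∈ R
        · have h5 : x ∈ R \ T := by simp [h3, h4]
          rw [if_neg h3, if_pos h4, if_neg h3, if_pos h5, one_mul, card_univ,
            Fintype.card_finset, hcQ]
        · have h5 : x ∉ R \ T := by simp [h4]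
          rw [if_neg h3, if_neg h4, if_neg h3, if_neg h5]
          simp
    refine h2.trans ?_
    rw [prod_mul_distrib, prod_ite_mem, prod_ite_mem, univ_inter, univ_inter, prod_const,
      prod_const, hTt, card_sdiff_of_subset hTR, hTt, ← pow_mul, ← pow_mul, ← pow_add]
    apply Nat.pow_le_pow_right (by norm_num)
    have h3 : t ≤ R.card := hTt ▸ card_le_card hTR
    obtain ⟨a, ha⟩ := Nat.exists_eq_add_of_le h3
    obtain ⟨b, hb⟩ := Nat.exists_eq_add_of_le hRm
    rw [hb, ha, Nat.add_sub_cancel_left]
    apply Nat.le_sub_of_add_le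
    nlinarith [Nat.zero_le (L * b)]
  · have h1 : PF Q L m t ((R, T), o) = ∅ := by
      unfold PF
      rw [filter_eq_empty_iff]
      rintro D - ⟨h1, h2, h3, -⟩
      exact hc ⟨h1, h2, h3⟩
    rw [h1]
    simp

private noncomputable def F3b (Q : Finset V) (L m t : ℕ) : Finset ({x // x ∈ Q} → Finset V) :=
  (univ : Finset ((Finset V × Finset V) × Option (V × Finset {x // x ∈ Q}))).biUnion
    (PF Q L m t)

private theorem F3b_card (Q : Finset V) (L m t : ℕ) (hQ : Q.card = 8 * L) :
    (F3b Q L m t).card ≤ 4 ^ Fintype.card V * ((Fintype.card V + 1) * 2 ^ (8 * L) *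
        2 ^ (8 * L * m - L * t)) := by
  classical
  have hcQ : Fintype.card {x // x ∈ Q} = 8 * L := by rw [Fintype.card_coe, hQ]
  unfold F3b
  refine card_biUnion_le.trans ((sum_le_sum fun c _ => PF_card Q L m t hQ c).trans ?_)
  rw [sum_const, card_univ, Fintype.card_prod, Fintype.card_prod, Fintype.card_option,
    Fintype.card_prod, Fintype.card_finset, Fintype.card_finset, hcQ, smul_eq_mul, ← mul_pow,
    mul_assoc]
  norm_num only
  apply Nat.mul_le_mul_left
  apply Nat.mul_le_mul_right
  have : 1 ≤ 2 ^ (8 * L) := Nat.one_le_two_pow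
  nlinarith

private theorem mem_F3b {P : SO V} {Q : Finset V} {L m t : ℕ} (hL : 0 < L)
    (hc : Q.card = 8 * L) (hm : (nbS P Q).card ≤ m)
    (hf : 2 * t * Fintype.card V ≤ (farPairs P Q).card) :
    (fun s : {x // x ∈ Q} => nb P s) ∈ F3b Q L m t := by
  classical
  set R := nbS P Q with hR
  set σ : V → Finset {x // x ∈ Q} := fun x => univ.filter (fun q => x ∈ nb P q) with hσ
  have hn : 0 < Fintype.card V := by
    have h1 : Q.card ≤ Fintype.card V := card_le_univ Q
    omega
  have hsub : ∀ q : {x // x ∈ Q}, nb P q ⊆ R := by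
    intro q y hy
    rw [mem_nb] at hy
    rw [hR, mem_nbS]
    exact ⟨q, q.2, hy⟩
  unfold F3b
  rw [mem_biUnion]
  set Λ : Finset V := R.filter (fun x => (σ x).card ≤ L) with hΛ
  by_cases hcase : t ≤ Λ.card
  · obtain ⟨T, hT, hTt⟩ := exists_subset_card_eq hcase
    refine ⟨((R, T), none), mem_univ _, ?_⟩
    unfold PF
    rw [mem_filter]
    refine ⟨mem_univ _, hT.trans (filter_subset _ _), hm, hTt, hsub, ?_⟩
    intro z hz
    have h1 := (mem_filter.1 (hT hz)).2
    unfold SP
    rw [mem_filter]
    exact ⟨mem_univ _, h1⟩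
  · push Not at hcase
    -- some heavy point has many far partners
    set far : V → Finset V := fun x => R.filter (fun z => ∀ q ∈ Q, ¬ (P.adj q x ∧ P.adj q z))
      with hfar
    have h1 : (farPairs P Q).card ≤ ∑ x ∈ R, (far x).card := by
      have h2 : farPairs P Q ⊆ R.biUnion (fun x => (far x).image (fun z => (x, z))) := by
        rintro ⟨x, z⟩ h
        simp only [farPairs, mem_filter, mem_product] at h
        obtain ⟨⟨h3, h4⟩, h5⟩ := h
        rw [mem_biUnion]
        exact ⟨x, h3, mem_image.2 ⟨z, mem_filter.2 ⟨h4, h5⟩, rfl⟩⟩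
      exact (card_le_card h2).trans (card_biUnion_le.trans (sum_le_sum fun x _ => card_image_le))
    have h2 : ∃ x ∈ R, L < (σ x).card ∧ t ≤ (far x).card := by
      by_contra hcon
      push Not at hcon
      have h3 : ∀ x ∈ R, (far x).card ≤ (if x ∈ Λ then Fintype.card V else 0) + (t - 1) := by
        intro x hx
        by_cases h4 : x ∈ Λ
        · rw [if_pos h4]
          exact (card_le_univ _).trans (Nat.le_add_right _ _)
        · rw [if_neg h4, zero_add]
          have h5 : L < (σ x).card := by
            by_contra h6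
            push Not at h6
            exact h4 (mem_filter.2 ⟨hx, h6⟩)
          have := hcon x hx h5
          omega
      have h4 : (farPairs P Q).card ≤ Λ.card * Fintype.card V + R.card * (t - 1) := by
        refine h1.trans ((sum_le_sum h3).trans ?_)
        rw [sum_add_distrib, sum_const, smul_eq_mul, sum_ite_mem, sum_const, smul_eq_mul]
        apply Nat.add_le_add_right
        apply Nat.mul_le_mul_right
        exact card_le_card inter_subset_right
      have h5 : R.card ≤ Fintype.card V := card_le_univ R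
      have h6 : Λ.card ≤ t - 1 := by omega
      have h7 : R.card * (t - 1) ≤ Fintype.card V * (t - 1) := Nat.mul_le_mul_right _ h5
      have h8 : Λ.card * Fintype.card V ≤ (t - 1) * Fintype.card V := Nat.mul_le_mul_right _ h6
      obtain ⟨s, hs⟩ : ∃ s, t = s + 1 := ⟨t - 1, by omega⟩
      rw [hs] at hf h4 h7 h8
      simp only [Nat.add_sub_cancel] at h4 h7 h8
      nlinarith
    obtain ⟨x, hx, hx1, hx2⟩ := h2
    obtain ⟨T, hT, hTt⟩ := exists_subset_card_eq hx2
    refine ⟨((R, T), some (x, σ x)), mem_univ _, ?_⟩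
    unfold PF
    rw [mem_filter]
    refine ⟨mem_univ _, hT.trans (filter_subset _ _), hm, hTt, hsub, ?_⟩
    intro z hz
    have h3 := (mem_filter.1 (hT hz)).2
    unfold SP
    dsimp only
    rw [if_pos hx1.le, mem_powerset]
    intro q hq
    rw [mem_compl]
    intro hq'
    have h4 := (mem_filter.1 hq).2
    have h5 := (mem_filter.1 hq').2
    rw [mem_nb] at h4 h5
    exact h3 q q.2 ⟨h5, h4⟩

private theorem cnt_E3b_Q (L m t : ℕ) (hL : 0 < L) (Q : Finset V) (hQ : Q.card = 8 * L) :
    cnt (fun P : SO V => P.anti Q ∧ (nbS P Q).card ≤ m ∧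
      2 * t * Fintype.card V ≤ (farPairs P Q).card) ≤
      3 ^ (8 * L) * (4 ^ Fintype.card V * ((Fintype.card V + 1) * 2 ^ (8 * L) *
        2 ^ (8 * L * m - L * t))) * pn (Fintype.card V - 8 * L) := by
  classical
  have h := rec_count Q (fun _ _ => False) (fun _ => F3b Q L m t)
    (4 ^ Fintype.card V * ((Fintype.card V + 1) * 2 ^ (8 * L) * 2 ^ (8 * L * m - L * t)))
    (fun _ => F3b_card Q L m t hQ)
    (fun P : SO V => P.anti Q ∧ (nbS P Q).card ≤ m ∧
      2 * t * Fintype.card V ≤ (farPairs P Q).card) ?_ ?_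
  · rw [hQ] at h
    exact h
  · rintro P ⟨h1, -, -⟩ s hs s' hs'
    have := h1 s hs s' hs'
    simp [this]
  · rintro P ⟨h1, h2, h3⟩
    have h4 : (fun s : {x // x ∈ Q} => nb P s \ Q) = fun s : {x // x ∈ Q} => nb P s := by
      funext s
      rw [sdiff_eq_left, Finset.disjoint_left]
      intro y hy hyQ
      rw [mem_nb] at hy
      exact h1.not_adj s.2 hyQ hy
    rw [h4]
    exact mem_F3b hL hQ h2 h3

end C3b

theorem cnt_E3b_le {V : Type} [Fintype V] [DecidableEq V] (L m t : ℕ) (hL : 0 < L) :
    cnt (E3b (V := V) (8 * L) m t) ≤ Fintype.card V ^ (8 * L) *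
      (3 ^ (8 * L) * (4 ^ Fintype.card V * ((Fintype.card V + 1) * 2 ^ (8 * L) *
        2 ^ (8 * L * m - L * t))) * pn (Fintype.card V - 8 * L)) := by
  classical
  have h1 := cnt_exists_mem_le ((univ : Finset (Finset V)).filter (fun Q => Q.card = 8 * L))
    (fun Q (P : SO V) => P.anti Q ∧ (nbS P Q).card ≤ m ∧
      2 * t * Fintype.card V ≤ (farPairs P Q).card) _
    (fun Q hQ => cnt_E3b_Q L m t hL Q (by simpa using hQ))
  refine (le_trans (cnt_mono ?_) h1).trans (Nat.mul_le_mul_right _ ?_)
  · rintro P ⟨Q, hK, hQ, hm, hf⟩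
    exact ⟨Q, by simpa using hK, hQ, hm, hf⟩
  · convert card_eq_pow V (8 * L)

end Pool.KR87
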