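import Pool.Agent.KR87.Rec
import Pool.Agent.KR87.Comb

set_option autoImplicit false
set_option linter.unusedSectionVars false

/-!
# KR87/C4: orders with an antichain whose upper (lower) covers contain a large matching

For a fixed `Q` apply `rec_count` with `S = Q`.  Choose the sets `R = N(Q)` and `W = N⁺(Q)` (or
`N⁻(Q)`), at most `4 ^ n` ways; `W` is disjoint from `Q`, so that the `g` disjoint comparable pairs
`a i < b i` in `W` can be chosen (choice function) depending on `P - Q` and `W` only.  No `q ∈ Q` is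
adjacent to both `a i` and `b i`: if `W = N⁺(Q)` then `a i`, `b i` cover elements of the antichain `Q`,
so an adjacent `q` is below them, and `q ⋖ b i`, `q ⋖ a i < b i` is impossible.  So each `N(q)` is one
of at most `3 ^ g * 2 ^ (m - 2 g)` subsets of `R`.
-/

namespace Pool.KR87

open Finset

open Classical in
/-- subsets of `R` that contain no pair `{a i, b i}` completely -/
theorem card_avoid_pairs {V : Type} (R : Finset V) (g : ℕ) (a b : Fin g → V)
    (ha : Function.Injective a) (hb : Function.Injective b) (hab : ∀ i j, a i ≠ b j)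
    (haR : ∀ i, a i ∈ R) (hbR : ∀ i, b i ∈ R) :
    (R.powerset.filter (fun D => ∀ i, ¬ (a i ∈ D ∧ b i ∈ D))).card ≤
      3 ^ g * 2 ^ (R.card - 2 * g) := by
  set I : Finset V := univ.image a ∪ univ.image b with hI
  have hIR : I ⊆ R := by
    intro x hx
    rw [hI, mem_union, mem_image, mem_image] at hx
    rcases hx with ⟨i, -, rfl⟩ | ⟨i, -, rfl⟩
    · exact haR i
    · exact hbR i
  have hIc : I.card = 2 * g := by
    rw [hI, card_union_of_disjoint, card_image_of_injective _ ha, card_image_of_injective _ hb]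
    · simp; ring
    · rw [Finset.disjoint_left]
      intro x hx hx'
      rw [mem_image] at hx hx'
      obtain ⟨i, -, rfl⟩ := hx
      obtain ⟨j, -, h⟩ := hx'
      exact hab i j h.symm
  have h1 : (R.powerset.filter (fun D => ∀ i, ¬ (a i ∈ D ∧ b i ∈ D))).card ≤
      ((univ : Finset (Fin g → Fin 3)) ×ˢ (R \ I).powerset).card := by
    apply card_le_card_of_injOn
      (fun D => (fun i => if a i ∈ D then (1 : Fin 3) else if b i ∈ D then 2 else 0, D \ I))
    · intro D hD
      simp only [coe_filter, mem_powerset, Set.mem_ofPred_eq] at hD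
      simp only [coe_product, Set.mem_prod, mem_coe, mem_univ, mem_powerset, true_and]
      exact sdiff_subset_sdiff hD.1 (Subset.refl _)
    · intro D hD D' hD' h
      simp only [coe_filter, mem_powerset, Set.mem_ofPred_eq] at hD hD'
      simp only [Prod.mk.injEq] at h
      obtain ⟨h2, h3⟩ := h
      have h4 : ∀ i, (a i ∈ D ↔ a i ∈ D') ∧ (b i ∈ D ↔ b i ∈ D') := by
        intro i
        have h5 := congrFun h2 i
        have h6 := hD.2 i
        have h7 := hD'.2 i
        by_cases c1 : a i ∈ D <;> by_cases c2 : b i ∈ D <;> by_cases c3 : a i ∈ D' <;>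
          by_cases c4 : b i ∈ D' <;> simp_all
      ext x
      by_cases hx : x ∈ I
      · rw [hI, mem_union, mem_image, mem_image] at hx
        rcases hx with ⟨i, -, rfl⟩ | ⟨i, -, rfl⟩
        · exact (h4 i).1
        · exact (h4 i).2
      · have h5 : x ∈ D \ I ↔ x ∈ D' \ I := by rw [h3]
        simpa [hx] using h5
  refine h1.trans (le_of_eq ?_)
  rw [card_product, card_powerset, card_sdiff_of_subset hIR, hIc]
  simp

section C4

variable {V : Type} [Fintype V] [DecidableEq V]

private theorem no_both {P : SO V} {Q : Finset V} (hQ : P.anti Q) {W : Finset V}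
    (hW : W = upS P Q ∨ W = dnS P Q) {a b : V} (ha : a ∈ W) (hb : b ∈ W) (hab : P.lt a b)
    {q : V} (hq : q ∈ Q) : ¬ (P.adj q a ∧ P.adj q b) := by
  rintro ⟨h1, h2⟩
  rcases hW with rfl | rfl
  · rw [mem_upS] at ha hb
    obtain ⟨qa, hqa, ha⟩ := ha
    obtain ⟨qb, hqb, hb⟩ := hb
    rcases h1 with h1 | h1
    · rcases h2 with h2 | h2
      · exact h2.2 a h1.1 hab
      · exact hQ qb hqb q hq (P.tr _ _ _ hb.1 h2.1)
    · exact hQ qa hqa q hq (P.tr _ _ _ ha.1 h1.1)
  · rw [mem_dnS] at ha hb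
    obtain ⟨qa, hqa, ha⟩ := ha
    obtain ⟨qb, hqb, hb⟩ := hb
    rcases h2 with h2 | h2
    · exact hQ q hq qb hqb (P.tr _ _ _ h2.1 hb.1)
    · rcases h1 with h1 | h1
      · exact hQ q hq qa hqa (P.tr _ _ _ h1.1 ha.1)
      · exact h1.2 b hab h2.1

private theorem notMem_of_mem_W {P : SO V} {Q : Finset V} (hQ : P.anti Q) {W : Finset V}
    (hW : W = upS P Q ∨ W = dnS P Q) {a : V} (ha : a ∈ W) : a ∉ Q := by
  intro h
  rcases hW with rfl | rfl
  · rw [mem_upS] at ha
    obtain ⟨q, hq, h1⟩ := ha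
    exact hQ q hq a h h1.1
  · rw [mem_dnS] at ha
    obtain ⟨q, hq, h1⟩ := ha
    exact hQ a h q hq h1.1

private def MatD (Q : Finset V) (P' : SO {x // x ∉ Q}) (W : Finset V) (g : ℕ)
    (ab : (Fin g → V) × (Fin g → V)) : Prop :=
  Function.Injective ab.1 ∧ Function.Injective ab.2 ∧ (∀ i j, ab.1 i ≠ ab.2 j) ∧
    (∀ i, ab.1 i ∈ W) ∧ (∀ i, ab.2 i ∈ W) ∧
    ∀ i, ∃ (h1 : ab.1 i ∉ Q) (h2 : ab.2 i ∉ Q), P'.lt ⟨ab.1 i, h1⟩ ⟨ab.2 i, h2⟩

open Classical in
private noncomputable def F4 (Q : Finset V) (m g : ℕ) (P' : SO {x // x ∉ Q}) :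
    Finset ({x // x ∈ Q} → Finset V) :=
  (univ : Finset (Finset V × Finset V)).biUnion (fun WR =>
    if h : WR.1 ⊆ WR.2 ∧ WR.2.card ≤ m ∧ ∃ ab, MatD Q P' WR.1 g ab then
      Fintype.piFinset (fun _ => WR.2.powerset.filter
        (fun D => ∀ i, ¬ (h.2.2.choose.1 i ∈ D ∧ h.2.2.choose.2 i ∈ D)))
    else ∅)

private theorem F4_card (Q : Finset V) (m g : ℕ) (P' : SO {x // x ∉ Q}) :
    (F4 Q m g P').card ≤ 4 ^ Fintype.card V * (3 ^ g * 2 ^ (m - 2 * g)) ^ Q.card := by
  classical
  unfold F4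
  refine card_biUnion_le.trans ?_
  calc _ ≤ ∑ _WR : Finset V × Finset V, (3 ^ g * 2 ^ (m - 2 * g)) ^ Q.card := by
        apply sum_le_sum
        rintro ⟨W, R⟩ -
        split_ifs with h
        · have hs := h.2.2.choose_spec
          rw [Fintype.card_piFinset, prod_const]
          have h1 : (univ : Finset {x // x ∈ Q}).card = Q.card := by simp
          rw [h1]
          apply Nat.pow_le_pow_left
          have h2 := card_avoid_pairs R g h.2.2.choose.1 h.2.2.choose.2 hs.1 hs.2.1 hs.2.2.1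
            (fun i => h.1 (hs.2.2.2.1 i)) (fun i => h.1 (hs.2.2.2.2.1 i))
          refine le_trans (le_of_eq ?_) (h2.trans ?_)
          · congr
          · exact Nat.mul_le_mul_left _ (Nat.pow_le_pow_right (by norm_num)
              (Nat.sub_le_sub_right h.2.1 _))
        · simp
    _ = 4 ^ Fintype.card V * (3 ^ g * 2 ^ (m - 2 * g)) ^ Q.card := by
        rw [sum_const, card_univ, Fintype.card_prod, Fintype.card_finset, smul_eq_mul,
          ← mul_pow]
        norm_num

private theorem cnt_E4_Q (K m g : ℕ) (Q : Finset V) (hK : Q.card = K) :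
    cnt (fun P : SO V => P.anti Q ∧ (nbS P Q).card ≤ m ∧
      (Mat P (upS P Q) g ∨ Mat P (dnS P Q) g)) ≤
      3 ^ K * (2 * (4 ^ Fintype.card V * (3 ^ g * 2 ^ (m - 2 * g)) ^ K)) *
        pn (Fintype.card V - K) := by
  classical
  subst hK
  refine rec_count Q (fun _ _ => False) (F4 Q m g) _ ?_ _ ?_ ?_
  · intro P'
    refine (F4_card Q m g P').trans ?_
    exact Nat.le_mul_of_pos_left _ (by norm_num)
  · rintro P ⟨h1, -, -⟩ s hs s' hs'
    have := h1 s hs s' hs'
    simp [this]
  · rintro P ⟨hQ, hm, hMat⟩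
    have h3 : ∀ s : {x // x ∈ Q}, nb P s \ Q = nb P s := by
      intro s
      rw [sdiff_eq_left, Finset.disjoint_left]
      intro y hy hyQ
      rw [mem_nb] at hy
      exact hQ.not_adj s.2 hyQ hy
    have h4 : ∃ W : Finset V, (W = upS P Q ∨ W = dnS P Q) ∧ Mat P W g := by
      rcases hMat with h | h
      · exact ⟨_, Or.inl rfl, h⟩
      · exact ⟨_, Or.inr rfl, h⟩
    obtain ⟨W, hW, a, b, ha, hb, hab, haW, hbW, hlt⟩ := h4
    have hWR : W ⊆ nbS P Q := by
      rw [nbS_eq]
      rcases hW with rfl | rfl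
      · exact subset_union_right
      · exact subset_union_left
    have hex : W ⊆ nbS P Q ∧ (nbS P Q).card ≤ m ∧ ∃ ab, MatD Q (P.del Q) W g ab :=
      ⟨hWR, hm, ⟨(a, b), ha, hb, hab, haW, hbW, fun i =>
        ⟨notMem_of_mem_W hQ hW (haW i), notMem_of_mem_W hQ hW (hbW i), hlt i⟩⟩⟩
    unfold F4
    rw [mem_biUnion]
    refine ⟨(W, nbS P Q), mem_univ _, ?_⟩
    dsimp only
    rw [dif_pos hex, Fintype.mem_piFinset]
    intro s
    rw [h3 s, mem_filter, mem_powerset]
    have hs := hex.2.2.choose_spec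
    constructor
    · intro y hy
      rw [mem_nb] at hy
      rw [mem_nbS]
      exact ⟨s, s.2, hy⟩
    · intro i hi
      obtain ⟨_, _, h5⟩ := hs.2.2.2.2.2 i
      have h6 : P.lt (hex.2.2.choose.1 i) (hex.2.2.choose.2 i) := h5
      refine no_both hQ hW (hs.2.2.2.1 i) (hs.2.2.2.2.1 i) h6 s.2 ?_
      rw [mem_nb, mem_nb] at hi
      exact hi

end C4

theorem cnt_E4_le {V : Type} [Fintype V] [DecidableEq V] (K m g : ℕ) :
    cnt (E4 (V := V) K m g) ≤ Fintype.card V ^ K *
      (3 ^ K * (2 * (4 ^ Fintype.card V * (3 ^ g * 2 ^ (m - 2 * g)) ^ K)) *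
        pn (Fintype.card V - K)) := by
  classical
  have h1 := cnt_exists_mem_le ((univ : Finset (Finset V)).filter (fun Q => Q.card = K))
    (fun Q (P : SO V) => P.anti Q ∧ (nbS P Q).card ≤ m ∧
      (Mat P (upS P Q) g ∨ Mat P (dnS P Q) g)) _
    (fun Q hQ => cnt_E4_Q K m g Q (by simpa using hQ))
  refine (le_trans (cnt_mono ?_) h1).trans (Nat.mul_le_mul_right _ ?_)
  · rintro P ⟨Q, hK, hQ, hm, hMat⟩
    exact ⟨Q, by simpa using hK, hQ, hm, hMat⟩
  · convert card_eq_pow V K

end Pool.KR87
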