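import Pool.Agent.KR87.Rec
import Pool.Agent.KR87.Comb

set_option autoImplicit false
set_option linter.unusedSectionVars false

/-!
# KR87/C5: absolute count of the orders with four layers, the outer ones large

An order is determined by its set of cover pairs (`SO.ext_cov`).  Choose `f` (`5 ^ n` ways), the
irregular cover pairs (`BS (n * n) u` ways) and the regular ones: a subset of a set with
`l₀ l₁ + l₁ l₂ + l₂ l₃ ≤ m * m - b * b` elements (`(l₀ + l₂)(l₁ + l₃) ≤ m * m`, `l₀ l₃ ≥ b * b`).
-/

namespace Pool.KR87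

open Finset

section

variable {V : Type} [Fintype V] [DecidableEq V]

open Classical in
/-- the regular pairs of a layer function -/
private noncomputable def regAll (f : V → Fin 5) : Finset (V × V) :=
  univ.filter (fun xy => reg5 (f xy.1) (f xy.2))

open Classical in
/-- the regular cover pairs -/
private noncomputable def regCov (P : SO V) (f : V → Fin 5) : Finset (V × V) :=
  univ.filter (fun xy => P.cov xy.1 xy.2 ∧ reg5 (f xy.1) (f xy.2))

private theorem regAll_card_le (f : V → Fin 5) :
    (regAll f).card ≤ lsz f 0 * lsz f 1 + lsz f 1 * lsz f 2 + lsz f 2 * lsz f 3 := by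
  classical
  have hsub : regAll f ⊆
      ((univ.filter (fun v => f v = 0)) ×ˢ (univ.filter (fun v => f v = 1)) ∪
        (univ.filter (fun v => f v = 1)) ×ˢ (univ.filter (fun v => f v = 2))) ∪
        (univ.filter (fun v => f v = 2)) ×ˢ (univ.filter (fun v => f v = 3)) := by
    intro xy hxy
    simp only [regAll, mem_filter, mem_univ, true_and] at hxy
    simp only [mem_union, mem_product, mem_filter, mem_univ, true_and]
    unfold reg5 at hxy
    tauto
  calc (regAll f).card ≤ _ := card_le_card hsub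
    _ ≤ _ := card_union_le _ _
    _ ≤ _ := Nat.add_le_add_right (card_union_le _ _) _
    _ = lsz f 0 * lsz f 1 + lsz f 1 * lsz f 2 + lsz f 2 * lsz f 3 := by
        simp only [card_product, lsz]

private theorem cnt_zero_of {p : SO V → Prop} (h : ∀ P, ¬ p P) : cnt p = 0 := by
  classical
  unfold cnt
  refine Finset.card_eq_zero.2 (Finset.eq_empty_of_forall_notMem ?_)
  intro P hP
  exact h P (Finset.mem_filter.1 hP).2

private theorem cnt_fix_le (f : V → Fin 5) (m b u : ℕ) :
    cnt (fun P : SO V => b ≤ lsz f 0 ∧ b ≤ lsz f 3 ∧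
      lsz f 0 + lsz f 2 ≤ m ∧ lsz f 1 + lsz f 3 ≤ m ∧ (irrPairs P f).card ≤ u) ≤
      2 ^ (m * m - b * b) * BS (Fintype.card V * Fintype.card V) u := by
  classical
  by_cases hs : b ≤ lsz f 0 ∧ b ≤ lsz f 3 ∧ lsz f 0 + lsz f 2 ≤ m ∧ lsz f 1 + lsz f 3 ≤ m
  · obtain ⟨hb0, hb3, h02, h13⟩ := hs
    have hR : (regAll f).card ≤ m * m - b * b := by
      have h1 := regAll_card_le f
      have h2 : (lsz f 0 + lsz f 2) * (lsz f 1 + lsz f 3) ≤ m * m := Nat.mul_le_mul h02 h13
      have h3 : b * b ≤ lsz f 0 * lsz f 3 := Nat.mul_le_mul hb0 hb3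
      have h4 : (lsz f 0 + lsz f 2) * (lsz f 1 + lsz f 3) =
          (lsz f 0 * lsz f 1 + lsz f 1 * lsz f 2 + lsz f 2 * lsz f 3) + lsz f 0 * lsz f 3 := by
        ring
      omega
    have hcard := cnt_le_of_injOn
      (fun P : SO V => b ≤ lsz f 0 ∧ b ≤ lsz f 3 ∧
        lsz f 0 + lsz f 2 ≤ m ∧ lsz f 1 + lsz f 3 ≤ m ∧ (irrPairs P f).card ≤ u)
      (fun P => (regCov P f, irrPairs P f))
      ((regAll f).powerset ×ˢ ((univ : Finset (Finset (V × V))).filter (fun A => A.card ≤ u)))
      (by
        intro P hP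
        simp only [mem_product, mem_powerset, mem_filter, mem_univ, true_and]
        refine ⟨?_, hP.2.2.2.2⟩
        intro xy hxy
        simp only [regCov, regAll, mem_filter, mem_univ, true_and] at hxy ⊢
        exact hxy.2)
      (by
        intro P P' _ _ h
        simp only [Prod.mk.injEq] at h
        apply SO.ext_cov
        have key : ∀ (Q : SO V) (x y : V), Q.cov x y ↔
            ((x, y) ∈ regCov Q f ∨ (x, y) ∈ irrPairs Q f) := by
          intro Q x y
          simp only [regCov, irrPairs, mem_filter, mem_univ, true_and]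
          tauto
        intro x y
        rw [key P, key P', h.1, h.2])
    refine hcard.trans ?_
    rw [card_product, card_powerset, card_small, Fintype.card_prod]
    exact Nat.mul_le_mul_right _ (Nat.pow_le_pow_right (by norm_num) hR)
  · have h0 : cnt (fun P : SO V => b ≤ lsz f 0 ∧ b ≤ lsz f 3 ∧
        lsz f 0 + lsz f 2 ≤ m ∧ lsz f 1 + lsz f 3 ≤ m ∧ (irrPairs P f).card ≤ u) = 0 := by
      apply cnt_zero_of
      rintro P ⟨h1, h2, h3, h4, _⟩
      exact hs ⟨h1, h2, h3, h4⟩
    rw [h0]
    exact Nat.zero_le _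

end

theorem cnt_E5_le {V : Type} [Fintype V] [DecidableEq V] (m b u : ℕ) :
    cnt (E5 (V := V) m b u) ≤ 5 ^ Fintype.card V *
      (2 ^ (m * m - b * b) * BS (Fintype.card V * Fintype.card V) u) := by
  classical
  have h := cnt_exists_le (V := V) (ι := V → Fin 5)
    (fun f P => b ≤ lsz f 0 ∧ b ≤ lsz f 3 ∧
      lsz f 0 + lsz f 2 ≤ m ∧ lsz f 1 + lsz f 3 ≤ m ∧ (irrPairs P f).card ≤ u)
    (2 ^ (m * m - b * b) * BS (Fintype.card V * Fintype.card V) u)
    (fun f => cnt_fix_le f m b u)
  rw [Fintype.card_fun, Fintype.card_fin] at h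
  exact h

end Pool.KR87
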