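import Pool.Agent.KR87.Rec
import Pool.Agent.KR87.Comb

set_option autoImplicit false
set_option linter.unusedSectionVars false

/-!
# KR87/C6: the one-vertex event

For fixed `v`, `Q` (`card_le_pow`) and sign, apply `rec_count` with `S = {v}`.  The set
`U = upD P {v} Q` (or `dnD P {v} Q`) depends on `P - v` only; `N(v) ∩ U ⊆ U`, and `N(v) \ U` has at
most `e` elements.
-/

namespace Pool.KR87

open Finset

section

variable {V : Type} [Fintype V] [DecidableEq V]

/-- The one-vertex count for a set `U` that depends on the deletion only. -/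
private theorem c6_aux (v : V) (U : SO {x // x ∉ ({v} : Finset V)} → Finset V) (m e : ℕ) :
    cnt (fun P : SO V => (U (P.del {v})).card ≤ m ∧ (nb P v \ U (P.del {v})).card ≤ e) ≤
      3 * (2 ^ m * BS (Fintype.card V) e) * pn (Fintype.card V - 1) := by
  classical
  have hv : v ∈ ({v} : Finset V) := mem_singleton_self v
  let F : SO {x // x ∉ ({v} : Finset V)} → Finset ({x // x ∈ ({v} : Finset V)} → Finset V) :=
    fun P' => if (U P').card ≤ m then
      univ.filter (fun g => (g ⟨v, hv⟩ \ U P').card ≤ e) else ∅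
  have hF : ∀ P', (F P').card ≤ 2 ^ m * BS (Fintype.card V) e := by
    intro P'
    by_cases hU : (U P').card ≤ m
    · have h1 : F P' = univ.filter (fun g => (g ⟨v, hv⟩ \ U P').card ≤ e) := by
        simp only [F, if_pos hU]
      rw [h1]
      have h2 : (univ.filter (fun g : {x // x ∈ ({v} : Finset V)} → Finset V =>
          (g ⟨v, hv⟩ \ U P').card ≤ e)).card ≤ ((U P').powerset ×ˢ
          ((univ : Finset (Finset V)).filter (fun A => A.card ≤ e))).card := by
        apply card_le_card_of_injOn (fun g => (g ⟨v, hv⟩ ∩ U P', g ⟨v, hv⟩ \ U P'))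
        · intro g hg
          simp only [coe_filter, mem_univ, true_and, Set.mem_ofPred_eq] at hg
          simp only [coe_product, Set.mem_prod, mem_coe, mem_powerset, mem_filter, mem_univ,
            true_and]
          exact ⟨inter_subset_right, hg⟩
        · intro g _ g' _ h
          simp only [Prod.mk.injEq] at h
          have h3 : g ⟨v, hv⟩ = g' ⟨v, hv⟩ := by
            rw [← sdiff_union_inter (g ⟨v, hv⟩) (U P'), h.1, h.2, sdiff_union_inter]
          funext x
          obtain ⟨x, hx⟩ := x
          have hxv : x = v := mem_singleton.1 hx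
          subst hxv
          exact h3
      refine h2.trans ?_
      rw [card_product, card_powerset, card_small]
      exact Nat.mul_le_mul_right _ (Nat.pow_le_pow_right (by norm_num) hU)
    · have h1 : F P' = ∅ := by
        simp only [F, if_neg hU]
      rw [h1]
      simp
  have h := rec_count ({v} : Finset V) (fun _ _ => False) F (2 ^ m * BS (Fintype.card V) e) hF
    (fun P : SO V => (U (P.del {v})).card ≤ m ∧ (nb P v \ U (P.del {v})).card ≤ e)
    (by
      intro P _ s hs s' hs'
      have h1 : s = v := mem_singleton.1 hs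
      have h2 : s' = v := mem_singleton.1 hs'
      subst h1
      subst h2
      exact ⟨⟨fun h => P.irr _ h, fun h => h.elim⟩, fun h => (P.irr _ h).elim⟩)
    (by
      intro P hP
      have h1 : F (P.del {v}) = univ.filter (fun g => (g ⟨v, hv⟩ \ U (P.del {v})).card ≤ e) := by
        simp only [F, if_pos hP.1]
      rw [h1, mem_filter]
      refine ⟨mem_univ _, le_trans (card_le_card ?_) hP.2⟩
      exact sdiff_subset_sdiff sdiff_subset (Subset.refl _))
  rw [card_singleton, pow_one] at h
  exact h

open Classical in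
/-- upper covers of `Q` in the deletion, as a set of vertices -/
private noncomputable def upU (v : V) (Q : Finset V) (P' : SO {x // x ∉ ({v} : Finset V)}) :
    Finset V :=
  univ.filter (fun y => ∃ (hy : y ∉ ({v} : Finset V)) (q : {x // x ∉ ({v} : Finset V)}),
    (q : V) ∈ Q ∧ P'.cov q ⟨y, hy⟩)

open Classical in
/-- lower covers of `Q` in the deletion, as a set of vertices -/
private noncomputable def dnU (v : V) (Q : Finset V) (P' : SO {x // x ∉ ({v} : Finset V)}) :
    Finset V :=
  univ.filter (fun y => ∃ (hy : y ∉ ({v} : Finset V)) (q : {x // x ∉ ({v} : Finset V)}),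
    (q : V) ∈ Q ∧ P'.cov ⟨y, hy⟩ q)

private theorem upU_eq (v : V) (Q : Finset V) (P : SO V) : upU v Q (P.del {v}) = upD P {v} Q := by
  classical
  ext y
  simp only [upU, mem_filter, mem_univ, true_and, mem_upD]
  constructor
  · rintro ⟨hy, q, hq, h⟩
    exact ⟨q, hq, SO.cov_del.1 h⟩
  · rintro ⟨q, hq, h⟩
    exact ⟨h.2.1, ⟨q, h.1⟩, hq, SO.cov_del.2 h⟩

private theorem dnU_eq (v : V) (Q : Finset V) (P : SO V) : dnU v Q (P.del {v}) = dnD P {v} Q := by
  classical
  ext y
  simp only [dnU, mem_filter, mem_univ, true_and, mem_dnD]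
  constructor
  · rintro ⟨hy, q, hq, h⟩
    exact ⟨q, hq, SO.cov_del.1 h⟩
  · rintro ⟨q, hq, h⟩
    exact ⟨h.1, ⟨q, h.2.1⟩, hq, SO.cov_del.2 h⟩

end

theorem cnt_E6_le {V : Type} [Fintype V] [DecidableEq V] (K m e : ℕ) :
    cnt (E6 (V := V) K m e) ≤ Fintype.card V * ((Fintype.card V + 1) ^ K *
      (2 * (3 * (2 ^ m * BS (Fintype.card V) e) * pn (Fintype.card V - 1)))) := by
  classical
  unfold E6
  apply cnt_exists_le
  intro v
  have h1 : cnt (fun P : SO V => ∃ Q : Finset V, Q.card ≤ K ∧
      (((upD P {v} Q).card ≤ m ∧ (nb P v \ upD P {v} Q).card ≤ e) ∨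
        ((dnD P {v} Q).card ≤ m ∧ (nb P v \ dnD P {v} Q).card ≤ e))) ≤
      cnt (fun P : SO V => ∃ Q ∈ (univ : Finset (Finset V)).filter (fun A => A.card ≤ K),
      (((upD P {v} Q).card ≤ m ∧ (nb P v \ upD P {v} Q).card ≤ e) ∨
        ((dnD P {v} Q).card ≤ m ∧ (nb P v \ dnD P {v} Q).card ≤ e))) := by
    apply cnt_mono
    rintro P ⟨Q, hQ, h⟩
    exact ⟨Q, by simpa using hQ, h⟩
  refine h1.trans ?_
  refine (cnt_exists_mem_le _ _ (2 * (3 * (2 ^ m * BS (Fintype.card V) e) *
    pn (Fintype.card V - 1))) ?_).trans (Nat.mul_le_mul_right _ (card_le_pow V K))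
  intro Q _
  refine (cnt_or_le _ _).trans ?_
  have h2 := c6_aux v (upU v Q) m e
  have h3 := c6_aux v (dnU v Q) m e
  simp only [upU_eq] at h2
  simp only [dnU_eq] at h3
  rw [two_mul]
  exact Nat.add_le_add h2 h3

end Pool.KR87
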