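import Pool.Agent.KR87.Rec
import Pool.Agent.KR87.Comb

set_option autoImplicit false
set_option linter.unusedSectionVars false

/-!
# KR87/C7: the two-vertex event

For fixed `v ≠ w` (with `P.cov v w`) and `Q` apply `rec_count` with `S = {v, w}`.  The set
`U = upD P {v, w} Q ∪ dnD P {v, w} Q` depends on `P - {v, w}` only.  The sets `N(v) \ {w}` and
`N(w) \ {v}` are disjoint (`SO.no_triangle`), so their traces on `U` are a pair of disjoint subsets of
`U`: at most `3 ^ |U|` possibilities.
-/

namespace Pool.KR87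

open Finset

section

variable {V : Type} [Fintype V] [DecidableEq V]

open Classical in
/-- Disjoint pairs of sets with small parts outside `U`. -/
private theorem c7_pairs (U : Finset V) (e : ℕ) :
    ((univ : Finset (Finset V × Finset V)).filter (fun X =>
      Disjoint X.1 X.2 ∧ (X.1 \ U).card ≤ e ∧ (X.2 \ U).card ≤ e)).card ≤
      3 ^ U.card * (BS (Fintype.card V) e * BS (Fintype.card V) e) := by
  classical
  have h2 : ((univ : Finset (Finset V × Finset V)).filter (fun X =>
      Disjoint X.1 X.2 ∧ (X.1 \ U).card ≤ e ∧ (X.2 \ U).card ≤ e)).card ≤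
      ((univ : Finset ({x // x ∈ U} → Fin 3)) ×ˢ
        (((univ : Finset (Finset V)).filter (fun A => A.card ≤ e)) ×ˢ
          ((univ : Finset (Finset V)).filter (fun A => A.card ≤ e)))).card := by
    apply card_le_card_of_injOn (fun X => (fun x : {x // x ∈ U} =>
      (if (x : V) ∈ X.1 then 0 else if (x : V) ∈ X.2 then 1 else 2 : Fin 3), (X.1 \ U, X.2 \ U)))
    · intro X hX
      simp only [coe_filter, mem_univ, true_and, Set.mem_ofPred_eq] at hX
      simp only [coe_product, Set.mem_prod, mem_coe, mem_filter, mem_univ, true_and]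
      exact hX.2
    · rintro ⟨A, B⟩ hX ⟨A', B'⟩ hX' h
      simp only [coe_filter, mem_univ, true_and, Set.mem_ofPred_eq] at hX hX'
      simp only [Prod.mk.injEq] at h
      obtain ⟨hf, hA, hB⟩ := h
      have hU : ∀ x ∈ U, (x ∈ A ↔ x ∈ A') ∧ (x ∈ B ↔ x ∈ B') := by
        intro x hx
        have h3 := congrFun hf ⟨x, hx⟩
        simp only at h3
        have d1 : x ∈ A → x ∉ B := fun h1 h2 => (Finset.disjoint_left.1 hX.1) h1 h2
        have d2 : x ∈ A' → x ∉ B' := fun h1 h2 => (Finset.disjoint_left.1 hX'.1) h1 h2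
        by_cases a : x ∈ A <;> by_cases a' : x ∈ A' <;> by_cases b : x ∈ B <;>
          by_cases b' : x ∈ B' <;> simp_all
      have hout : ∀ {C C' : Finset V}, C \ U = C' \ U → ∀ x, x ∉ U → (x ∈ C ↔ x ∈ C') := by
        intro C C' hC x hx
        have h4 := Finset.ext_iff.1 hC x
        simpa [hx] using h4
      have eA : A = A' := by
        ext x
        by_cases hx : x ∈ U
        · exact (hU x hx).1
        · exact hout hA x hx
      have eB : B = B' := by
        ext x
        by_cases hx : x ∈ U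
        · exact (hU x hx).2
        · exact hout hB x hx
      rw [eA, eB]
  refine h2.trans (le_of_eq ?_)
  rw [card_product, card_product, card_small, card_univ, Fintype.card_fun, Fintype.card_fin,
    Fintype.card_coe]

/-- The two-vertex count for a set `U` that depends on the deletion only. -/
private theorem c7_aux (v w : V) (U : SO {x // x ∉ ({v, w} : Finset V)} → Finset V) (m e : ℕ) :
    cnt (fun P : SO V => P.cov v w ∧ (U (P.del {v, w})).card ≤ m ∧
      ((nb P v \ {w}) \ U (P.del {v, w})).card ≤ e ∧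
      ((nb P w \ {v}) \ U (P.del {v, w})).card ≤ e) ≤
      9 * (3 ^ m * (BS (Fintype.card V) e * BS (Fintype.card V) e)) *
        pn (Fintype.card V - 2) := by
  classical
  by_cases hvw : v = w
  · subst hvw
    have h0 : cnt (fun P : SO V => P.cov v v ∧ (U (P.del {v, v})).card ≤ m ∧
      ((nb P v \ {v}) \ U (P.del {v, v})).card ≤ e ∧
      ((nb P v \ {v}) \ U (P.del {v, v})).card ≤ e) = 0 := by
      unfold cnt
      rw [card_eq_zero]
      ext P
      simp only [mem_filter, mem_univ, true_and, notMem_empty, iff_false]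
      intro h
      exact P.irr v h.1.1
    rw [h0]
    exact Nat.zero_le _
  have hv : v ∈ ({v, w} : Finset V) := by simp
  have hw : w ∈ ({v, w} : Finset V) := by simp
  have hcard : ({v, w} : Finset V).card = 2 := card_pair hvw
  let F : SO {x // x ∉ ({v, w} : Finset V)} →
      Finset ({x // x ∈ ({v, w} : Finset V)} → Finset V) :=
    fun P' => if (U P').card ≤ m then
      univ.filter (fun g => Disjoint (g ⟨v, hv⟩) (g ⟨w, hw⟩) ∧
        (g ⟨v, hv⟩ \ U P').card ≤ e ∧ (g ⟨w, hw⟩ \ U P').card ≤ e) else ∅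
  have hF : ∀ P', (F P').card ≤ 3 ^ m * (BS (Fintype.card V) e * BS (Fintype.card V) e) := by
    intro P'
    by_cases hU : (U P').card ≤ m
    · have h1 : F P' = univ.filter (fun g => Disjoint (g ⟨v, hv⟩) (g ⟨w, hw⟩) ∧
        (g ⟨v, hv⟩ \ U P').card ≤ e ∧ (g ⟨w, hw⟩ \ U P').card ≤ e) := by
        simp only [F, if_pos hU]
      rw [h1]
      have h2 : (univ.filter (fun g : {x // x ∈ ({v, w} : Finset V)} → Finset V =>
          Disjoint (g ⟨v, hv⟩) (g ⟨w, hw⟩) ∧
          (g ⟨v, hv⟩ \ U P').card ≤ e ∧ (g ⟨w, hw⟩ \ U P').card ≤ e)).card ≤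
          ((univ : Finset (Finset V × Finset V)).filter (fun X =>
            Disjoint X.1 X.2 ∧ (X.1 \ U P').card ≤ e ∧ (X.2 \ U P').card ≤ e)).card := by
        apply card_le_card_of_injOn (fun g => (g ⟨v, hv⟩, g ⟨w, hw⟩))
        · intro g hg
          simp only [coe_filter, mem_univ, true_and, Set.mem_ofPred_eq] at hg ⊢
          exact hg
        · intro g _ g' _ h
          simp only [Prod.mk.injEq] at h
          funext x
          obtain ⟨x, hx⟩ := x
          have hx' : x = v ∨ x = w := by simpa using hx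
          rcases hx' with hx' | hx'
          · subst hx'
            exact h.1
          · subst hx'
            exact h.2
      refine h2.trans ((c7_pairs (U P') e).trans ?_)
      exact Nat.mul_le_mul_right _ (Nat.pow_le_pow_right (by norm_num) hU)
    · have h1 : F P' = ∅ := by
        simp only [F, if_neg hU]
      rw [h1]
      simp
  have h := rec_count ({v, w} : Finset V) (fun x y => x = v ∧ y = w) F
    (3 ^ m * (BS (Fintype.card V) e * BS (Fintype.card V) e)) hF
    (fun P : SO V => P.cov v w ∧ (U (P.del {v, w})).card ≤ m ∧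
      ((nb P v \ {w}) \ U (P.del {v, w})).card ≤ e ∧
      ((nb P w \ {v}) \ U (P.del {v, w})).card ≤ e)
    (by
      rintro P ⟨hc, _⟩ s hs s' hs'
      have h1 : s = v ∨ s = w := by simpa using hs
      have h2 : s' = v ∨ s' = w := by simpa using hs'
      rcases h1 with h1 | h1 <;> rcases h2 with h2 | h2 <;> rw [h1, h2]
      · exact ⟨⟨fun h => absurd h (P.irr _), fun h => absurd h.2 hvw⟩,
          fun h => absurd h (P.irr _)⟩
      · exact ⟨⟨fun _ => ⟨rfl, rfl⟩, fun _ => hc.1⟩, fun _ => hc⟩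
      · exact ⟨⟨fun h => absurd h (P.asymm hc.1), fun h => absurd h.2 hvw⟩,
          fun h => absurd h (P.asymm hc.1)⟩
      · exact ⟨⟨fun h => absurd h (P.irr _), fun h => absurd h.1 (Ne.symm hvw)⟩,
          fun h => absurd h (P.irr _)⟩)
    (by
      rintro P ⟨hc, hU, hv1, hw1⟩
      have h1 : F (P.del {v, w}) = univ.filter (fun g => Disjoint (g ⟨v, hv⟩) (g ⟨w, hw⟩) ∧
        (g ⟨v, hv⟩ \ U (P.del {v, w})).card ≤ e ∧
        (g ⟨w, hw⟩ \ U (P.del {v, w})).card ≤ e) := by
        simp only [F, if_pos hU]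
      rw [h1, mem_filter]
      refine ⟨mem_univ _, ?_, le_trans (card_le_card ?_) hv1, le_trans (card_le_card ?_) hw1⟩
      · rw [Finset.disjoint_left]
        intro x hx hx'
        have a1 : P.adj v x := mem_nb.1 (mem_sdiff.1 hx).1
        have a2 : P.adj w x := mem_nb.1 (mem_sdiff.1 hx').1
        exact P.no_triangle (Or.inl hc) a2 a1
      · apply sdiff_subset_sdiff _ (Subset.refl _)
        exact sdiff_subset_sdiff (Subset.refl _) (by simp)
      · apply sdiff_subset_sdiff _ (Subset.refl _)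
        exact sdiff_subset_sdiff (Subset.refl _) (by simp))
  rw [hcard] at h
  exact h

open Classical in
/-- neighbours of `Q` in the deletion, as a set of vertices -/
private noncomputable def nbU (v w : V) (Q : Finset V)
    (P' : SO {x // x ∉ ({v, w} : Finset V)}) : Finset V :=
  univ.filter (fun y => ∃ (hy : y ∉ ({v, w} : Finset V)) (q : {x // x ∉ ({v, w} : Finset V)}),
    (q : V) ∈ Q ∧ (P'.cov q ⟨y, hy⟩ ∨ P'.cov ⟨y, hy⟩ q))

private theorem nbU_eq (v w : V) (Q : Finset V) (P : SO V) :
    nbU v w Q (P.del {v, w}) = upD P {v, w} Q ∪ dnD P {v, w} Q := by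
  classical
  ext y
  simp only [nbU, mem_filter, mem_univ, true_and, mem_union, mem_upD, mem_dnD]
  constructor
  · rintro ⟨hy, q, hq, h | h⟩
    · exact Or.inl ⟨q, hq, SO.cov_del.1 h⟩
    · exact Or.inr ⟨q, hq, SO.cov_del.1 h⟩
  · rintro (⟨q, hq, h⟩ | ⟨q, hq, h⟩)
    · exact ⟨h.2.1, ⟨q, h.1⟩, hq, Or.inl (SO.cov_del.2 h)⟩
    · exact ⟨h.1, ⟨q, h.2.1⟩, hq, Or.inr (SO.cov_del.2 h)⟩

end

theorem cnt_E7_le {V : Type} [Fintype V] [DecidableEq V] (K m e : ℕ) :
    cnt (E7 (V := V) K m e) ≤ Fintype.card V * Fintype.card V * ((Fintype.card V + 1) ^ K *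
      (9 * (3 ^ m * (BS (Fintype.card V) e * BS (Fintype.card V) e)) *
        pn (Fintype.card V - 2))) := by
  classical
  unfold E7
  rw [mul_assoc]
  apply cnt_exists_le
  intro v
  apply cnt_exists_le
  intro w
  have h1 : cnt (fun P : SO V => P.cov v w ∧ ∃ Q : Finset V, Q.card ≤ K ∧
      (upD P {v, w} Q ∪ dnD P {v, w} Q).card ≤ m ∧
      ((nb P v \ {w}) \ (upD P {v, w} Q ∪ dnD P {v, w} Q)).card ≤ e ∧
      ((nb P w \ {v}) \ (upD P {v, w} Q ∪ dnD P {v, w} Q)).card ≤ e) ≤
      cnt (fun P : SO V => ∃ Q ∈ (univ : Finset (Finset V)).filter (fun A => A.card ≤ K),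
      (P.cov v w ∧ (upD P {v, w} Q ∪ dnD P {v, w} Q).card ≤ m ∧
      ((nb P v \ {w}) \ (upD P {v, w} Q ∪ dnD P {v, w} Q)).card ≤ e ∧
      ((nb P w \ {v}) \ (upD P {v, w} Q ∪ dnD P {v, w} Q)).card ≤ e)) := by
    apply cnt_mono
    rintro P ⟨hc, Q, hQ, h⟩
    exact ⟨Q, by simpa using hQ, hc, h⟩
  refine h1.trans ?_
  refine (cnt_exists_mem_le _ _ (9 * (3 ^ m * (BS (Fintype.card V) e * BS (Fintype.card V) e)) *
    pn (Fintype.card V - 2)) ?_).trans (Nat.mul_le_mul_right _ (card_le_pow V K))
  intro Q _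
  have h2 := c7_aux v w (nbU v w Q) m e
  simp only [nbU_eq] at h2
  exact h2

end Pool.KR87
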