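import Pool.Agent.KR87.Base

set_option autoImplicit false
set_option linter.unusedSectionVars false

/-!
# KR87/CB: the count of the orders with four layers, the outer ones not empty

An order is determined by its cover pairs.  With `X` the union of layers `0`, `2` and `Y` the union of
layers `1`, `3`, `i`, `j` the sizes of layers `0`, `3`, the pairs of points in consecutive layers
number `|X| |Y| - i j`.  So the count is at most
`∑ x, C(n, x) 2 ^ (x y) ∑_{i, j ≥ 1} C(x, i) C(y, j) 2 ^ (- i j)`, `y = n - x`.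
The terms with `i = 1` give at most `x (3/2) ^ y`, those with `j = 1` at most `y (3/2) ^ x`, and for
`i, j ≥ 2` one has `i j ≥ 2 (i + j) - 4`, so they give at most `16 (5/4) ^ (x + y)`.
Finally `(3/2) ≤ 2 ^ (3/5)`, `5/4 ≤ 2 ^ (1/3)`, `x (n - x) + (3/5) x ≤ (n + 3/5) ^ 2 / 4`.
-/

namespace Pool.KR87

open Finset

namespace CB

/-- union bound with a sum -/
theorem cnt_exists_mem_sum {V : Type} [Finite V] {ι : Type} (s : Finset ι)
    (p : ι → SO V → Prop) : cnt (fun P => ∃ i ∈ s, p i P) ≤ ∑ i ∈ s, cnt (p i) := by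
  classical
  have h1 : cnt (fun P => ∃ i ∈ s, p i P) ≤ (s.biUnion (fun i => univ.filter (p i))).card := by
    unfold cnt
    apply card_le_card
    intro P hP
    simpa using hP
  refine h1.trans (card_biUnion_le.trans (le_of_eq ?_))
  apply sum_congr rfl
  intro i _
  unfold cnt
  congr

variable {V : Type} [Fintype V] [DecidableEq V]

/-- pairs of points in consecutive layers -/
def allow (X I J : Finset V) : Finset (V × V) :=
  (I ×ˢ (Xᶜ \ J)) ∪ ((Xᶜ \ J) ×ˢ (X \ I)) ∪ ((X \ I) ×ˢ J)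

theorem card_allow {X I J : Finset V} (hI : I ⊆ X) (hJ : J ⊆ Xᶜ) :
    (allow X I J).card + I.card * J.card ≤ X.card * (Xᶜ).card := by
  have h1 : (allow X I J).card ≤ I.card * (Xᶜ \ J).card + (Xᶜ \ J).card * (X \ I).card +
      (X \ I).card * J.card := by
    unfold allow
    refine (card_union_le _ _).trans ?_
    rw [card_product (X \ I) J]
    refine Nat.add_le_add_right ((card_union_le _ _).trans ?_) _
    rw [card_product, card_product]
  have h2 : (X \ I).card + I.card = X.card := card_sdiff_add_card_eq_card hI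
  have h3 : (Xᶜ \ J).card + J.card = (Xᶜ).card := card_sdiff_add_card_eq_card hJ
  rw [← h2, ← h3]
  nlinarith

open Classical in
/-- orders whose covers are allowed -/
theorem cnt_allow_le (W : Finset (V × V)) :
    cnt (fun P : SO V => ∀ x y, P.cov x y → (x, y) ∈ W) ≤ 2 ^ W.card := by
  rw [← card_powerset]
  apply cnt_le_of_injOn _ (fun P : SO V => (univ : Finset (V × V)).filter (fun xy => P.cov xy.1 xy.2))
  · intro P hP
    rw [mem_powerset]
    rintro ⟨x, y⟩ hxy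
    simp only [mem_filter, mem_univ, true_and] at hxy
    exact hP x y hxy
  · intro P P' _ _ h
    apply SO.ext_cov
    intro x y
    have h1 := Finset.ext_iff.mp h (x, y)
    simpa using h1

/-- the weight of a pair of outer layers -/
noncomputable def g (I J : Finset V) : ℝ :=
  (if I.card = 1 then (1 / 2 : ℝ) ^ J.card else 0) +
    (if J.card = 1 then (1 / 2 : ℝ) ^ I.card else 0) +
    16 * ((1 / 4 : ℝ) ^ I.card * (1 / 4 : ℝ) ^ J.card)

theorem g_nonneg (I J : Finset V) : 0 ≤ g I J := by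
  unfold g
  have h1 : (0 : ℝ) ≤ (if I.card = 1 then (1 / 2 : ℝ) ^ J.card else 0) := by
    split_ifs <;> positivity
  have h2 : (0 : ℝ) ≤ (if J.card = 1 then (1 / 2 : ℝ) ^ I.card else 0) := by
    split_ifs <;> positivity
  positivity

theorem half_le_g {I J : Finset V} (hI : 1 ≤ I.card) (hJ : 1 ≤ J.card) :
    (1 / 2 : ℝ) ^ (I.card * J.card) ≤ g I J := by
  unfold g
  generalize I.card = i at hI ⊢
  generalize J.card = j at hJ ⊢
  have h16 : (0 : ℝ) ≤ 16 * ((1 / 4 : ℝ) ^ i * (1 / 4 : ℝ) ^ j) := by positivity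
  have h1 : (0 : ℝ) ≤ (if i = 1 then (1 / 2 : ℝ) ^ j else 0) := by
    split_ifs <;> positivity
  have h2 : (0 : ℝ) ≤ (if j = 1 then (1 / 2 : ℝ) ^ i else 0) := by
    split_ifs <;> positivity
  by_cases hi : i = 1
  · subst hi
    rw [if_pos rfl] at h1 ⊢
    rw [one_mul]
    linarith
  by_cases hj : j = 1
  · subst hj
    rw [if_pos rfl] at h2 ⊢
    rw [mul_one]
    linarith
  have hi2 : 2 ≤ i := by omega
  have hj2 : 2 ≤ j := by omega
  obtain ⟨a, rfl⟩ := Nat.exists_eq_add_of_le hi2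
  obtain ⟨b, rfl⟩ := Nat.exists_eq_add_of_le hj2
  have h3 : (1 / 2 : ℝ) ^ ((2 + a) * (2 + b)) ≤ (1 / 2 : ℝ) ^ (4 + 2 * a + 2 * b) := by
    apply pow_le_pow_of_le_one (by norm_num) (by norm_num)
    nlinarith [Nat.zero_le (a * b)]
  have h4 : (1 / 2 : ℝ) ^ (4 + 2 * a + 2 * b) =
      16 * ((1 / 4 : ℝ) ^ (2 + a) * (1 / 4 : ℝ) ^ (2 + b)) := by
    rw [pow_add, pow_add, pow_mul, pow_mul, pow_add, pow_add]
    norm_num
    ring
  linarith

open Classical in
/-- fixed `X`, `I`, `J` -/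
theorem cnt_fixed {X I J : Finset V} (hI : I ⊆ X) (hJ : J ⊆ Xᶜ) :
    (cnt (fun P : SO V => I.Nonempty ∧ J.Nonempty ∧ ∀ x y, P.cov x y → (x, y) ∈ allow X I J) : ℝ) ≤
      2 ^ (X.card * (Xᶜ).card) * g I J := by
  by_cases h : I.Nonempty ∧ J.Nonempty
  · have h1 : cnt (fun P : SO V => I.Nonempty ∧ J.Nonempty ∧
        ∀ x y, P.cov x y → (x, y) ∈ allow X I J) ≤ 2 ^ (allow X I J).card :=
      (cnt_mono (fun P hP => hP.2.2)).trans (cnt_allow_le _)
    have h2 : (cnt (fun P : SO V => I.Nonempty ∧ J.Nonempty ∧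
        ∀ x y, P.cov x y → (x, y) ∈ allow X I J) : ℝ) ≤ 2 ^ (allow X I J).card := by
      exact_mod_cast h1
    refine h2.trans ?_
    have h3 := half_le_g (I := I) (J := J) (card_pos.mpr h.1) (card_pos.mpr h.2)
    have h4 : (2 : ℝ) ^ (allow X I J).card * 2 ^ (I.card * J.card) ≤
        2 ^ (X.card * (Xᶜ).card) := by
      rw [← pow_add]
      exact pow_le_pow_right₀ (by norm_num) (card_allow hI hJ)
    have h5 : (2 : ℝ) ^ (I.card * J.card) * (1 / 2 : ℝ) ^ (I.card * J.card) = 1 := by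
      rw [← mul_pow]; norm_num
    calc (2 : ℝ) ^ (allow X I J).card = (2 : ℝ) ^ (allow X I J).card *
          (2 ^ (I.card * J.card) * (1 / 2 : ℝ) ^ (I.card * J.card)) := by rw [h5, mul_one]
      _ = ((2 : ℝ) ^ (allow X I J).card * 2 ^ (I.card * J.card)) *
          (1 / 2 : ℝ) ^ (I.card * J.card) := by ring
      _ ≤ 2 ^ (X.card * (Xᶜ).card) * (1 / 2 : ℝ) ^ (I.card * J.card) := by
          apply mul_le_mul_of_nonneg_right h4 (by positivity)
      _ ≤ 2 ^ (X.card * (Xᶜ).card) * g I J := by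
          apply mul_le_mul_of_nonneg_left h3 (by positivity)
  · have h1 : cnt (fun P : SO V => I.Nonempty ∧ J.Nonempty ∧
        ∀ x y, P.cov x y → (x, y) ∈ allow X I J) = 0 := by
      apply Nat.eq_zero_of_le_zero
      refine (cnt_mono (q := fun _ => False) (fun P hP => h ⟨hP.1, hP.2.1⟩)).trans ?_
      unfold cnt
      simp
    rw [h1]
    have := g_nonneg I J
    push_cast
    positivity

theorem sum_pow_powerset (s : Finset V) (a : ℝ) :
    ∑ t ∈ s.powerset, a ^ t.card = (a + 1) ^ s.card := by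
  have h := Finset.sum_pow_mul_eq_add_pow a (1 : ℝ) s
  simpa using h

theorem sum_one_powerset (s : Finset V) (c : ℝ) :
    ∑ t ∈ s.powerset, (if t.card = 1 then c else 0) = s.card * c := by
  rw [← sum_filter, sum_const, nsmul_eq_mul]
  congr 1
  have h : s.powerset.filter (fun t => t.card = 1) = powersetCard 1 s := by
    ext t
    simp [mem_powersetCard]
  rw [h, card_powersetCard, Nat.choose_one_right]

/-- the sum over the outer layers -/
theorem sum_g (X Y : Finset V) :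
    ∑ I ∈ X.powerset, ∑ J ∈ Y.powerset, g I J =
      X.card * (3 / 2 : ℝ) ^ Y.card + Y.card * (3 / 2 : ℝ) ^ X.card +
        16 * ((5 / 4 : ℝ) ^ X.card * (5 / 4 : ℝ) ^ Y.card) := by
  unfold g
  simp only [sum_add_distrib]
  congr 1
  · congr 1
    · calc ∑ I ∈ X.powerset, ∑ J ∈ Y.powerset, (if I.card = 1 then (1 / 2 : ℝ) ^ J.card else 0)
          = ∑ I ∈ X.powerset, (if I.card = 1 then (3 / 2 : ℝ) ^ Y.card else 0) := by
            apply sum_congr rfl
            intro I _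
            split_ifs with h
            · rw [sum_pow_powerset]; norm_num
            · simp
        _ = X.card * (3 / 2 : ℝ) ^ Y.card := sum_one_powerset _ _
    · rw [sum_comm]
      calc ∑ J ∈ Y.powerset, ∑ I ∈ X.powerset, (if J.card = 1 then (1 / 2 : ℝ) ^ I.card else 0)
          = ∑ J ∈ Y.powerset, (if J.card = 1 then (3 / 2 : ℝ) ^ X.card else 0) := by
            apply sum_congr rfl
            intro I _
            split_ifs with h
            · rw [sum_pow_powerset]; norm_num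
            · simp
        _ = Y.card * (3 / 2 : ℝ) ^ X.card := sum_one_powerset _ _
  · simp only [← mul_sum, ← sum_mul]
    rw [sum_pow_powerset, sum_pow_powerset]
    norm_num

/-- numbers -/
theorem num1 (x y : ℕ) : (2 : ℝ) ^ (x * y) * (3 / 2 : ℝ) ^ y ≤
    (2 : ℝ) ^ (((x : ℝ) + y) ^ 2 / 4 + (1 / 3) * ((x : ℝ) + y) + 1) := by
  have h1 : (3 / 2 : ℝ) ≤ (2 : ℝ) ^ (3 / 5 : ℝ) := by
    have h2 : ((2 : ℝ) ^ (3 / 5 : ℝ)) ^ (5 : ℕ) = 8 := by
      rw [← Real.rpow_natCast, ← Real.rpow_mul (by norm_num)]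
      norm_num
    by_contra h3
    push Not at h3
    have h4 : ((2 : ℝ) ^ (3 / 5 : ℝ)) ^ (5 : ℕ) < (3 / 2 : ℝ) ^ (5 : ℕ) :=
      pow_lt_pow_left₀ h3 (by positivity) (by norm_num)
    rw [h2] at h4
    norm_num at h4
  have h2 : (3 / 2 : ℝ) ^ y ≤ (2 : ℝ) ^ ((3 / 5 : ℝ) * y) := by
    rw [Real.rpow_mul (by norm_num), Real.rpow_natCast]
    exact pow_le_pow_left₀ (by norm_num) h1 y
  calc (2 : ℝ) ^ (x * y) * (3 / 2 : ℝ) ^ y ≤ (2 : ℝ) ^ (x * y) * (2 : ℝ) ^ ((3 / 5 : ℝ) * y) := by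
        apply mul_le_mul_of_nonneg_left h2 (by positivity)
    _ = (2 : ℝ) ^ ((x : ℝ) * y + (3 / 5 : ℝ) * y) := by
        rw [Real.rpow_add (by norm_num), ← Real.rpow_natCast]
        push_cast
        ring_nf
    _ ≤ _ := by
        apply Real.rpow_le_rpow_of_exponent_le (by norm_num)
        have hx : (0 : ℝ) ≤ x := Nat.cast_nonneg x
        have hy : (0 : ℝ) ≤ y := Nat.cast_nonneg y
        nlinarith [sq_nonneg ((x : ℝ) - y + 3 / 5)]

theorem num2 (x y : ℕ) : (2 : ℝ) ^ (x * y) * ((5 / 4 : ℝ) ^ x * (5 / 4 : ℝ) ^ y) ≤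
    (2 : ℝ) ^ (((x : ℝ) + y) ^ 2 / 4 + (1 / 3) * ((x : ℝ) + y) + 1) := by
  have h1 : (5 / 4 : ℝ) ≤ (2 : ℝ) ^ (1 / 3 : ℝ) := by
    have h2 : ((2 : ℝ) ^ (1 / 3 : ℝ)) ^ (3 : ℕ) = 2 := by
      rw [← Real.rpow_natCast, ← Real.rpow_mul (by norm_num)]
      norm_num
    by_contra h3
    push Not at h3
    have h4 : ((2 : ℝ) ^ (1 / 3 : ℝ)) ^ (3 : ℕ) < (5 / 4 : ℝ) ^ (3 : ℕ) :=
      pow_lt_pow_left₀ h3 (by positivity) (by norm_num)
    rw [h2] at h4
    norm_num at h4
  have h2 : (5 / 4 : ℝ) ^ (x + y) ≤ (2 : ℝ) ^ ((1 / 3 : ℝ) * ((x : ℝ) + y)) := by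
    rw [Real.rpow_mul (by norm_num)]
    have h3 : ((x : ℝ) + y) = ((x + y : ℕ) : ℝ) := by push_cast; ring
    rw [h3, Real.rpow_natCast]
    exact pow_le_pow_left₀ (by norm_num) h1 (x + y)
  rw [← pow_add]
  calc (2 : ℝ) ^ (x * y) * (5 / 4 : ℝ) ^ (x + y) ≤
        (2 : ℝ) ^ (x * y) * (2 : ℝ) ^ ((1 / 3 : ℝ) * ((x : ℝ) + y)) := by
        apply mul_le_mul_of_nonneg_left h2 (by positivity)
    _ = (2 : ℝ) ^ ((x : ℝ) * y + (1 / 3 : ℝ) * ((x : ℝ) + y)) := by
        rw [Real.rpow_add (by norm_num), ← Real.rpow_natCast]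
        push_cast
        ring_nf
    _ ≤ _ := by
        apply Real.rpow_le_rpow_of_exponent_le (by norm_num)
        nlinarith [sq_nonneg ((x : ℝ) - y)]

theorem term_le (X : Finset V) :
    (2 : ℝ) ^ (X.card * (Xᶜ).card) * (X.card * (3 / 2 : ℝ) ^ (Xᶜ).card +
      (Xᶜ).card * (3 / 2 : ℝ) ^ X.card +
        16 * ((5 / 4 : ℝ) ^ X.card * (5 / 4 : ℝ) ^ (Xᶜ).card)) ≤
      (2 * Fintype.card V + 16) *
        (2 : ℝ) ^ ((Fintype.card V : ℝ) ^ 2 / 4 + (1 / 3) * Fintype.card V + 1) := by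
  have hxy : X.card + (Xᶜ).card = Fintype.card V := card_add_card_compl X
  have hR : ((X.card : ℝ) + (Xᶜ).card) = Fintype.card V := by exact_mod_cast hxy
  have h1 := num1 X.card (Xᶜ).card
  have h2 := num1 (Xᶜ).card X.card
  have h3 := num2 X.card (Xᶜ).card
  rw [add_comm ((Xᶜ).card : ℝ) (X.card : ℝ), mul_comm (Xᶜ).card X.card] at h2
  rw [hR] at h1 h2 h3
  set E := (2 : ℝ) ^ ((Fintype.card V : ℝ) ^ 2 / 4 + (1 / 3) * Fintype.card V + 1) with hE
  have hE0 : 0 ≤ E := by rw [hE]; positivity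
  have hx : (X.card : ℝ) ≤ Fintype.card V := by rw [← hR]; have : (0 : ℝ) ≤ (Xᶜ).card := Nat.cast_nonneg _; linarith
  have hy : ((Xᶜ).card : ℝ) ≤ Fintype.card V := by rw [← hR]; have : (0 : ℝ) ≤ X.card := Nat.cast_nonneg _; linarith
  have hx0 : (0 : ℝ) ≤ X.card := Nat.cast_nonneg _
  have hy0 : (0 : ℝ) ≤ (Xᶜ).card := Nat.cast_nonneg _
  have e1 : (X.card : ℝ) * ((2 : ℝ) ^ (X.card * (Xᶜ).card) * (3 / 2 : ℝ) ^ (Xᶜ).card) ≤
      Fintype.card V * E := mul_le_mul hx h1 (by positivity) (by positivity)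
  have e2 : ((Xᶜ).card : ℝ) * ((2 : ℝ) ^ (X.card * (Xᶜ).card) * (3 / 2 : ℝ) ^ X.card) ≤
      Fintype.card V * E := mul_le_mul hy h2 (by positivity) (by positivity)
  calc (2 : ℝ) ^ (X.card * (Xᶜ).card) * (X.card * (3 / 2 : ℝ) ^ (Xᶜ).card +
      (Xᶜ).card * (3 / 2 : ℝ) ^ X.card +
        16 * ((5 / 4 : ℝ) ^ X.card * (5 / 4 : ℝ) ^ (Xᶜ).card))
      = (X.card : ℝ) * ((2 : ℝ) ^ (X.card * (Xᶜ).card) * (3 / 2 : ℝ) ^ (Xᶜ).card) +
        ((Xᶜ).card : ℝ) * ((2 : ℝ) ^ (X.card * (Xᶜ).card) * (3 / 2 : ℝ) ^ X.card) +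
        16 * ((2 : ℝ) ^ (X.card * (Xᶜ).card) *
          ((5 / 4 : ℝ) ^ X.card * (5 / 4 : ℝ) ^ (Xᶜ).card)) := by ring
    _ ≤ Fintype.card V * E + Fintype.card V * E + 16 * E := by linarith
    _ = (2 * Fintype.card V + 16) * E := by ring

/-- the layer sets of an order with four layers -/
theorem exists_of_both {P : SO V} (h : Both P) : ∃ X ∈ (univ : Finset (Finset V)),
    ∃ I ∈ X.powerset, ∃ J ∈ (Xᶜ).powerset,
      I.Nonempty ∧ J.Nonempty ∧ ∀ x y, P.cov x y → (x, y) ∈ allow X I J := by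
  classical
  obtain ⟨f, hf, ⟨x0, hx0⟩, ⟨y0, hy0⟩⟩ := h
  refine ⟨univ.filter (fun v => f v = 0 ∨ f v = 2), mem_univ _, univ.filter (fun v => f v = 0), ?_,
    univ.filter (fun v => f v = 3), ?_, ⟨x0, by simpa using hx0⟩, ⟨y0, by simpa using hy0⟩, ?_⟩
  · rw [mem_powerset]
    intro v hv
    simp only [mem_filter, mem_univ, true_and] at hv ⊢
    exact Or.inl hv
  · rw [mem_powerset]
    intro v hv
    simp only [mem_filter, mem_univ, true_and, mem_compl] at hv ⊢
    rw [hv]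
    decide
  · intro x y hxy
    have h1 := hf x y hxy
    unfold allow
    simp only [mem_union, mem_product, mem_sdiff, mem_compl, mem_filter, mem_univ, true_and]
    generalize f x = a at h1 ⊢
    generalize f y = b at h1 ⊢
    revert h1
    revert a b
    decide

end CB

theorem cnt_Both_le {V : Type} [Fintype V] [DecidableEq V] :
    (cnt (Both (V := V)) : ℝ) ≤ (2 * Fintype.card V + 16) *
      (2 : ℝ) ^ ((Fintype.card V : ℝ) ^ 2 / 4 + (4 / 3) * Fintype.card V + 1) := by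
  classical
  have h1 : cnt (Both (V := V)) ≤ ∑ X ∈ (univ : Finset (Finset V)), ∑ I ∈ X.powerset,
      ∑ J ∈ (Xᶜ).powerset, cnt (fun P : SO V => I.Nonempty ∧ J.Nonempty ∧
        ∀ x y, P.cov x y → (x, y) ∈ CB.allow X I J) := by
    refine (cnt_mono (fun P hP => CB.exists_of_both hP)).trans ?_
    refine (CB.cnt_exists_mem_sum _ _).trans (sum_le_sum fun X _ => ?_)
    refine (CB.cnt_exists_mem_sum _ _).trans (sum_le_sum fun I _ => ?_)
    exact CB.cnt_exists_mem_sum _ _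
  have h2 : (cnt (Both (V := V)) : ℝ) ≤ ∑ X ∈ (univ : Finset (Finset V)), ∑ I ∈ X.powerset,
      ∑ J ∈ (Xᶜ).powerset, (cnt (fun P : SO V => I.Nonempty ∧ J.Nonempty ∧
        ∀ x y, P.cov x y → (x, y) ∈ CB.allow X I J) : ℝ) := by
    exact_mod_cast h1
  refine h2.trans ?_
  have h3 : ∀ X ∈ (univ : Finset (Finset V)), ∑ I ∈ X.powerset,
      ∑ J ∈ (Xᶜ).powerset, (cnt (fun P : SO V => I.Nonempty ∧ J.Nonempty ∧
        ∀ x y, P.cov x y → (x, y) ∈ CB.allow X I J) : ℝ) ≤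
      (2 * Fintype.card V + 16) *
        (2 : ℝ) ^ ((Fintype.card V : ℝ) ^ 2 / 4 + (1 / 3) * Fintype.card V + 1) := by
    intro X _
    refine le_trans (sum_le_sum fun I hI => sum_le_sum fun J hJ =>
      CB.cnt_fixed (mem_powerset.mp hI) (mem_powerset.mp hJ)) ?_
    simp only [← mul_sum]
    rw [CB.sum_g]
    exact CB.term_le X
  refine (sum_le_sum h3).trans ?_
  rw [sum_const, card_univ, Fintype.card_finset, nsmul_eq_mul]
  push_cast
  have h4 : (2 : ℝ) ^ Fintype.card V *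
      (2 : ℝ) ^ ((Fintype.card V : ℝ) ^ 2 / 4 + (1 / 3) * Fintype.card V + 1) =
      (2 : ℝ) ^ ((Fintype.card V : ℝ) ^ 2 / 4 + (4 / 3) * Fintype.card V + 1) := by
    rw [← Real.rpow_natCast, ← Real.rpow_add (by norm_num)]
    congr 1
    ring
  calc (2 : ℝ) ^ Fintype.card V * ((2 * Fintype.card V + 16) *
        (2 : ℝ) ^ ((Fintype.card V : ℝ) ^ 2 / 4 + (1 / 3) * Fintype.card V + 1))
      = (2 * Fintype.card V + 16) * ((2 : ℝ) ^ Fintype.card V *
        (2 : ℝ) ^ ((Fintype.card V : ℝ) ^ 2 / 4 + (1 / 3) * Fintype.card V + 1)) := by ring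
    _ ≤ _ := by rw [h4]

end Pool.KR87
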