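import Pool.Agent.KR87.Base

set_option autoImplicit false
set_option linter.unusedSectionVars false

/-!
# KR87/CG: the count of the orders with three layers, and some facts about layers

An order is determined by its cover pairs (`SO.ext_cov`), here a subset of the pairs of points in
consecutive layers: with `M` the middle layer there are `|M| (n - |M|)` such pairs, and
`2 ^ (n - |M|)` ways to choose the other layers.  `(n - x) (1 + x) ≤ (n + 1) ^ 2 / 4`.
-/

namespace Pool.KR87

open Finset

section

variable {V : Type} [Fintype V] [DecidableEq V]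

open Classical in
/-- The number of orders with the given three layers. -/
private theorem cg_fix (f : V → Fin 3) (M : Finset V) (hM : ∀ v, v ∈ M ↔ f v = 1) :
    cnt (fun P : SO V => Lay3 P f) ≤ 2 ^ (M.card * Mᶜ.card) := by
  have key : ∀ (P : SO V), Lay3 P f → ∀ x y, P.cov x y ↔
      ((f x = 0 ∧ f y = 1 ∧ (y, x) ∈ (M ×ˢ Mᶜ).filter (fun p => P.adj p.1 p.2)) ∨
       (f x = 1 ∧ f y = 2 ∧ (x, y) ∈ (M ×ˢ Mᶜ).filter (fun p => P.adj p.1 p.2))) := by
    intro P hP x y
    simp only [mem_filter, mem_product, mem_compl, hM]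
    constructor
    · intro h
      have h1 := hP x y h
      have hx := (f x).2
      have hy := (f y).2
      have h2 : (f x : ℕ) = 0 ∨ (f x : ℕ) = 1 := by omega
      rcases h2 with h2 | h2
      · left
        have hx0 : f x = 0 := Fin.ext h2
        have hy1 : f y = 1 := Fin.ext (by rw [h1, h2]; rfl)
        refine ⟨hx0, hy1, ⟨hy1, ?_⟩, Or.inr h⟩
        rw [hx0]
        decide
      · right
        have hx1 : f x = 1 := Fin.ext h2
        have hy2 : f y = 2 := Fin.ext (by rw [h1, h2]; rfl)
        refine ⟨hx1, hy2, ⟨hx1, ?_⟩, Or.inl h⟩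
        rw [hy2]
        decide
    · rintro (⟨hx, hy, _, h | h⟩ | ⟨hx, hy, _, h | h⟩)
      · have h1 := hP y x h
        rw [hx, hy] at h1
        exact absurd h1 (by decide)
      · exact h
      · exact h
      · have h1 := hP y x h
        rw [hx, hy] at h1
        exact absurd h1 (by decide)
  have h := cnt_le_of_injOn (fun P : SO V => Lay3 P f)
    (fun P => (M ×ˢ Mᶜ).filter (fun p => P.adj p.1 p.2)) ((M ×ˢ Mᶜ).powerset)
    (by
      intro P _
      exact mem_powerset.2 (filter_subset _ _))
    (by
      intro P P' hP hP' h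
      apply SO.ext_cov
      intro x y
      rw [key P hP, key P' hP']
      have h' : (M ×ˢ Mᶜ).filter (fun p => P.adj p.1 p.2) =
        (M ×ˢ Mᶜ).filter (fun p => P'.adj p.1 p.2) := h
      rw [h'])
  rwa [card_powerset, card_product] at h

private theorem cg_num (x y : ℕ) : 2 ^ y * 2 ^ (x * y) ≤ 2 ^ ((x + y + 1) ^ 2 / 4) := by
  rw [← pow_add]
  apply Nat.pow_le_pow_right (by norm_num)
  rw [Nat.le_div_iff_mul_le (by norm_num)]
  have : (0 : ℤ) ≤ ((x : ℤ) + 1 - y) ^ 2 := sq_nonneg _
  zify
  nlinarith

end

theorem cnt_Good_le {V : Type} [Fintype V] [DecidableEq V] :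
    cnt (Good (V := V)) ≤ 2 ^ Fintype.card V * 2 ^ ((Fintype.card V + 1) ^ 2 / 4) := by
  classical
  have h1 : cnt (Good (V := V)) ≤ cnt (fun P : SO V => ∃ M : Finset V, ∃ A ∈ Mᶜ.powerset,
      Lay3 P (fun v => if v ∈ A then 0 else if v ∈ M then 1 else 2)) := by
    apply cnt_mono
    rintro P ⟨f, hf⟩
    refine ⟨univ.filter (fun v => f v = 1), univ.filter (fun v => f v = 0), ?_, ?_⟩
    · rw [mem_powerset]
      intro v
      simp only [mem_filter, mem_univ, true_and, mem_compl]
      intro hv
      rw [hv]
      decide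
    · have h2 : (fun v => if v ∈ univ.filter (fun v => f v = 0) then (0 : Fin 3)
          else if v ∈ univ.filter (fun v => f v = 1) then 1 else 2) = f := by
        funext v
        simp only [mem_filter, mem_univ, true_and]
        have h3 : f v = 0 ∨ f v = 1 ∨ f v = 2 := by
          generalize f v = a
          revert a
          decide
        rcases h3 with h3 | h3 | h3 <;> simp [h3]
      rw [h2]
      exact hf
  refine h1.trans ?_
  refine (cnt_exists_le _ (2 ^ ((Fintype.card V + 1) ^ 2 / 4)) ?_).trans ?_
  · intro M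
    have hc : M.card + Mᶜ.card = Fintype.card V := card_add_card_compl M
    refine (cnt_exists_mem_le _ _ (2 ^ (M.card * Mᶜ.card)) ?_).trans ?_
    · intro A hA
      rw [mem_powerset] at hA
      apply cg_fix
      intro v
      constructor
      · intro hv
        have h2 : v ∉ A := fun h => (mem_compl.1 (hA h)) hv
        simp [h2, hv]
      · intro hv
        by_contra h2
        by_cases h3 : v ∈ A
        · simp [h3] at hv
        · simp [h3, h2] at hv
    · rw [card_powerset, ← hc]
      exact cg_num _ _
  · rw [Fintype.card_finset]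

theorem good_or_both {V : Type} [Fintype V] [DecidableEq V] {P : SO V} {f : V → Fin 4}
    (h : Lay4 P f) : Good P ∨ Both P := by
  by_cases h0 : ∃ x, f x = 0
  · by_cases h3 : ∃ y, f y = 3
    · exact Or.inr ⟨f, h, h0, h3⟩
    · left
      push Not at h3
      have h4 : ∀ x, (f x : ℕ) < 3 := by
        intro x
        have h5 := (f x).2
        have h6 : (f x : ℕ) ≠ 3 := fun h7 => h3 x (Fin.ext h7)
        omega
      exact ⟨fun x => ⟨(f x : ℕ), h4 x⟩, fun x y hxy => h x y hxy⟩
  · left
    push Not at h0
    have h4 : ∀ x, 1 ≤ (f x : ℕ) := by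
      intro x
      have h6 : (f x : ℕ) ≠ 0 := fun h7 => h0 x (Fin.ext h7)
      omega
    refine ⟨fun x => ⟨(f x : ℕ) - 1, ?_⟩, fun x y hxy => ?_⟩
    · have h5 := (f x).2
      have h6 := h4 x
      omega
    · have h5 := h x y hxy
      have h6 := h4 x
      show (f y : ℕ) - 1 = (f x : ℕ) - 1 + 1
      omega

/-- In a layered order, larger elements lie in higher layers. -/
private theorem cg_lt {V : Type} [Fintype V] [DecidableEq V] {P : SO V} {f : V → Fin 3}
    (h : Lay3 P f) : ∀ x y, P.lt x y → (f x : ℕ) < f y := by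
  intro x y
  have wf : WellFounded (fun a b => P.lt b a) := by
    have : IsTrans V (fun a b => P.lt b a) := ⟨fun a b c h1 h2 => P.tr _ _ _ h2 h1⟩
    have : Std.Irrefl (fun a b => P.lt b a) := ⟨P.irr⟩
    exact Finite.wellFounded_of_trans_of_irrefl _
  induction x using wf.induction with
  | _ x ih =>
    intro hxy
    obtain ⟨z, hz, hzy⟩ := P.exists_cov hxy
    have h1 := h x z hz
    rcases hzy with rfl | hzy
    · omega
    · have h2 := ih z hz.1 hzy
      omega

/-- Three layers: no chain with four elements. -/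
theorem Good.noFour {V : Type} [Fintype V] [DecidableEq V] {P : SO V} (h : Good P) (a b c d : V)
    (h1 : P.lt a b) (h2 : P.lt b c) : ¬ P.lt c d := by
  intro h3
  obtain ⟨f, hf⟩ := h
  have h4 := cg_lt hf a b h1
  have h5 := cg_lt hf b c h2
  have h6 := cg_lt hf c d h3
  have h7 := (f d).2
  omega

end Pool.KR87
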