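import Pool.Agent.KR87.Main
import Pool.Agent.GT34.Cor

set_option autoImplicit false

/-!
# KR87/Fin: the statement for `PartialOrder (Fin n)`
-/

namespace Pool.KR87

/-- the partial order of a strict order -/
@[reducible] def SO.finToPO {V : Type} (P : SO V) : PartialOrder V where
  le x y := x = y ∨ P.lt x y
  lt x y := P.lt x y
  le_refl x := Or.inl rfl
  le_trans x y z h1 h2 := by
    rcases h1 with rfl | h1
    · exact h2
    · rcases h2 with rfl | h2
      · exact Or.inr h1
      · exact Or.inr (P.tr _ _ _ h1 h2)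
  lt_iff_le_not_ge x y := by
    constructor
    · intro h
      refine ⟨Or.inr h, ?_⟩
      rintro (h1 | h1)
      · subst h1; exact P.irr _ h
      · exact P.asymm h h1
    · rintro ⟨h1 | h1, h2⟩
      · subst h1; exact absurd (Or.inl rfl) h2
      · exact h1
  le_antisymm x y h1 h2 := by
    rcases h1 with h1 | h1
    · exact h1
    · rcases h2 with h2 | h2
      · exact h2.symm
      · exact absurd h2 (P.asymm h1)

/-- the strict order of a partial order -/
def finOfPO {V : Type} (Q : PartialOrder V) : SO V where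
  lt x y := Q.lt x y
  irr x h := (Q.lt_iff_le_not_ge x x).1 h |>.2 (Q.le_refl x)
  tr x y z h1 h2 := by
    have a1 := (Q.lt_iff_le_not_ge x y).1 h1
    have a2 := (Q.lt_iff_le_not_ge y z).1 h2
    exact (Q.lt_iff_le_not_ge x z).2 ⟨Q.le_trans _ _ _ a1.1 a2.1, fun h => a2.2 (Q.le_trans _ _ _ h a1.1)⟩

/-- strict orders and partial orders -/
noncomputable def equivPO (V : Type) : SO V ≃ PartialOrder V where
  toFun P := P.finToPO
  invFun Q := finOfPO Q
  left_inv P := rfl
  right_inv Q := by
    apply PartialOrder.ext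
    intro x y
    constructor
    · rintro (h | h)
      · subst h; exact Q.le_refl _
      · exact ((Q.lt_iff_le_not_ge x y).1 h).1
    · intro h
      by_cases hxy : x = y
      · exact Or.inl hxy
      · exact Or.inr ((Q.lt_iff_le_not_ge x y).2 ⟨h, fun h' => hxy (Q.le_antisymm _ _ h h')⟩)

theorem equivPO_lt (V : Type) (P : SO V) (x y : V) : (equivPO V P).lt x y ↔ P.lt x y := Iff.rfl

theorem kr_final40 : ∃ N : ℕ, ∀ n ≥ N,
    (Nat.card {P : PartialOrder (Fin n) // ∃ a b c d : Fin n, P.lt a b ∧ P.lt b c ∧ P.lt c d} : ℝ) ≤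
      (2 : ℝ) ^ (-(1 / 40 : ℝ) * n) * Nat.card (PartialOrder (Fin n)) := by
  obtain ⟨N, hN⟩ := kr_exp40
  refine ⟨N, fun n hn => ?_⟩
  have h1 := hN n hn
  have h2 : Nat.card (PartialOrder (Fin n)) = pn n := by
    rw [← Nat.card_congr (equivPO (Fin n)), Nat.card_eq_fintype_card, card_SO, Fintype.card_fin]
  have h3 : Nat.card {P : PartialOrder (Fin n) //
      ∃ a b c d : Fin n, P.lt a b ∧ P.lt b c ∧ P.lt c d} ≤
      cnt (fun P : SO (Fin n) => ¬ Good P) := by
    classical
    have e : Nat.card {P : SO (Fin n) // ¬ Good P} = cnt (fun P : SO (Fin n) => ¬ Good P) := by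
      rw [Nat.card_eq_fintype_card, Fintype.card_subtype]
      unfold cnt
      congr 1
      ext P
      simp
    rw [← e]
    refine Nat.card_le_card_of_injective
      (fun P : {P : PartialOrder (Fin n) //
        ∃ a b c d : Fin n, P.lt a b ∧ P.lt b c ∧ P.lt c d} =>
        (⟨(equivPO (Fin n)).symm P.1, ?_⟩ : {P : SO (Fin n) // ¬ Good P})) ?_
    · obtain ⟨P, a, b, c, d, g1, g2, g3⟩ := P
      intro hg
      exact hg.noFour a b c d g1 g2 g3
    · intro P P' h
      apply Subtype.ext
      have := congrArg Subtype.val h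
      exact (equivPO (Fin n)).symm.injective this
  rw [h2]
  exact le_trans (by exact_mod_cast h3) h1

/-- almost all partial orders have no chain with four elements -/
theorem kr_final : ∃ c : ℝ, 0 < c ∧ ∃ N : ℕ, ∀ n ≥ N,
    (Nat.card {P : PartialOrder (Fin n) // ∃ a b c d : Fin n, P.lt a b ∧ P.lt b c ∧ P.lt c d} : ℝ) ≤
      (2 : ℝ) ^ (-c * n) * Nat.card (PartialOrder (Fin n)) :=
  ⟨1 / 40, by norm_num, kr_final40⟩

end Pool.KR87
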