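import Pool.Agent.KR87.Base

set_option autoImplicit false
set_option linter.unusedSectionVars false

/-!
# KR87/Kst: a complete bipartite subgraph in the cover graph

The number of cover pairs is at least `n ^ 2 / (2 a)`, so at least `n / (4 a)` points `t` have at
least `n / (4 a)` lower covers.  Count the pairs `(t, S)` with `S` a set of `K` lower covers of
such a point `t`: if every `S` belonged to fewer than `K` points `t`, then
`n / (4 a) * (n / (8 a)) ^ K ≤ K n ^ K`, which is false for large `n`.
-/

namespace Pool.KR87

open Finset

section kst_aux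

variable {V : Type} [Fintype V] [DecidableEq V]

open Classical in
/-- lower covers of `t` -/
private noncomputable def low (P : SO V) (t : V) : Finset V := univ.filter (fun s => P.cov s t)

open Classical in
/-- upper covers of `s` -/
private noncomputable def upp (P : SO V) (s : V) : Finset V := univ.filter (fun t => P.cov s t)

private theorem card_nb_le (P : SO V) (v : V) :
    (nb P v).card ≤ (low P v).card + (upp P v).card := by
  classical
  refine le_trans (card_le_card ?_) (card_union_le _ _)
  intro y hy
  rw [mem_nb] at hy
  simp only [low, upp, mem_union, mem_filter, mem_univ, true_and]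
  rcases hy with h | h
  · exact Or.inr h
  · exact Or.inl h

private theorem sum_upp (P : SO V) : ∑ v, (upp P v).card = ∑ v, (low P v).card := by
  classical
  have h := Finset.sum_card_bipartiteAbove_eq_sum_card_bipartiteBelow
    (s := (univ : Finset V)) (t := (univ : Finset V)) (fun a b => P.cov a b)
  simpa [Finset.bipartiteAbove, Finset.bipartiteBelow, upp, low] using h

private theorem edges (P : SO V) (a : ℕ) (h : ∀ v, Fintype.card V ≤ a * (nb P v).card) :
    Fintype.card V * Fintype.card V ≤ 2 * a * ∑ v, (low P v).card := by
  have h1 : ∑ v : V, Fintype.card V ≤ ∑ v : V, a * ((low P v).card + (upp P v).card) :=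
    sum_le_sum (fun v _ => (h v).trans (Nat.mul_le_mul_left _ (card_nb_le P v)))
  rw [← mul_sum, sum_add_distrib, sum_upp] at h1
  simp only [sum_const, card_univ, smul_eq_mul] at h1
  calc Fintype.card V * Fintype.card V ≤ _ := h1
    _ = _ := by ring

open Classical in
private theorem many (P : SO V) (a : ℕ) (h : ∀ v, Fintype.card V ≤ a * (nb P v).card)
    (hn : 0 < Fintype.card V) :
    Fintype.card V ≤
      4 * a * (univ.filter (fun t => Fintype.card V ≤ 4 * a * (low P t).card)).card := by
  set n := Fintype.card V with hn'
  set T0 := univ.filter (fun t => n ≤ 4 * a * (low P t).card) with hT0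
  have h1 := edges P a h
  have h2 : ∑ v, 4 * a * (low P v).card ≤ T0.card * (4 * a * n) + n * n := by
    calc ∑ v, 4 * a * (low P v).card
        ≤ ∑ v, ((if v ∈ T0 then 4 * a * n else 0) + n) := by
          apply sum_le_sum
          intro v _
          have hle : (low P v).card ≤ n := by
            rw [hn']; exact card_le_univ _
          split_ifs with hv
          · have := Nat.mul_le_mul_left (4 * a) hle
            omega
          · have : ¬ n ≤ 4 * a * (low P v).card := by
              intro h3
              exact hv (by rw [hT0, mem_filter]; exact ⟨mem_univ _, h3⟩)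
            omega
      _ = T0.card * (4 * a * n) + n * n := by
          rw [sum_add_distrib, sum_ite_mem, univ_inter]
          simp [hn']
  rw [← mul_sum] at h2
  have h3 : 2 * (n * n) ≤ T0.card * (4 * a * n) + n * n := by
    refine le_trans ?_ h2
    calc 2 * (n * n) ≤ 2 * (2 * a * ∑ v, (low P v).card) := Nat.mul_le_mul_left _ h1
      _ = _ := by ring
  have h4 : n * n ≤ (4 * a * T0.card) * n := by
    have : T0.card * (4 * a * n) = (4 * a * T0.card) * n := by ring
    omega
  exact Nat.le_of_mul_le_mul_right h4 hn

end kst_aux

theorem kst (K a : ℕ) : ∃ N0 : ℕ, ∀ (V : Type) [Fintype V] [DecidableEq V] (P : SO V),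
    N0 ≤ Fintype.card V → (∀ v, Fintype.card V ≤ a * (nb P v).card) →
    ∃ S T : Finset V, S.card = K ∧ T.card = K ∧ ∀ s ∈ S, ∀ t ∈ T, P.cov s t := by
  refine ⟨4 * a * (8 * a) ^ K * K + 8 * a * K + 1, ?_⟩
  intro V _ _ P hN h
  classical
  set n := Fintype.card V with hn
  have hn0 : 0 < n := by omega
  have hT := many P a h hn0
  rw [← hn] at hT
  set T0 := univ.filter (fun t => n ≤ 4 * a * (low P t).card) with hT0
  by_contra hcon
  push Not at hcon
  -- every `K`-set has fewer than `K` common upper covers
  have hS : ∀ S ∈ powersetCard K (univ : Finset V),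
      (bipartiteBelow (fun t (S : Finset V) => S ⊆ low P t) T0 S).card ≤ K := by
    intro S hS
    rw [mem_powersetCard] at hS
    by_contra hlt
    push Not at hlt
    obtain ⟨T, hTs, hTc⟩ := exists_subset_card_eq hlt.le
    obtain ⟨s, hs, t, ht, hst⟩ := hcon S T hS.2 hTc
    apply hst
    have h1 := hTs ht
    rw [mem_bipartiteBelow] at h1
    have h2 := h1.2 hs
    simp only [low, mem_filter, mem_univ, true_and] at h2
    exact h2
  have hdc := Finset.sum_card_bipartiteAbove_eq_sum_card_bipartiteBelow
    (s := T0) (t := powersetCard K (univ : Finset V)) (fun t (S : Finset V) => S ⊆ low P t)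
  have hub : ∑ S ∈ powersetCard K (univ : Finset V),
      (bipartiteBelow (fun t (S : Finset V) => S ⊆ low P t) T0 S).card ≤ n.choose K * K := by
    calc _ ≤ ∑ _S ∈ powersetCard K (univ : Finset V), K := sum_le_sum hS
      _ = n.choose K * K := by rw [sum_const, card_powersetCard, smul_eq_mul, card_univ]
  have hlb : ∀ t ∈ T0, n ^ K ≤ (8 * a) ^ K * (K.factorial *
      (bipartiteAbove (fun t (S : Finset V) => S ⊆ low P t)
        (powersetCard K (univ : Finset V)) t).card) := by
    intro t ht
    have h1 : (low P t).card.choose K ≤ (bipartiteAbove (fun t (S : Finset V) => S ⊆ low P t)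
        (powersetCard K (univ : Finset V)) t).card := by
      rw [← card_powersetCard]
      apply card_le_card
      intro S hS
      rw [mem_powersetCard] at hS
      rw [mem_bipartiteAbove, mem_powersetCard]
      exact ⟨⟨subset_univ _, hS.2⟩, hS.1⟩
    have h2 : n ≤ 8 * a * ((low P t).card + 1 - K) := by
      rw [hT0, mem_filter] at ht
      have h3 := ht.2
      rcases Nat.le_total K ((low P t).card + 1) with h4 | h4
      · obtain ⟨j, hj⟩ := Nat.exists_eq_add_of_le h4
        have h5 : (low P t).card + 1 - K = j := by omega
        rw [h5]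
        have h6 : 8 * a * (low P t).card + 8 * a = 8 * a * K + 8 * a * j := by
          rw [← Nat.mul_succ, Nat.succ_eq_add_one, hj]; ring
        have h7 : 8 * a * (low P t).card = 2 * (4 * a * (low P t).card) := by ring
        omega
      · exfalso
        have h5 : 4 * a * (low P t).card ≤ 4 * a * K := Nat.mul_le_mul_left _ (by omega)
        have h6 : 8 * a * K = 2 * (4 * a * K) := by ring
        omega
    calc n ^ K ≤ (8 * a * ((low P t).card + 1 - K)) ^ K := Nat.pow_le_pow_left h2 K
      _ = (8 * a) ^ K * ((low P t).card + 1 - K) ^ K := mul_pow _ _ _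
      _ ≤ (8 * a) ^ K * (low P t).card.descFactorial K :=
          Nat.mul_le_mul_left _ (Nat.pow_sub_le_descFactorial _ _)
      _ = (8 * a) ^ K * (K.factorial * (low P t).card.choose K) := by
          rw [Nat.descFactorial_eq_factorial_mul_choose]
      _ ≤ _ := Nat.mul_le_mul_left _ (Nat.mul_le_mul_left _ h1)
  have hsum : T0.card * n ^ K ≤ (8 * a) ^ K * (K.factorial * (n.choose K * K)) := by
    calc T0.card * n ^ K = ∑ _t ∈ T0, n ^ K := by rw [sum_const, smul_eq_mul]
      _ ≤ ∑ t ∈ T0, (8 * a) ^ K * (K.factorial *
          (bipartiteAbove (fun t (S : Finset V) => S ⊆ low P t)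
            (powersetCard K (univ : Finset V)) t).card) := sum_le_sum hlb
      _ = (8 * a) ^ K * (K.factorial * ∑ t ∈ T0,
          (bipartiteAbove (fun t (S : Finset V) => S ⊆ low P t)
            (powersetCard K (univ : Finset V)) t).card) := by rw [mul_sum, mul_sum]
      _ ≤ _ := by
          rw [hdc]
          exact Nat.mul_le_mul_left _ (Nat.mul_le_mul_left _ hub)
  have hfin : n * n ^ K ≤ (4 * a * (8 * a) ^ K * K) * n ^ K := by
    calc n * n ^ K ≤ (4 * a * T0.card) * n ^ K := Nat.mul_le_mul_right _ hT
      _ = 4 * a * (T0.card * n ^ K) := by ring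
      _ ≤ 4 * a * ((8 * a) ^ K * (K.factorial * (n.choose K * K))) :=
          Nat.mul_le_mul_left _ hsum
      _ = 4 * a * (8 * a) ^ K * K * (K.factorial * n.choose K) := by ring
      _ = 4 * a * (8 * a) ^ K * K * n.descFactorial K := by
          rw [Nat.descFactorial_eq_factorial_mul_choose]
      _ ≤ _ := Nat.mul_le_mul_left _ (Nat.descFactorial_le_pow _ _)
  have hfin' := Nat.le_of_mul_le_mul_right hfin (Nat.pow_pos hn0)
  omega

end Pool.KR87
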