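import Pool.Agent.KR87.Base

set_option autoImplicit false
set_option linter.unusedSectionVars false

/-!
# KR87/Lay: the four layers given by a completely joined pair `S < T`

All facts are short order arguments.  `y ∈ N⁻(S)`, `u ∈ N⁻(T)`, `x ∈ N⁺(S)`, `z ∈ N⁺(T)`:
`u < y` gives `u < y < s < t`, against `u ⋖ t`; `x < u`: `s < x < u < t`, against `s ⋖ t`;
`z < x`: `s < t < z < x` against `s ⋖ x`; `x < y`: `s < x < y < s'`, against `S` antichain;
`z < u`: `t < z < u < t'`; `y < s < t < z` always.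
Irregular covers `x ⋖ y`: if neither `x` nor `y` is in layer `4` the pair of layers is `(0,0)`, `(0,2)`,
`(2,2)` (then the pair is in `farPairs P S`) or `(1,1)`, `(1,3)`, `(3,3)` (in `farPairs P T`); all the
other pairs of layers are impossible.
-/

namespace Pool.KR87

open Finset

section

variable {V : Type} [Fintype V] [DecidableEq V]

theorem lay_anti_S {P : SO V} {S T : Finset V} (hT : T.Nonempty)
    (h : ∀ s ∈ S, ∀ t ∈ T, P.cov s t) : P.anti S := by
  obtain ⟨t, ht⟩ := hT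
  intro x hx y hy hxy
  exact (h x hx t ht).2 y hxy (h y hy t ht).1

theorem lay_anti_T {P : SO V} {S T : Finset V} (hS : S.Nonempty)
    (h : ∀ s ∈ S, ∀ t ∈ T, P.cov s t) : P.anti T := by
  obtain ⟨s, hs⟩ := hS
  intro x hx y hy hxy
  exact (h s hs y hy).2 x (h s hs x hx).1 hxy

/-- also used for completely adjacent sets -/
theorem disjoint_nbS_of_adj {P : SO V} {S T : Finset V} (h : ∀ s ∈ S, ∀ t ∈ T, P.adj s t) :
    Disjoint (nbS P S) (nbS P T) := by
  rw [Finset.disjoint_left]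
  intro x hx hy
  rw [mem_nbS] at hx hy
  obtain ⟨s, hs, h1⟩ := hx
  obtain ⟨t, ht, h2⟩ := hy
  exact P.no_triangle (h s hs t ht) h2 h1

/-- `¬ u < y` -/
theorem lay_or10 {P : SO V} {S T : Finset V} (hT : T.Nonempty)
    (h : ∀ s ∈ S, ∀ t ∈ T, P.cov s t) : ∀ u ∈ dnS P T, ∀ y ∈ dnS P S, ¬ P.lt u y := by
  intro u hu y hy huy
  rw [mem_dnS] at hu hy
  obtain ⟨t, ht, h1⟩ := hu
  obtain ⟨s, hs, h2⟩ := hy
  exact h1.2 y huy (P.tr _ _ _ h2.1 (h s hs t ht).1)

/-- `¬ x < u` -/
theorem lay_or21 {P : SO V} {S T : Finset V} (h : ∀ s ∈ S, ∀ t ∈ T, P.cov s t) :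
    ∀ x ∈ upS P S, ∀ u ∈ dnS P T, ¬ P.lt x u := by
  intro x hx u hu hxu
  rw [mem_upS] at hx
  rw [mem_dnS] at hu
  obtain ⟨s, hs, h1⟩ := hx
  obtain ⟨t, ht, h2⟩ := hu
  exact (h s hs t ht).2 x h1.1 (P.tr _ _ _ hxu h2.1)

/-- `¬ z < x` -/
theorem lay_or32 {P : SO V} {S T : Finset V} (hS : S.Nonempty)
    (h : ∀ s ∈ S, ∀ t ∈ T, P.cov s t) : ∀ z ∈ upS P T, ∀ x ∈ upS P S, ¬ P.lt z x := by
  intro z hz x hx hzx
  rw [mem_upS] at hz hx
  obtain ⟨t, ht, h1⟩ := hz
  obtain ⟨s, hs, h2⟩ := hx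
  exact h2.2 z (P.tr _ _ _ (h s hs t ht).1 h1.1) hzx

/-- `¬ x < y` -/
theorem lay_or20 {P : SO V} {S T : Finset V} (hT : T.Nonempty)
    (h : ∀ s ∈ S, ∀ t ∈ T, P.cov s t) : ∀ x ∈ upS P S, ∀ y ∈ dnS P S, ¬ P.lt x y := by
  intro x hx y hy hxy
  rw [mem_upS] at hx
  rw [mem_dnS] at hy
  obtain ⟨s, hs, h1⟩ := hx
  obtain ⟨s', hs', h2⟩ := hy
  exact lay_anti_S hT h s hs s' hs' (P.tr _ _ _ h1.1 (P.tr _ _ _ hxy h2.1))

/-- `¬ z < u` -/
theorem lay_or31 {P : SO V} {S T : Finset V} (hS : S.Nonempty)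
    (h : ∀ s ∈ S, ∀ t ∈ T, P.cov s t) : ∀ z ∈ upS P T, ∀ u ∈ dnS P T, ¬ P.lt z u := by
  intro z hz u hu hzu
  rw [mem_upS] at hz
  rw [mem_dnS] at hu
  obtain ⟨t, ht, h1⟩ := hz
  obtain ⟨t', ht', h2⟩ := hu
  exact lay_anti_T hS h t ht t' ht' (P.tr _ _ _ h1.1 (P.tr _ _ _ hzu h2.1))

/-- layers `0` and `3` are completely comparable, without covers -/
theorem lay_03 {P : SO V} {S T : Finset V} (hS : S.Nonempty) (hT : T.Nonempty)
    (h : ∀ s ∈ S, ∀ t ∈ T, P.cov s t) : ∀ y ∈ dnS P S, ∀ z ∈ upS P T, P.lt y z ∧ ¬ P.cov y z := by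
  intro y hy z hz
  rw [mem_dnS] at hy
  rw [mem_upS] at hz
  obtain ⟨s, hs, h1⟩ := hy
  obtain ⟨t, ht, h2⟩ := hz
  have h3 := (h s hs t ht).1
  refine ⟨P.tr _ _ _ h1.1 (P.tr _ _ _ h3 h2.1), fun h4 => h4.2 s h1.1 (P.tr _ _ _ h3 h2.1)⟩

theorem lay_cases (P : SO V) (S T : Finset V) (v : V) :
    (v ∈ dnS P S ∧ lay P S T v = 0) ∨ (v ∉ dnS P S ∧ v ∈ dnS P T ∧ lay P S T v = 1) ∨
    (v ∉ dnS P S ∧ v ∉ dnS P T ∧ v ∈ upS P S ∧ lay P S T v = 2) ∨
    (v ∉ dnS P S ∧ v ∉ dnS P T ∧ v ∉ upS P S ∧ v ∈ upS P T ∧ lay P S T v = 3) ∨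
    (v ∉ dnS P S ∧ v ∉ dnS P T ∧ v ∉ upS P S ∧ v ∉ upS P T ∧ lay P S T v = 4) := by
  by_cases h0 : v ∈ dnS P S
  · exact Or.inl ⟨h0, if_pos h0⟩
  refine Or.inr ?_
  by_cases h1 : v ∈ dnS P T
  · refine Or.inl ⟨h0, h1, ?_⟩
    unfold lay
    rw [if_neg h0, if_pos h1]
  refine Or.inr ?_
  by_cases h2 : v ∈ upS P S
  · refine Or.inl ⟨h0, h1, h2, ?_⟩
    unfold lay
    rw [if_neg h0, if_neg h1, if_pos h2]
  refine Or.inr ?_
  by_cases h3 : v ∈ upS P T
  · refine Or.inl ⟨h0, h1, h2, h3, ?_⟩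
    unfold lay
    rw [if_neg h0, if_neg h1, if_neg h2, if_pos h3]
  refine Or.inr ⟨h0, h1, h2, h3, ?_⟩
  unfold lay
  rw [if_neg h0, if_neg h1, if_neg h2, if_neg h3]

theorem lay_fib {P : SO V} {S T : Finset V} (hS : S.Nonempty) (hT : T.Nonempty)
    (h : ∀ s ∈ S, ∀ t ∈ T, P.cov s t) :
    (univ.filter (fun v => lay P S T v = 0)) = dnS P S ∧
    (univ.filter (fun v => lay P S T v = 1)) = dnS P T ∧
    (univ.filter (fun v => lay P S T v = 2)) = upS P S ∧
    (univ.filter (fun v => lay P S T v = 3)) = upS P T ∧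
    (univ.filter (fun v => lay P S T v = 4)) = univ \ (nbS P S ∪ nbS P T) := by
  have hd : Disjoint (nbS P S) (nbS P T) := disjoint_nbS_of_adj fun s hs t ht => Or.inl (h s hs t ht)
  have hdS := disjoint_dnS_upS (lay_anti_S hT h)
  have hdT := disjoint_dnS_upS (lay_anti_T hS h)
  have e1 := nbS_eq P S
  have e2 := nbS_eq P T
  rw [e1, e2, Finset.disjoint_left] at hd
  rw [Finset.disjoint_left] at hdS hdT
  have x01 : ∀ v, v ∈ dnS P S → v ∈ dnS P T → False := fun v a b =>
    hd (mem_union_left _ a) (mem_union_left _ b)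
  have x02 : ∀ v, v ∈ dnS P S → v ∈ upS P S → False := fun v a b => hdS a b
  have x03 : ∀ v, v ∈ dnS P S → v ∈ upS P T → False := fun v a b =>
    hd (mem_union_left _ a) (mem_union_right _ b)
  have x12 : ∀ v, v ∈ dnS P T → v ∈ upS P S → False := fun v a b =>
    hd (mem_union_right _ b) (mem_union_left _ a)
  have x13 : ∀ v, v ∈ dnS P T → v ∈ upS P T → False := fun v a b => hdT a b
  have x23 : ∀ v, v ∈ upS P S → v ∈ upS P T → False := fun v a b =>
    hd (mem_union_right _ a) (mem_union_right _ b)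
  refine ⟨?_, ?_, ?_, ?_, ?_⟩
  · ext v
    rw [mem_filter]
    constructor
    · rintro ⟨-, e⟩
      rcases lay_cases P S T v with a | a | a | a | a
      · exact a.1
      · rw [a.2.2] at e; exact absurd e (by decide)
      · rw [a.2.2.2] at e; exact absurd e (by decide)
      · rw [a.2.2.2.2] at e; exact absurd e (by decide)
      · rw [a.2.2.2.2] at e; exact absurd e (by decide)
    · intro e
      refine ⟨mem_univ _, ?_⟩
      rcases lay_cases P S T v with a | a | a | a | a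
      · exact a.2
      · exact absurd e a.1
      · exact absurd e a.1
      · exact absurd e a.1
      · exact absurd e a.1
  · ext v
    rw [mem_filter]
    constructor
    · rintro ⟨-, e⟩
      rcases lay_cases P S T v with a | a | a | a | a
      · rw [a.2] at e; exact absurd e (by decide)
      · exact a.2.1
      · rw [a.2.2.2] at e; exact absurd e (by decide)
      · rw [a.2.2.2.2] at e; exact absurd e (by decide)
      · rw [a.2.2.2.2] at e; exact absurd e (by decide)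
    · intro e
      refine ⟨mem_univ _, ?_⟩
      rcases lay_cases P S T v with a | a | a | a | a
      · exact (x01 v a.1 e).elim
      · exact a.2.2
      · exact absurd e a.2.1
      · exact absurd e a.2.1
      · exact absurd e a.2.1
  · ext v
    rw [mem_filter]
    constructor
    · rintro ⟨-, e⟩
      rcases lay_cases P S T v with a | a | a | a | a
      · rw [a.2] at e; exact absurd e (by decide)
      · rw [a.2.2] at e; exact absurd e (by decide)
      · exact a.2.2.1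
      · rw [a.2.2.2.2] at e; exact absurd e (by decide)
      · rw [a.2.2.2.2] at e; exact absurd e (by decide)
    · intro e
      refine ⟨mem_univ _, ?_⟩
      rcases lay_cases P S T v with a | a | a | a | a
      · exact (x02 v a.1 e).elim
      · exact (x12 v a.2.1 e).elim
      · exact a.2.2.2
      · exact absurd e a.2.2.1
      · exact absurd e a.2.2.1
  · ext v
    rw [mem_filter]
    constructor
    · rintro ⟨-, e⟩
      rcases lay_cases P S T v with a | a | a | a | a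
      · rw [a.2] at e; exact absurd e (by decide)
      · rw [a.2.2] at e; exact absurd e (by decide)
      · rw [a.2.2.2] at e; exact absurd e (by decide)
      · exact a.2.2.2.1
      · rw [a.2.2.2.2] at e; exact absurd e (by decide)
    · intro e
      refine ⟨mem_univ _, ?_⟩
      rcases lay_cases P S T v with a | a | a | a | a
      · exact (x03 v a.1 e).elim
      · exact (x13 v a.2.1 e).elim
      · exact (x23 v a.2.2.1 e).elim
      · exact a.2.2.2.2
      · exact absurd e a.2.2.2.1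
  · ext v
    rw [mem_filter, e1, e2, mem_sdiff, mem_union, mem_union, mem_union]
    constructor
    · rintro ⟨-, e⟩
      refine ⟨mem_univ _, ?_⟩
      rcases lay_cases P S T v with a | a | a | a | a
      · rw [a.2] at e; exact absurd e (by decide)
      · rw [a.2.2] at e; exact absurd e (by decide)
      · rw [a.2.2.2] at e; exact absurd e (by decide)
      · rw [a.2.2.2.2] at e; exact absurd e (by decide)
      · rintro ((b | b) | (b | b))
        · exact a.1 b
        · exact a.2.2.1 b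
        · exact a.2.1 b
        · exact a.2.2.2.1 b
    · rintro ⟨-, e⟩
      refine ⟨mem_univ _, ?_⟩
      rcases lay_cases P S T v with a | a | a | a | a
      · exact absurd (Or.inl (Or.inl a.1)) e
      · exact absurd (Or.inr (Or.inl a.2.1)) e
      · exact absurd (Or.inl (Or.inr a.2.2.1)) e
      · exact absurd (Or.inr (Or.inr a.2.2.2.1)) e
      · exact a.2.2.2.2

/-- sizes of the layers -/
theorem lay_sizes {P : SO V} {S T : Finset V} (hS : S.Nonempty) (hT : T.Nonempty)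
    (h : ∀ s ∈ S, ∀ t ∈ T, P.cov s t) :
    lsz (lay P S T) 0 = (dnS P S).card ∧ lsz (lay P S T) 1 = (dnS P T).card ∧
    lsz (lay P S T) 2 = (upS P S).card ∧ lsz (lay P S T) 3 = (upS P T).card ∧
    (dnS P S).card + (upS P S).card = (nbS P S).card ∧
    (dnS P T).card + (upS P T).card = (nbS P T).card ∧
    (nbS P S).card + (nbS P T).card + lsz (lay P S T) 4 = Fintype.card V := by
  have hd : Disjoint (nbS P S) (nbS P T) := disjoint_nbS_of_adj fun s hs t ht => Or.inl (h s hs t ht)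
  have hdS := disjoint_dnS_upS (lay_anti_S hT h)
  have hdT := disjoint_dnS_upS (lay_anti_T hS h)
  obtain ⟨f0, f1, f2, f3, f4⟩ := lay_fib hS hT h
  have g1 : (dnS P S).card + (upS P S).card = (nbS P S).card := by
    rw [nbS_eq P S, card_union_of_disjoint hdS]
  have g2 : (dnS P T).card + (upS P T).card = (nbS P T).card := by
    rw [nbS_eq P T, card_union_of_disjoint hdT]
  refine ⟨?_, ?_, ?_, ?_, g1, g2, ?_⟩
  · unfold lsz; rw [f0]
  · unfold lsz; rw [f1]
  · unfold lsz; rw [f2]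
  · unfold lsz; rw [f3]
  · unfold lsz
    rw [f4, ← Finset.compl_eq_univ_sdiff, Finset.card_compl, card_union_of_disjoint hd]
    have h1 : (nbS P S ∪ nbS P T).card ≤ Fintype.card V := card_le_univ _
    rw [card_union_of_disjoint hd] at h1
    omega

theorem mem_farPairs_of_cov {P : SO V} {Q : Finset V} {x y : V} (hx : x ∈ nbS P Q)
    (hy : y ∈ nbS P Q) (h : P.cov x y) : (x, y) ∈ farPairs P Q := by
  classical
  unfold farPairs
  refine mem_filter.mpr ⟨mem_product.mpr ⟨hx, hy⟩, ?_⟩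
  rintro q hq ⟨h1, h2⟩
  exact P.no_triangle h1 (Or.inl h) h2

theorem irr_card_le {P : SO V} {S T : Finset V} (hS : S.Nonempty) (hT : T.Nonempty)
    (h : ∀ s ∈ S, ∀ t ∈ T, P.cov s t) :
    (irrPairs P (lay P S T)).card ≤ (farPairs P S).card + (farPairs P T).card +
      2 * lsz (lay P S T) 4 * Fintype.card V := by
  obtain ⟨f0, f1, f2, f3, f4⟩ := lay_fib hS hT h
  have hirr : ∀ x y, (x, y) ∈ irrPairs P (lay P S T) →
      P.cov x y ∧ ¬ reg5 (lay P S T x) (lay P S T y) := by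
    classical
    intro x y hxy
    unfold irrPairs at hxy
    exact (mem_filter.mp hxy).2
  have m0 : ∀ v, lay P S T v = 0 → v ∈ dnS P S := fun v hv => by
    rw [← f0]; exact mem_filter.mpr ⟨mem_univ _, hv⟩
  have m1 : ∀ v, lay P S T v = 1 → v ∈ dnS P T := fun v hv => by
    rw [← f1]; exact mem_filter.mpr ⟨mem_univ _, hv⟩
  have m2 : ∀ v, lay P S T v = 2 → v ∈ upS P S := fun v hv => by
    rw [← f2]; exact mem_filter.mpr ⟨mem_univ _, hv⟩
  have m3 : ∀ v, lay P S T v = 3 → v ∈ upS P T := fun v hv => by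
    rw [← f3]; exact mem_filter.mpr ⟨mem_univ _, hv⟩
  have nS : ∀ v, v ∈ dnS P S → v ∈ nbS P S := fun v hv => by
    rw [nbS_eq]; exact mem_union_left _ hv
  have nS' : ∀ v, v ∈ upS P S → v ∈ nbS P S := fun v hv => by
    rw [nbS_eq]; exact mem_union_right _ hv
  have nT : ∀ v, v ∈ dnS P T → v ∈ nbS P T := fun v hv => by
    rw [nbS_eq]; exact mem_union_left _ hv
  have nT' : ∀ v, v ∈ upS P T → v ∈ nbS P T := fun v hv => by
    rw [nbS_eq]; exact mem_union_right _ hv
  have hsub : irrPairs P (lay P S T) ⊆ (farPairs P S ∪ farPairs P T) ∪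
      ((univ.filter (fun v => lay P S T v = 4)) ×ˢ univ ∪
        univ ×ˢ (univ.filter (fun v => lay P S T v = 4))) := by
    rintro ⟨x, y⟩ hxy
    obtain ⟨hc, hr⟩ := hirr x y hxy
    change P.cov x y at hc
    change ¬ reg5 (lay P S T x) (lay P S T y) at hr
    unfold reg5 at hr
    rw [mem_union, mem_union, mem_union, mem_product, mem_product]
    change ((x, y) ∈ farPairs P S ∨ (x, y) ∈ farPairs P T) ∨
      (x ∈ univ.filter (fun v => lay P S T v = 4) ∧ y ∈ univ) ∨
        (x ∈ univ ∧ y ∈ univ.filter (fun v => lay P S T v = 4))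
    have hi : lay P S T x = 0 ∨ lay P S T x = 1 ∨ lay P S T x = 2 ∨ lay P S T x = 3 ∨
        lay P S T x = 4 := by
      generalize lay P S T x = i
      revert i; decide
    have hj : lay P S T y = 0 ∨ lay P S T y = 1 ∨ lay P S T y = 2 ∨ lay P S T y = 3 ∨
        lay P S T y = 4 := by
      generalize lay P S T y = i
      revert i; decide
    have r01 : lay P S T x = 0 → lay P S T y ≠ 1 := fun a b => hr (Or.inl ⟨a, b⟩)
    have r12 : lay P S T x = 1 → lay P S T y ≠ 2 := fun a b => hr (Or.inr (Or.inl ⟨a, b⟩))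
    have r23 : lay P S T x = 2 → lay P S T y ≠ 3 := fun a b => hr (Or.inr (Or.inr ⟨a, b⟩))
    clear hr
    rcases hi with hi | hi | hi | hi | hi
    · rcases hj with hj | hj | hj | hj | hj
      · exact Or.inl (Or.inl (mem_farPairs_of_cov (nS _ (m0 _ hi)) (nS _ (m0 _ hj)) hc))
      · exact (r01 hi hj).elim
      · exact Or.inl (Or.inl (mem_farPairs_of_cov (nS _ (m0 _ hi)) (nS' _ (m2 _ hj)) hc))
      · exact ((lay_03 hS hT h _ (m0 _ hi) _ (m3 _ hj)).2 hc).elim
      · exact Or.inr (Or.inr ⟨mem_univ _, mem_filter.mpr ⟨mem_univ _, hj⟩⟩)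
    · rcases hj with hj | hj | hj | hj | hj
      · exact (lay_or10 hT h _ (m1 _ hi) _ (m0 _ hj) hc.1).elim
      · exact Or.inl (Or.inr (mem_farPairs_of_cov (nT _ (m1 _ hi)) (nT _ (m1 _ hj)) hc))
      · exact (r12 hi hj).elim
      · exact Or.inl (Or.inr (mem_farPairs_of_cov (nT _ (m1 _ hi)) (nT' _ (m3 _ hj)) hc))
      · exact Or.inr (Or.inr ⟨mem_univ _, mem_filter.mpr ⟨mem_univ _, hj⟩⟩)
    · rcases hj with hj | hj | hj | hj | hj
      · exact Or.inl (Or.inl (mem_farPairs_of_cov (nS' _ (m2 _ hi)) (nS _ (m0 _ hj)) hc))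
      · exact (lay_or21 h _ (m2 _ hi) _ (m1 _ hj) hc.1).elim
      · exact Or.inl (Or.inl (mem_farPairs_of_cov (nS' _ (m2 _ hi)) (nS' _ (m2 _ hj)) hc))
      · exact (r23 hi hj).elim
      · exact Or.inr (Or.inr ⟨mem_univ _, mem_filter.mpr ⟨mem_univ _, hj⟩⟩)
    · rcases hj with hj | hj | hj | hj | hj
      · exact (P.asymm (lay_03 hS hT h _ (m0 _ hj) _ (m3 _ hi)).1 hc.1).elim
      · exact Or.inl (Or.inr (mem_farPairs_of_cov (nT' _ (m3 _ hi)) (nT _ (m1 _ hj)) hc))
      · exact (lay_or32 hS h _ (m3 _ hi) _ (m2 _ hj) hc.1).elim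
      · exact Or.inl (Or.inr (mem_farPairs_of_cov (nT' _ (m3 _ hi)) (nT' _ (m3 _ hj)) hc))
      · exact Or.inr (Or.inr ⟨mem_univ _, mem_filter.mpr ⟨mem_univ _, hj⟩⟩)
    · exact Or.inr (Or.inl ⟨mem_filter.mpr ⟨mem_univ _, hi⟩, mem_univ _⟩)
  have h1 := card_le_card hsub
  have h2 := card_union_le (farPairs P S ∪ farPairs P T)
      ((univ.filter (fun v => lay P S T v = 4)) ×ˢ univ ∪
        univ ×ˢ (univ.filter (fun v => lay P S T v = 4)))
  have h3 := card_union_le (farPairs P S) (farPairs P T)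
  have h4 := card_union_le ((univ.filter (fun v => lay P S T v = 4)) ×ˢ (univ : Finset V))
        ((univ : Finset V) ×ˢ (univ.filter (fun v => lay P S T v = 4)))
  rw [card_product, card_product, card_univ] at h4
  have h5 : 2 * lsz (lay P S T) 4 * Fintype.card V =
      (univ.filter (fun v => lay P S T v = 4)).card * Fintype.card V +
        Fintype.card V * (univ.filter (fun v => lay P S T v = 4)).card := by
    unfold lsz; ring
  omega

end

end Pool.KR87
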