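import Pool.Agent.KR87.Base

set_option autoImplicit false
set_option linter.unusedSectionVars false

/-!
# KR87/Low: lower bound for the number of orders

`m = n / 2`, `l = (n - m) / 2`.  For each partition `V = L₁ ∪ M ∪ L₃` with `|M| = m`, `|L₁| = l` take
the orders in which all pairs of `L₁ × L₃` are comparable, the relations `L₁ × M` and `M × L₃` are
arbitrary, except that every point of `M` has a point of `L₁` below it and a point of `L₃` above it.
The partition is recovered (`L₁` is the set of the minimal, `L₃` of the maximal elements).  So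
`pn n ≥ C(n, m) C(n - m, l) ((2 ^ l - 1) (2 ^ (n - m - l) - 1)) ^ m`, `C(N, N / 2) ≥ 2 ^ N / (N + 1)`.
-/

namespace Pool.KR87

open Finset

namespace Low

/-- The order with the layers `L`, `M \ L` and the rest, the relations given by `f` and `g`. -/
def mk {V : Type} (M L : Finset V) (f g : V → Finset V) : SO V where
  lt x y := (x ∈ L ∧ y ∉ L ∧ y ∉ M) ∨ (x ∈ L ∧ y ∉ L ∧ y ∈ M ∧ x ∈ f y) ∨
    (x ∉ L ∧ x ∈ M ∧ y ∉ L ∧ y ∉ M ∧ y ∈ g x)
  irr x h := by tauto
  tr x y z h1 h2 := by tauto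

variable {V : Type} [Fintype V] [DecidableEq V]

/-- the lists of relations -/
def rels (M A : Finset V) : Finset (V → Finset V) :=
  Fintype.piFinset (fun v => if v ∈ M then A.powerset.erase ∅ else {∅})

theorem card_rels (M A : Finset V) : (rels M A).card = (2 ^ A.card - 1) ^ M.card := by
  unfold rels
  rw [Fintype.card_piFinset]
  have h : ∀ v : V, (if v ∈ M then A.powerset.erase ∅ else ({∅} : Finset (Finset V))).card =
      if v ∈ M then 2 ^ A.card - 1 else 1 := by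
    intro v
    split_ifs
    · rw [card_erase_of_mem (by simp), card_powerset]
    · simp
  rw [prod_congr rfl (fun v _ => h v), prod_ite]
  simp

theorem mem_rels {M A : Finset V} {f : V → Finset V} :
    f ∈ rels M A ↔ (∀ v ∈ M, (f v).Nonempty ∧ f v ⊆ A) ∧ ∀ v, v ∉ M → f v = ∅ := by
  unfold rels
  rw [Fintype.mem_piFinset]
  constructor
  · intro h
    refine ⟨fun v hv => ?_, fun v hv => ?_⟩
    · have := h v
      rw [if_pos hv, mem_erase, mem_powerset] at this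
      exact ⟨nonempty_iff_ne_empty.2 this.1, this.2⟩
    · have := h v
      rw [if_neg hv, mem_singleton] at this
      exact this
  · rintro ⟨h1, h2⟩ v
    split_ifs with hv
    · rw [mem_erase, mem_powerset]
      exact ⟨nonempty_iff_ne_empty.1 (h1 v hv).1, (h1 v hv).2⟩
    · rw [mem_singleton]
      exact h2 v hv

/-- the data -/
def data (V : Type) [Fintype V] [DecidableEq V] (m l : ℕ) :
    Finset (Σ _ : Finset V, Σ _ : Finset V, (V → Finset V) × (V → Finset V)) :=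
  (powersetCard m univ).sigma (fun M => (powersetCard l Mᶜ).sigma (fun L =>
    rels M L ×ˢ rels M (M ∪ L)ᶜ))

theorem card_data (m l : ℕ) :
    (data V m l).card = (Fintype.card V).choose m * ((Fintype.card V - m).choose l *
      ((2 ^ l - 1) ^ m * (2 ^ (Fintype.card V - m - l) - 1) ^ m)) := by
  unfold data
  rw [card_sigma]
  have h : ∀ M ∈ powersetCard m (univ : Finset V),
      ((powersetCard l Mᶜ).sigma (fun L => rels M L ×ˢ rels M (M ∪ L)ᶜ)).card =
      (Fintype.card V - m).choose l *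
      ((2 ^ l - 1) ^ m * (2 ^ (Fintype.card V - m - l) - 1) ^ m) := by
    intro M hM
    have hM' := (mem_powersetCard.1 hM).2
    rw [card_sigma]
    have h2 : ∀ L ∈ powersetCard l Mᶜ, (rels M L ×ˢ rels M (M ∪ L)ᶜ).card =
        (2 ^ l - 1) ^ m * (2 ^ (Fintype.card V - m - l) - 1) ^ m := by
      intro L hL
      obtain ⟨hL1, hL2⟩ := mem_powersetCard.1 hL
      have hd : Disjoint M L := by
        rw [disjoint_left]
        intro x hx hx'
        exact (mem_compl.1 (hL1 hx')) hx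
      rw [card_product, card_rels, card_rels, card_compl, card_union_of_disjoint hd, hM', hL2,
        Nat.sub_sub]
    rw [sum_congr rfl h2, sum_const, card_powersetCard, card_compl, hM', smul_eq_mul]
  rw [sum_congr rfl h, sum_const, card_powersetCard, card_univ, smul_eq_mul]

theorem inj {m l : ℕ} (hl : 1 ≤ l) {M L M' L' : Finset V} {f g f' g' : V → Finset V}
    (h : (⟨M, ⟨L, (f, g)⟩⟩ : Σ _ : Finset V, Σ _ : Finset V, (V → Finset V) × (V → Finset V)) ∈
      data V m l)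
    (h' : (⟨M', ⟨L', (f', g')⟩⟩ : Σ _ : Finset V, Σ _ : Finset V,
      (V → Finset V) × (V → Finset V)) ∈ data V m l)
    (he : mk M L f g = mk M' L' f' g') : M = M' ∧ L = L' ∧ f = f' ∧ g = g' := by
  have key : ∀ {M L : Finset V} {f g : V → Finset V},
      (⟨M, ⟨L, (f, g)⟩⟩ : Σ _ : Finset V, Σ _ : Finset V, (V → Finset V) × (V → Finset V)) ∈
      data V m l → (∀ x, x ∈ L ↔ ∀ y, ¬ (mk M L f g).lt y x) ∧
        (∀ x, x ∈ M ↔ x ∉ L ∧ ∃ y, (mk M L f g).lt x y) ∧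
        (∀ v ∈ M, ∀ x, x ∈ f v ↔ (mk M L f g).lt x v) ∧
        (∀ v ∈ M, ∀ x, x ∈ g v ↔ (mk M L f g).lt v x) ∧
        (∀ v, v ∉ M → f v = ∅ ∧ g v = ∅) := by
    intro M L f g h
    unfold data at h
    simp only [mem_sigma, mem_product, mem_rels, mem_powersetCard, subset_univ, true_and] at h
    obtain ⟨hM, ⟨hL1, hL2⟩, ⟨hf1, hf2⟩, ⟨hg1, hg2⟩⟩ := h
    have hd : ∀ x ∈ L, x ∉ M := fun x hx => mem_compl.1 (hL1 hx)
    obtain ⟨x0, hx0⟩ : L.Nonempty := by rw [← card_pos, hL2]; exact hl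
    have hg3 : ∀ v ∈ M, ∀ x ∈ g v, x ∉ M ∧ x ∉ L := by
      intro v hv x hx
      have := (hg1 v hv).2 hx
      rw [mem_compl, mem_union] at this
      tauto
    refine ⟨fun x => ⟨fun hx y hy => ?_, fun hx => ?_⟩, fun x => ⟨fun hx => ?_, fun hx => ?_⟩,
      fun v hv x => ?_, fun v hv x => ?_, fun v hv => ⟨hf2 v hv, hg2 v hv⟩⟩
    · simp only [mk] at hy
      tauto
    · by_contra hxL
      by_cases hxM : x ∈ M
      · obtain ⟨y, hy⟩ := (hf1 x hxM).1
        exact hx y (Or.inr (Or.inl ⟨(hf1 x hxM).2 hy, hxL, hxM, hy⟩))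
      · exact hx x0 (Or.inl ⟨hx0, hxL, hxM⟩)
    · have hxL : x ∉ L := fun h1 => hd x h1 hx
      obtain ⟨y, hy⟩ := (hg1 x hx).1
      exact ⟨hxL, y, Or.inr (Or.inr ⟨hxL, hx, (hg3 x hx y hy).2, (hg3 x hx y hy).1, hy⟩)⟩
    · obtain ⟨hxL, y, hy⟩ := hx
      simp only [mk] at hy
      tauto
    · have hvL : v ∉ L := fun h1 => hd v h1 hv
      have := @(hf1 v hv).2 x
      simp only [mk]
      tauto
    · have hvL : v ∉ L := fun h1 => hd v h1 hv
      have := hg3 v hv x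
      simp only [mk]
      tauto
  obtain ⟨a1, a2, a3, a4, a5⟩ := key h
  obtain ⟨b1, b2, b3, b4, b5⟩ := key h'
  have hL : L = L' := by
    ext x
    rw [a1, b1, he]
  subst hL
  have hM : M = M' := by
    ext x
    rw [a2, b2, he]
  subst hM
  refine ⟨rfl, rfl, ?_, ?_⟩
  · funext v
    by_cases hv : v ∈ M
    · ext x
      rw [a3 v hv, b3 v hv, he]
    · rw [(a5 v hv).1, (b5 v hv).1]
  · funext v
    by_cases hv : v ∈ M
    · ext x
      rw [a4 v hv, b4 v hv, he]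
    · rw [(a5 v hv).2, (b5 v hv).2]

theorem le_pn {m l : ℕ} (hl : 1 ≤ l) (n : ℕ) :
    n.choose m * ((n - m).choose l * ((2 ^ l - 1) ^ m * (2 ^ (n - m - l) - 1) ^ m)) ≤ pn n := by
  have h := card_data (V := Fin n) m l
  rw [Fintype.card_fin] at h
  rw [← h]
  unfold pn
  rw [← card_univ]
  apply card_le_card_of_injOn (fun d => mk d.1 d.2.1 d.2.2.1 d.2.2.2)
  · intro d _
    simp
  · rintro ⟨M, L, f, g⟩ hd ⟨M', L', f', g'⟩ hd' he
    obtain ⟨rfl, rfl, rfl, rfl⟩ := inj hl (mem_coe.1 hd) (mem_coe.1 hd') he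
    rfl

theorem two_pow_le (N : ℕ) : 2 ^ N ≤ (N + 1) * N.choose (N / 2) := by
  rw [← Nat.sum_range_choose]
  calc ∑ k ∈ range (N + 1), N.choose k ≤ ∑ _k ∈ range (N + 1), N.choose (N / 2) :=
        sum_le_sum (fun k _ => Nat.choose_le_middle k N)
    _ = (N + 1) * N.choose (N / 2) := by simp

theorem bern (a m : ℕ) (h : 2 * m ≤ 2 ^ a) : (2 ^ a) ^ m ≤ 2 * (2 ^ a - 1) ^ m := by
  have h1 : (1 : ℕ) ≤ 2 ^ a := Nat.one_le_two_pow
  have h2 : ((2 : ℝ) ^ a) ^ m ≤ 2 * (2 ^ a - 1) ^ m := by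
    have hp : (0 : ℝ) < 2 ^ a := by positivity
    have h3 : (2 * m : ℝ) ≤ 2 ^ a := by exact_mod_cast h
    have h4 := one_add_mul_le_pow (a := -(1 / (2 : ℝ) ^ a)) (by
      have : 1 / (2 : ℝ) ^ a ≤ 1 := by
        rw [div_le_one hp]; exact one_le_pow₀ (by norm_num)
      linarith) m
    have h5 : (1 : ℝ) / 2 ≤ 1 + m * -(1 / (2 : ℝ) ^ a) := by
      have : m * (1 / (2 : ℝ) ^ a) ≤ 1 / 2 := by
        rw [mul_one_div, div_le_div_iff₀ hp (by norm_num)]
        linarith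
      linarith
    have h6 : ((2 : ℝ) ^ a - 1) = 2 ^ a * (1 + -(1 / (2 : ℝ) ^ a)) := by
      field_simp
      ring
    rw [h6, mul_pow]
    have h7 : (0 : ℝ) < (2 ^ a) ^ m := by positivity
    nlinarith [h5.trans h4]
  have h8 : ((2 ^ a - 1 : ℕ) : ℝ) = (2 : ℝ) ^ a - 1 := by
    rw [Nat.cast_sub h1]; simp
  have : (((2 ^ a) ^ m : ℕ) : ℝ) ≤ ((2 * (2 ^ a - 1) ^ m : ℕ) : ℝ) := by
    rw [Nat.cast_mul, Nat.cast_pow (2 ^ a - 1) m, h8]
    push_cast
    exact h2
  exact_mod_cast this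

theorem four_mul_le (l : ℕ) (h : 5 ≤ l) : 4 * l + 2 ≤ 2 ^ l := by
  induction l, h using Nat.le_induction with
  | base => norm_num
  | succ l h ih => rw [pow_succ]; omega

end Low

theorem pn_lower : ∃ N : ℕ, ∀ n ≥ N,
    (2 : ℝ) ^ ((n : ℝ) ^ 2 / 4 + 3 * n / 2) ≤ 8 * ((n : ℝ) + 1) ^ 2 * pn n := by
  refine ⟨20, fun n hn => ?_⟩
  obtain ⟨m, hm⟩ : ∃ m, m = n / 2 := ⟨_, rfl⟩
  obtain ⟨k, hk⟩ : ∃ k, k = n - m := ⟨_, rfl⟩
  obtain ⟨l, hl⟩ : ∃ l, l = k / 2 := ⟨_, rfl⟩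
  have h1 := Low.le_pn (m := m) (l := l) (by omega) n
  rw [← hk] at h1
  have hl5 : 5 ≤ l := by omega
  have h2 := Low.four_mul_le l hl5
  have h3 := Low.bern l m (by omega)
  have h4 := Low.bern (k - l) m (by
    have : 2 ^ l ≤ 2 ^ (k - l) := Nat.pow_le_pow_right (by norm_num) (by omega)
    omega)
  have h5 : 2 ^ n ≤ (n + 1) * n.choose m := by rw [hm]; exact Low.two_pow_le n
  have h6 : 2 ^ k ≤ (n + 1) * k.choose l := by
    rw [hl]
    exact (Low.two_pow_le k).trans (Nat.mul_le_mul_right _ (by omega))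
  have h7 : 2 ^ (n + k + k * m) ≤ 4 * (n + 1) ^ 2 * pn n := by
    have h8 : 2 ^ (n + k + k * m) = 2 ^ n * (2 ^ k * ((2 ^ l) ^ m * (2 ^ (k - l)) ^ m)) := by
      rw [← pow_mul, ← pow_mul, ← pow_add, ← pow_add, ← pow_add, ← add_mul]
      congr 1
      have : l + (k - l) = k := by omega
      rw [this]
      ring
    rw [h8]
    calc 2 ^ n * (2 ^ k * ((2 ^ l) ^ m * (2 ^ (k - l)) ^ m))
        ≤ ((n + 1) * n.choose m) * (((n + 1) * k.choose l) *
          ((2 * (2 ^ l - 1) ^ m) * (2 * (2 ^ (k - l) - 1) ^ m))) := by gcongr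
      _ = 4 * (n + 1) ^ 2 * (n.choose m * (k.choose l *
          ((2 ^ l - 1) ^ m * (2 ^ (k - l) - 1) ^ m))) := by ring
      _ ≤ 4 * (n + 1) ^ 2 * pn n := by gcongr
  have h9 : ((n : ℝ) ^ 2 / 4 + 3 * n / 2) ≤ ((n + k + k * m : ℕ) : ℝ) := by
    have hc : k = m ∨ k = m + 1 := by omega
    have hn' : n = m + k := by omega
    push_cast
    rw [hn']
    rcases hc with rfl | rfl
    · push_cast
      nlinarith
    · push_cast
      nlinarith
  calc (2 : ℝ) ^ ((n : ℝ) ^ 2 / 4 + 3 * n / 2) ≤ (2 : ℝ) ^ (((n + k + k * m : ℕ) : ℝ)) :=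
        Real.rpow_le_rpow_of_exponent_le (by norm_num) h9
    _ = ((2 ^ (n + k + k * m) : ℕ) : ℝ) := by
        rw [Real.rpow_natCast]; push_cast; rfl
    _ ≤ ((4 * (n + 1) ^ 2 * pn n : ℕ) : ℝ) := by exact_mod_cast h7
    _ = 4 * ((n : ℝ) + 1) ^ 2 * pn n := by push_cast; ring
    _ ≤ 8 * ((n : ℝ) + 1) ^ 2 * pn n := by gcongr; norm_num

end Pool.KR87
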