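import Pool.Agent.KR87.Base

set_option autoImplicit false
set_option linter.unusedSectionVars false

/-!
# KR87/LowA: combinatorial part of the lower bound for the number of orders
-/

namespace Pool.KR87

open Finset

section

variable {V : Type} [Fintype V] [DecidableEq V]

/-- functions that take nonempty subsets of `L` as values on `M`, and are empty outside `M` -/
def lowF (M L : Finset V) : Finset (V → Finset V) :=
  Fintype.piFinset (fun x => if x ∈ M then L.powerset.erase ∅ else {∅})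

theorem mem_lowF {M L : Finset V} {f : V → Finset V} :
    f ∈ lowF M L ↔ ∀ x, (x ∈ M → f x ≠ ∅ ∧ f x ⊆ L) ∧ (x ∉ M → f x = ∅) := by
  unfold lowF
  rw [Fintype.mem_piFinset]
  refine forall_congr' (fun x => ?_)
  by_cases hx : x ∈ M <;> simp [hx]

theorem card_lowF (M L : Finset V) : (lowF M L).card = (2 ^ L.card - 1) ^ M.card := by
  unfold lowF
  rw [Fintype.card_piFinset]
  have h1 : ∀ x : V, (if x ∈ M then L.powerset.erase ∅ else {∅} : Finset (Finset V)).card =
      if x ∈ M then (2 ^ L.card - 1) else 1 := by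
    intro x
    by_cases hx : x ∈ M
    · rw [if_pos hx, if_pos hx, card_erase_of_mem (empty_mem_powerset L), card_powerset]
    · rw [if_neg hx, if_neg hx, card_singleton]
  rw [Finset.prod_congr rfl (fun x _ => h1 x), Finset.prod_ite_mem, univ_inter, prod_const]

/-- the data of the orders counted in the lower bound -/
def lowT (V : Type) [Fintype V] [DecidableEq V] (m l : ℕ) :
    Finset (Σ _ : Finset V, Σ _ : Finset V, (V → Finset V) × (V → Finset V)) :=
  (powersetCard m univ).sigma (fun M => (powersetCard l (univ \ M)).sigma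
    (fun L => lowF M L ×ˢ lowF M ((univ \ M) \ L)))

theorem card_lowT (m l : ℕ) : (lowT V m l).card = (Fintype.card V).choose m *
    (Fintype.card V - m).choose l *
      ((2 ^ l - 1) * (2 ^ (Fintype.card V - m - l) - 1)) ^ m := by
  unfold lowT
  rw [card_sigma]
  have h1 : ∀ M ∈ powersetCard m (univ : Finset V), ((powersetCard l (univ \ M)).sigma
      (fun L => lowF M L ×ˢ lowF M ((univ \ M) \ L))).card =
      (Fintype.card V - m).choose l * ((2 ^ l - 1) * (2 ^ (Fintype.card V - m - l) - 1)) ^ m := by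
    intro M hM
    rw [mem_powersetCard] at hM
    have hMc : (univ \ M : Finset V).card = Fintype.card V - m := by
      rw [card_sdiff_of_subset (subset_univ M), card_univ, hM.2]
    rw [card_sigma]
    have h2 : ∀ L ∈ powersetCard l (univ \ M : Finset V),
        (lowF M L ×ˢ lowF M ((univ \ M) \ L)).card =
        ((2 ^ l - 1) * (2 ^ (Fintype.card V - m - l) - 1)) ^ m := by
      intro L hL
      rw [mem_powersetCard] at hL
      have hLc : ((univ \ M : Finset V) \ L).card = Fintype.card V - m - l := by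
        rw [card_sdiff_of_subset hL.1, hMc, hL.2]
      rw [card_product, card_lowF, card_lowF, hLc, hL.2, hM.2, ← mul_pow]
    rw [sum_congr rfl h2, sum_const, card_powersetCard, hMc, smul_eq_mul]
  rw [sum_congr rfl h1, sum_const, card_powersetCard, card_univ, smul_eq_mul, mul_assoc]

open Classical in
/-- the data read off from an order -/
noncomputable def lowR (P : SO V) :
    Σ _ : Finset V, Σ _ : Finset V, (V → Finset V) × (V → Finset V) :=
  ⟨univ.filter (fun x => (∃ y, P.lt y x) ∧ ∃ y, P.lt x y), univ.filter (fun x => ¬ ∃ y, P.lt y x),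
    fun x => if (∃ y, P.lt y x) ∧ ∃ y, P.lt x y then univ.filter (fun y => P.lt y x) else ∅,
    fun x => if (∃ y, P.lt y x) ∧ ∃ y, P.lt x y then univ.filter (fun y => P.lt x y) else ∅⟩

theorem lowT_subset {m l : ℕ} (hl : 1 ≤ l) (hm : m + l + 1 ≤ Fintype.card V) :
    lowT V m l ⊆ univ.image (lowR (V := V)) := by
  rintro ⟨M, L, f, g⟩ h
  simp only [lowT, mem_sigma, mem_powersetCard, mem_product, mem_lowF] at h
  obtain ⟨⟨-, hM⟩, ⟨hLM, hL⟩, hf, hg⟩ := h
  have dLM : ∀ x, x ∈ L → x ∉ M := fun x hx => (mem_sdiff.1 (hLM hx)).2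
  have hU : ∀ x, x ∈ (univ \ M) \ L ↔ x ∉ M ∧ x ∉ L := by
    intro x; simp
  have hfL : ∀ x y, x ∈ M → y ∈ f x → y ∈ L := fun x y hx hy => ((hf x).1 hx).2 hy
  have hgU : ∀ x y, x ∈ M → y ∈ g x → y ∉ M ∧ y ∉ L := fun x y hx hy =>
    (hU y).1 (((hg x).1 hx).2 hy)
  obtain ⟨l0, hl0⟩ : L.Nonempty := by
    rw [← card_pos]; omega
  obtain ⟨u0, hu0⟩ : ((univ \ M) \ L : Finset V).Nonempty := by
    rw [← card_pos, card_sdiff_of_subset hLM, card_sdiff_of_subset (subset_univ M), card_univ]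
    omega
  rw [hU] at hu0
  let P : SO V :=
    { lt := fun x y => (x ∈ L ∧ y ∉ M ∧ y ∉ L) ∨ (y ∈ M ∧ x ∈ f y) ∨ (x ∈ M ∧ y ∈ g x)
      irr := by
        rintro x (⟨h1, -, h2⟩ | ⟨h1, h2⟩ | ⟨h1, h2⟩)
        · exact h2 h1
        · exact dLM x (hfL x x h1 h2) h1
        · exact (hgU x x h1 h2).1 h1
      tr := by
        rintro x y z (⟨h1, h2, h3⟩ | ⟨h1, h2⟩ | ⟨h1, h2⟩) (⟨h4, h5, h6⟩ | ⟨h4, h5⟩ | ⟨h4, h5⟩)
        · exact absurd h4 h3
        · exact absurd (hfL z y h4 h5) h3
        · exact absurd h4 h2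
        · exact absurd h1 (dLM y h4)
        · exact absurd h1 (dLM y (hfL z y h4 h5))
        · exact Or.inl ⟨hfL y x h1 h2, hgU y z h4 h5⟩
        · exact absurd h4 (hgU x y h1 h2).2
        · exact absurd (hfL z y h4 h5) (hgU x y h1 h2).2
        · exact absurd h4 (hgU x y h1 h2).1 }
  have hlt : ∀ x y, P.lt x y ↔ (x ∈ L ∧ y ∉ M ∧ y ∉ L) ∨ (y ∈ M ∧ x ∈ f y) ∨ (x ∈ M ∧ y ∈ g x) :=
    fun x y => Iff.rfl
  have hmin : ∀ x, (∃ y, P.lt y x) ↔ x ∉ L := by
    intro x
    constructor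
    · rintro ⟨y, h⟩ hx
      rw [hlt] at h
      rcases h with ⟨-, -, h⟩ | ⟨h, -⟩ | ⟨h1, h2⟩
      · exact h hx
      · exact dLM x hx h
      · exact (hgU y x h1 h2).2 hx
    · intro hx
      by_cases hxM : x ∈ M
      · obtain ⟨y, hy⟩ := nonempty_iff_ne_empty.2 ((hf x).1 hxM).1
        exact ⟨y, Or.inr (Or.inl ⟨hxM, hy⟩)⟩
      · exact ⟨l0, Or.inl ⟨hl0, hxM, hx⟩⟩
  have hmax : ∀ x, (∃ y, P.lt x y) ↔ x ∈ L ∨ x ∈ M := by
    intro x
    constructor
    · rintro ⟨y, h⟩
      rw [hlt] at h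
      rcases h with ⟨h, -, -⟩ | ⟨h1, h2⟩ | ⟨h, -⟩
      · exact Or.inl h
      · exact Or.inl (hfL y x h1 h2)
      · exact Or.inr h
    · rintro (hx | hx)
      · exact ⟨u0, Or.inl ⟨hx, hu0.1, hu0.2⟩⟩
      · obtain ⟨y, hy⟩ := nonempty_iff_ne_empty.2 ((hg x).1 hx).1
        exact ⟨y, Or.inr (Or.inr ⟨hx, hy⟩)⟩
  have hmid : ∀ x, ((∃ y, P.lt y x) ∧ ∃ y, P.lt x y) ↔ x ∈ M := by
    intro x
    rw [hmin, hmax]
    constructor
    · rintro ⟨h1, h2 | h2⟩
      · exact absurd h2 h1
      · exact h2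
    · intro h
      exact ⟨fun h1 => dLM x h1 h, Or.inr h⟩
  rw [mem_image]
  refine ⟨P, mem_univ _, ?_⟩
  classical
  have e1 : (univ.filter (fun x => (∃ y, P.lt y x) ∧ ∃ y, P.lt x y)) = M := by
    ext x; simp [hmid]
  have e2 : (univ.filter (fun x => ¬ ∃ y, P.lt y x)) = L := by
    ext x
    rw [mem_filter, hmin]
    simp
  have e3 : (fun x => if (∃ y, P.lt y x) ∧ ∃ y, P.lt x y then univ.filter (fun y => P.lt y x)
      else ∅) = f := by
    funext x
    by_cases hx : x ∈ M
    · rw [if_pos ((hmid x).2 hx)]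
      ext y
      rw [mem_filter, hlt]
      constructor
      · rintro ⟨-, ⟨-, h, -⟩ | ⟨-, h⟩ | ⟨h1, h2⟩⟩
        · exact absurd hx h
        · exact h
        · exact absurd hx (hgU y x h1 h2).1
      · intro h
        exact ⟨mem_univ _, Or.inr (Or.inl ⟨hx, h⟩)⟩
    · rw [if_neg (fun h => hx ((hmid x).1 h)), (hf x).2 hx]
  have e4 : (fun x => if (∃ y, P.lt y x) ∧ ∃ y, P.lt x y then univ.filter (fun y => P.lt x y)
      else ∅) = g := by
    funext x
    by_cases hx : x ∈ M
    · rw [if_pos ((hmid x).2 hx)]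
      ext y
      rw [mem_filter, hlt]
      constructor
      · rintro ⟨-, ⟨h, -⟩ | ⟨h1, h2⟩ | ⟨-, h⟩⟩
        · exact absurd hx (dLM x h)
        · exact absurd hx (dLM x (hfL y x h1 h2))
        · exact h
      · intro h
        exact ⟨mem_univ _, Or.inr (Or.inr ⟨hx, h⟩)⟩
    · rw [if_neg (fun h => hx ((hmid x).1 h)), (hg x).2 hx]
  unfold lowR
  congr 1
  · convert e1
  · congr 1
    · convert e2
    · congr 1
      · convert e3
      · convert e4

end

theorem pn_ge (n m l : ℕ) (hl : 1 ≤ l) (hm : m + l + 1 ≤ n) :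
    n.choose m * (n - m).choose l * ((2 ^ l - 1) * (2 ^ (n - m - l) - 1)) ^ m ≤ pn n := by
  classical
  have h1 := card_lowT (V := Fin n) m l
  rw [Fintype.card_fin] at h1
  rw [← h1]
  have h2 := lowT_subset (V := Fin n) (m := m) (l := l) hl (by rw [Fintype.card_fin]; exact hm)
  refine (card_le_card h2).trans (card_image_le.trans ?_)
  unfold pn
  exact (card_univ).le

end Pool.KR87
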