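import Pool.Agent.KR87.Lay

set_option autoImplicit false
set_option linter.unusedSectionVars false

/-!
# KR87/MkCore: the core structure

By `h5` (with `f = lay P S T`; the irregular covers are few by `irr_card_le` and `h3b`) layer `0` or
layer `3` has fewer than `b` points.  By `h4` and `exists_anti_of_not_Mat` each layer contains an
antichain that misses at most `2 g` of its points.  If layer `0` is small take
`(S, T, A, M, B) = (S, T, L₁, L₂, L₃)` (antichain parts), if layer `3` is small take
`(T, S, L₀, L₁, L₂)`.
-/

namespace Pool.KR87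

open Finset

section

variable {V : Type} [Fintype V] [DecidableEq V]

/-- delete the points of a maximal family of disjoint comparable pairs -/
theorem exists_anti_of_not_Mat {P : SO V} {W : Finset V} {g : ℕ} (h : ¬ Mat P W g) :
    ∃ W' ⊆ W, P.anti W' ∧ W.card ≤ W'.card + 2 * g := by
  classical
  induction g with
  | zero =>
    exact absurd ⟨fun i => i.elim0, fun i => i.elim0, fun i => i.elim0, fun i => i.elim0,
      fun i => i.elim0, fun i => i.elim0, fun i => i.elim0, fun i => i.elim0⟩ h
  | succ g ih =>
    by_cases hg : Mat P W g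
    · obtain ⟨a, b, ha, hb, hab, haW, hbW, hlt⟩ := hg
      refine ⟨W \ (univ.image a ∪ univ.image b), sdiff_subset, ?_, ?_⟩
      · intro x hx y hy hxy
        simp only [mem_sdiff, mem_union, mem_image, mem_univ, true_and, not_or, not_exists] at hx hy
        apply h
        refine ⟨Fin.cons x a, Fin.cons y b, ?_, ?_, ?_, ?_, ?_, ?_⟩
        · rw [Fin.cons_injective_iff]
          exact ⟨fun ⟨i, hi⟩ => hx.2.1 i hi, ha⟩
        · rw [Fin.cons_injective_iff]
          exact ⟨fun ⟨i, hi⟩ => hy.2.2 i hi, hb⟩
        · intro i j
          refine Fin.cases ?_ (fun i => ?_) i <;> refine Fin.cases ?_ (fun j => ?_) j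
          · simp only [Fin.cons_zero]
            intro hh
            rw [hh] at hxy
            exact P.irr _ hxy
          · simp only [Fin.cons_zero, Fin.cons_succ]
            exact fun hh => hx.2.2 j hh.symm
          · simp only [Fin.cons_zero, Fin.cons_succ]
            exact fun hh => hy.2.1 i hh
          · simp only [Fin.cons_succ]
            exact hab i j
        · intro i
          refine Fin.cases ?_ (fun i => ?_) i
          · simpa using hx.1
          · simpa using haW i
        · intro i
          refine Fin.cases ?_ (fun i => ?_) i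
          · simpa using hy.1
          · simpa using hbW i
        · intro i
          refine Fin.cases ?_ (fun i => ?_) i
          · simpa using hxy
          · simpa using hlt i
      · have h1 : (univ.image a ∪ univ.image b).card ≤ 2 * g := by
          refine (card_union_le _ _).trans ?_
          have h2 : (univ.image a).card ≤ g := card_image_le.trans (by simp)
          have h3 : (univ.image b).card ≤ g := card_image_le.trans (by simp)
          omega
        have h4 := le_card_sdiff (univ.image a ∪ univ.image b) W
        omega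
    · obtain ⟨W', h1, h2, h3⟩ := ih hg
      exact ⟨W', h1, h2, by omega⟩

private theorem up_sub (P : SO V) (Q : Finset V) : upS P Q ⊆ nbS P Q := by
  rw [nbS_eq]; exact subset_union_right

private theorem dn_sub (P : SO V) (Q : Finset V) : dnS P Q ⊆ nbS P Q := by
  rw [nbS_eq]; exact subset_union_left

theorem exists_core {P : SO V} {K m3 m4 g t b u z : ℕ} (hK : 0 < K) {S T : Finset V}
    (hS : S.card = K) (hT : T.card = K) (hcov : ∀ s ∈ S, ∀ t ∈ T, P.cov s t)
    (h3 : Exp K m3 P) (h4 : ¬ E4 K m4 g P) (h3b : ¬ E3b K m4 t P) (h5 : ¬ E5 m4 b u P)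
    (hn : Fintype.card V ≤ m3 + m4)
    (hu : 2 * (Fintype.card V - 2 * m3) * Fintype.card V + 4 * t * Fintype.card V ≤ u)
    (hz : Fintype.card V - 2 * m3 + b + 6 * g ≤ z) :
    ∃ S' T' A M B, Core K z m3 P S' T' A M B := by
  classical
  have hSn : S.Nonempty := card_pos.mp (hS ▸ hK)
  have hTn : T.Nonempty := card_pos.mp (hT ▸ hK)
  have aS := lay_anti_S hTn hcov
  have aT := lay_anti_T hSn hcov
  have eS : m3 < (nbS P S).card := h3 S hS.ge aS
  have eT : m3 < (nbS P T).card := h3 T hT.ge aT
  obtain ⟨l0, l1, l2, l3, sS, sT, tot⟩ := lay_sizes hSn hTn hcov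
  have hS4 : (nbS P S).card ≤ m4 := by omega
  have hT4 : (nbS P T).card ≤ m4 := by omega
  have fS : (farPairs P S).card < 2 * t * Fintype.card V := by
    by_contra h
    exact h3b ⟨S, hS, aS, hS4, not_lt.mp h⟩
  have fT : (farPairs P T).card < 2 * t * Fintype.card V := by
    by_contra h
    exact h3b ⟨T, hT, aT, hT4, not_lt.mp h⟩
  have irr := irr_card_le hSn hTn hcov
  have hirr : (irrPairs P (lay P S T)).card ≤ u := by
    have h1 : 2 * lsz (lay P S T) 4 * Fintype.card V ≤
        2 * (Fintype.card V - 2 * m3) * Fintype.card V := by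
      apply Nat.mul_le_mul_right
      omega
    have h2 : 4 * t * Fintype.card V = 2 * t * Fintype.card V + 2 * t * Fintype.card V := by ring
    omega
  have h5' : lsz (lay P S T) 0 < b ∨ lsz (lay P S T) 3 < b := by
    by_contra h
    push Not at h
    exact h5 ⟨lay P S T, h.1, h.2, by omega, by omega, hirr⟩
  have mS : ¬ (Mat P (upS P S) g ∨ Mat P (dnS P S) g) := fun h => h4 ⟨S, hS, aS, hS4, h⟩
  have mT : ¬ (Mat P (upS P T) g ∨ Mat P (dnS P T) g) := fun h => h4 ⟨T, hT, aT, hT4, h⟩
  rw [not_or] at mS mT
  obtain ⟨L2, s2, a2, c2⟩ := exists_anti_of_not_Mat mS.1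
  obtain ⟨L0, s0, a0, c0⟩ := exists_anti_of_not_Mat mS.2
  obtain ⟨L3, s3, a3, c3⟩ := exists_anti_of_not_Mat mT.1
  obtain ⟨L1, s1, a1, c1⟩ := exists_anti_of_not_Mat mT.2
  have hadj : ∀ s ∈ S, ∀ t ∈ T, P.adj s t := fun s hs t ht => Or.inl (hcov s hs t ht)
  have hd := disjoint_nbS_of_adj hadj
  rcases h5' with h | h
  · refine ⟨S, T, L1, L2, L3, ?_⟩
    exact
      { cS := hS
        cT := hT
        aS := aS
        aT := aT
        adj := hadj
        aA := a1
        aM := a2
        aB := a3
        dAM := (hd.mono (s2.trans (up_sub P S)) (s1.trans (dn_sub P T))).symm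
        dAB := (disjoint_dnS_upS aT).mono s1 s3
        dMB := hd.mono (s2.trans (up_sub P S)) (s3.trans (up_sub P T))
        oMA := fun x hx y hy => lay_or21 hcov x (s2 hx) y (s1 hy)
        oBM := fun x hx y hy => lay_or32 hSn hcov x (s3 hx) y (s2 hy)
        oBA := fun x hx y hy => lay_or31 hSn hcov x (s3 hx) y (s1 hy)
        sM := s2.trans (up_sub P S)
        sA := s1
        sB := s3
        cM := by omega
        cZ := by omega }
  · refine ⟨T, S, L0, L1, L2, ?_⟩
    exact
      { cS := hT
        cT := hS
        aS := aT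
        aT := aS
        adj := fun s hs t ht => P.adj_comm.mp (hadj t ht s hs)
        aA := a0
        aM := a1
        aB := a2
        dAM := hd.mono (s0.trans (dn_sub P S)) (s1.trans (dn_sub P T))
        dAB := (disjoint_dnS_upS aS).mono s0 s2
        dMB := (hd.mono (s2.trans (up_sub P S)) (s1.trans (dn_sub P T))).symm
        oMA := fun x hx y hy => lay_or10 hTn hcov x (s1 hx) y (s0 hy)
        oBM := fun x hx y hy => lay_or21 hcov x (s2 hx) y (s1 hy)
        oBA := fun x hx y hy => lay_or20 hTn hcov x (s2 hx) y (s0 hy)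
        sM := s1.trans (dn_sub P T)
        sA := s0
        sB := s2
        cM := by omega
        cZ := by omega }

end

end Pool.KR87
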