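import Pool.Agent.KR87.Kst
import Pool.Agent.KR87.MkCore
import Pool.Agent.KR87.Asm

set_option autoImplicit false
set_option linter.unusedSectionVars false

/-!
# KR87/Typ: the deterministic part

An order outside all the events has three layers, or four with nonempty outer layers.
-/

namespace Pool.KR87

open Finset

/-- a four-layer order has three layers or nonempty outer layers -/
private theorem typ_gob {V : Type} {P : SO V} {f : V → Fin 4} (hf : Lay4 P f) :
    Good P ∨ Both P := by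
  by_cases h0 : ∃ x, f x = 0
  · by_cases h3 : ∃ y, f y = 3
    · exact Or.inr ⟨f, hf, h0, h3⟩
    · left
      push Not at h3
      have h3' : ∀ v, (f v : ℕ) < 3 := by
        intro v
        have h1 := (f v).isLt
        have h2 := h3 v
        have h4 : (f v : ℕ) ≠ 3 := fun h => h2 (Fin.ext h)
        omega
      refine ⟨fun v => ⟨(f v : ℕ), h3' v⟩, ?_⟩
      intro x y hxy
      exact hf x y hxy
  · left
    push Not at h0
    have h0' : ∀ v, 1 ≤ (f v : ℕ) := by
      intro v
      have h2 := h0 v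
      have h4 : (f v : ℕ) ≠ 0 := fun h => h2 (Fin.ext h)
      omega
    refine ⟨fun v => ⟨(f v : ℕ) - 1, by have := (f v).isLt; have := h0' v; omega⟩, ?_⟩
    intro x y hxy
    have h1 := hf x y hxy
    have h2 := h0' x
    have h3 := h0' y
    simp only
    omega

/-- the deterministic part: an order outside all the events has three layers, or four with nonempty
outer layers -/
theorem typical (k L : ℕ) (hk : 0 < k) (hkL : k + 2 = 8 * L) : ∃ N : ℕ, ∀ n ≥ N,
    ∀ P : SO (Fin n), ¬ E2 (n / 32) P → ¬ E3 k (n / 2 - n / 2 ^ 29) P →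
      ¬ E4 (k + 2) (n - (n / 2 - n / 2 ^ 29)) (4 * (n / 2 ^ 29)) P →
      ¬ E3b (k + 2) (n - (n / 2 - n / 2 ^ 29)) (16 * (n / 2 ^ 29)) P →
      ¬ E5 (n - (n / 2 - n / 2 ^ 29)) (n / 256) (70 * (n / 2 ^ 29) * n) P →
      ¬ E6 (k + 2) (n / 4 + n / 256) (n / 64 + n / 128) P →
      ¬ E7 (k + 2) (n - (n / 2 - n / 2 ^ 29)) (n / 128) P → Good P ∨ Both P := by
  obtain ⟨N0, hN0⟩ := kst (k + 2) 32
  refine ⟨N0 + 2 ^ 29 + 1024 * k, ?_⟩
  intro n hn P h2 h3 h4 h3b h5 h6 h7
  have hcard : Fintype.card (Fin n) = n := Fintype.card_fin n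
  obtain ⟨D, hD⟩ : ∃ D, n / 2 ^ 29 = D := ⟨_, rfl⟩
  rw [hD] at h3 h4 h3b h5 h7
  have hD1 : 1 ≤ D := by
    rw [← hD, Nat.one_le_div_iff (by norm_num)]
    omega
  have hD2 : 536870912 * D ≤ n := by
    rw [← hD]
    calc 536870912 * (n / 2 ^ 29) = 2 ^ 29 * (n / 2 ^ 29) := by norm_num
      _ ≤ n := Nat.mul_div_le _ _
  have hnk : 1024 * k ≤ n := by omega
  have hn29 : 536870912 ≤ n := by
    have : (2 : ℕ) ^ 29 = 536870912 := by norm_num
    omega
  clear hD
  have hE : Exp k (n / 2 - D) P := exp_of_not_E3 h3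
  have hE' : Exp (k + 2) (n / 2 - D) P := fun Q hQ hA => hE Q (by omega) hA
  obtain ⟨S, T, hS, hT, hcov⟩ := hN0 (Fin n) P (by rw [hcard]; omega) (by
    intro v
    rw [hcard]
    have h1 : ¬ (nb P v).card ≤ n / 32 := fun h => h2 ⟨v, h⟩
    omega)
  obtain ⟨S', T', A, M, B, hC⟩ := exists_core (K := k + 2) (m3 := n / 2 - D)
    (m4 := n - (n / 2 - D)) (g := 4 * D) (t := 16 * D) (b := n / 256) (u := 70 * D * n)
    (z := n / 256 + 27 * D) (by omega) hS hT hcov hE' h4 h3b h5
    (by rw [hcard]; omega)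
    (by
      rw [hcard]
      have h1 : n - 2 * (n / 2 - D) ≤ 1 + 2 * D := by omega
      calc 2 * (n - 2 * (n / 2 - D)) * n + 4 * (16 * D) * n
          ≤ 2 * (1 + 2 * D) * n + 4 * (16 * D) * n := by gcongr
        _ = (2 + 68 * D) * n := by ring
        _ ≤ (70 * D) * n := Nat.mul_le_mul_right _ (by omega))
    (by rw [hcard]; omega)
  obtain ⟨f, hf⟩ := hC.lay4 (m6 := n / 4 + n / 256) (e6 := n / 64 + n / 128)
    (m7 := n - (n / 2 - D)) (e7 := n / 128) (s := n / 64) (e := n / 32) h2 hE h6 h7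
    (by rw [hcard]; omega) (by rw [hcard]; omega) (by rw [hcard]; omega) (by rw [hcard]; omega)
    (by rw [hcard]; omega) (by rw [hcard]; omega) (by omega) (by omega) hk
    (by rw [hcard]; omega)
  exact typ_gob hf

end Pool.KR87
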