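import Pool.Agent.KR87.MainB
import Pool.Agent.KR87.Typ

set_option autoImplicit false

/-!
# KR87/Main: the exponential Kleitman-Rothschild theorem

Parameters: `D = n / 2 ^ 29`, `m3 = n / 2 - D`, `m4 = m7 = n - m3`, `g = 4 D`, `t = 16 D`, `b = n / 256`,
`u = 70 D n`, `z = n / 256 + 27 D`, `e = n / 32`, `s = n / 64`, `e7 = n / 128`, `m6 = n / 4 + n / 256`,
`e6 = n / 64 + n / 128`, `K = k + 2 = 8 L = 2 ^ 32` (`K`, `k`, `L` are kept opaque).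
-/

namespace Pool.KR87

/-- the exponential Kleitman-Rothschild theorem, explicit rate -/
theorem kr_exp40 : ∃ N : ℕ, ∀ n ≥ N,
    (cnt (fun P : SO (Fin n) => ¬ Good P) : ℝ) ≤ (2 : ℝ) ^ (-(1 / 40 : ℝ) * n) * pn n := by
  obtain ⟨L, hL⟩ : ∃ L : ℕ, L = 2 ^ 29 := ⟨_, rfl⟩
  obtain ⟨k, hk⟩ : ∃ k : ℕ, k + 2 = 8 * L := ⟨8 * L - 2, by omega⟩
  exact kr_exp_of_typical k L hk hL.ge (typical k L (by omega) hk)

/-- the exponential Kleitman-Rothschild theorem -/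
theorem kr_exp : ∃ c : ℝ, 0 < c ∧ ∃ N : ℕ, ∀ n ≥ N,
    (cnt (fun P : SO (Fin n) => ¬ Good P) : ℝ) ≤ (2 : ℝ) ^ (-c * n) * pn n :=
  ⟨1 / 40, by norm_num, kr_exp40⟩

end Pool.KR87
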