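import Pool.Agent.KR87.Comb

set_option autoImplicit false
set_option linter.unusedSectionVars false

/-!
# KR87/NumA: numbers for `E2`, `E6`, `E7` (use `BS_mul_le` with `x` near `m / N`)

`BS n (n / 32) ≤ 2 ^ (0.201 n + 5)`, `BS n (n / 64 + n / 128) ≤ 2 ^ (0.161 n + 5)`,
`BS n (n / 128) ≤ 2 ^ (0.067 n + 5)`; `3 ≤ 2 ^ 1.585`; polynomial factors are absorbed for large `n`.
`m7 = n - m3` with `m3 = n / 2 - n / 2 ^ 29`, `m6 = n / 4 + n / 256`.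
-/

namespace Pool.KR87

open Finset

/-- Polynomial factors are absorbed by an exponential. -/
theorem numA_poly (K : ℕ) (C ε : ℝ) (hC : 0 ≤ C) (hε : 0 < ε) :
    ∃ N : ℕ, ∀ n ≥ N, C * ((n : ℝ) + 1) ^ K ≤ (2 : ℝ) ^ (ε * (n : ℝ)) := by
  have hr : (1 : ℝ) < (2 : ℝ) ^ ε := Real.one_lt_rpow (by norm_num) hε
  have h := (tendsto_pow_const_div_const_pow_of_one_lt K hr).const_mul (C * 2 ^ K)
  rw [mul_zero] at h
  have h2 := h.eventually (gt_mem_nhds (show (0 : ℝ) < 1 by norm_num))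
  obtain ⟨N, hN⟩ := Filter.eventually_atTop.1 h2
  refine ⟨max N 1, fun n hn => ?_⟩
  have h3 := hN n (le_trans (le_max_left _ _) hn)
  have hn1 : (1 : ℝ) ≤ n := by
    have : 1 ≤ n := le_trans (le_max_right _ _) hn
    exact_mod_cast this
  have hpos : (0 : ℝ) < ((2 : ℝ) ^ ε) ^ n := by positivity
  have h4 : C * 2 ^ K * ((n : ℝ) ^ K) ≤ ((2 : ℝ) ^ ε) ^ n := by
    have h5 : C * 2 ^ K * ((n : ℝ) ^ K / ((2 : ℝ) ^ ε) ^ n) ≤ 1 := h3.le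
    rw [← mul_div_assoc, div_le_one hpos] at h5
    exact h5
  have h6 : ((n : ℝ) + 1) ^ K ≤ 2 ^ K * (n : ℝ) ^ K := by
    rw [← mul_pow]
    apply pow_le_pow_left₀ (by positivity)
    linarith
  calc C * ((n : ℝ) + 1) ^ K ≤ C * (2 ^ K * (n : ℝ) ^ K) := mul_le_mul_of_nonneg_left h6 hC
    _ = C * 2 ^ K * ((n : ℝ) ^ K) := by ring
    _ ≤ ((2 : ℝ) ^ ε) ^ n := h4
    _ = (2 : ℝ) ^ (ε * (n : ℝ)) := by rw [Real.rpow_mul (by norm_num), Real.rpow_natCast]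

theorem numA_pow {a c : ℝ} (ha : 0 ≤ a) (h : a ≤ (2 : ℝ) ^ c) (n : ℕ) :
    a ^ n ≤ (2 : ℝ) ^ (c * (n : ℝ)) := by
  rw [Real.rpow_mul (by norm_num), Real.rpow_natCast]
  exact pow_le_pow_left₀ ha h n

theorem numA_BS {c : ℝ} (j n m : ℕ) (h : 1 + (1 / 2 : ℝ) ^ j ≤ (2 : ℝ) ^ c) :
    (BS n m : ℝ) ≤ (2 : ℝ) ^ (c * (n : ℝ) + (j : ℝ) * (m : ℝ)) := by
  have hx0 : (0 : ℝ) < (1 / 2 : ℝ) ^ j := by positivity
  have hx1 : (1 / 2 : ℝ) ^ j ≤ 1 := pow_le_one₀ (by norm_num) (by norm_num)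
  have h1 := BS_mul_le n m ((1 / 2 : ℝ) ^ j) hx0 hx1
  have h2 : (1 + (1 / 2 : ℝ) ^ j) ^ n ≤ (2 : ℝ) ^ (c * (n : ℝ)) :=
    numA_pow (by positivity) h n
  have h3 : ((1 / 2 : ℝ) ^ j) ^ m * (2 : ℝ) ^ ((j : ℝ) * (m : ℝ)) = 1 := by
    rw [Real.rpow_mul (by norm_num), Real.rpow_natCast, Real.rpow_natCast, ← mul_pow, ← mul_pow]
    norm_num
  have h4 : (0 : ℝ) < (2 : ℝ) ^ ((j : ℝ) * (m : ℝ)) := by positivity
  calc (BS n m : ℝ) = (((1 / 2 : ℝ) ^ j) ^ m * (2 : ℝ) ^ ((j : ℝ) * (m : ℝ))) * (BS n m : ℝ) := by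
        rw [h3, one_mul]
    _ = (((1 / 2 : ℝ) ^ j) ^ m * (BS n m : ℝ)) * (2 : ℝ) ^ ((j : ℝ) * (m : ℝ)) := by ring
    _ ≤ (2 : ℝ) ^ (c * (n : ℝ)) * (2 : ℝ) ^ ((j : ℝ) * (m : ℝ)) :=
        mul_le_mul_of_nonneg_right (h1.trans h2) h4.le
    _ = (2 : ℝ) ^ (c * (n : ℝ) + (j : ℝ) * (m : ℝ)) := by
        rw [← Real.rpow_add (by norm_num)]

theorem numA_root {a : ℝ} (k : ℕ) (hk : k ≠ 0) (ha : 0 ≤ a) (h : a ^ k ≤ 2) :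
    a ≤ (2 : ℝ) ^ (1 / (k : ℝ)) := by
  have h1 : a = (a ^ k) ^ (1 / (k : ℝ)) := by
    rw [← Real.rpow_natCast, ← Real.rpow_mul ha]
    rw [mul_one_div_cancel (by exact_mod_cast hk), Real.rpow_one]
  rw [h1]
  exact Real.rpow_le_rpow (by positivity) h (by positivity)

theorem numA_33 : 1 + (1 / 2 : ℝ) ^ 5 ≤ (2 : ℝ) ^ (1 / 16 : ℝ) := by
  have := numA_root (a := 1 + (1 / 2 : ℝ) ^ 5) 16 (by norm_num) (by positivity) (by norm_num)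
  simpa using this

theorem numA_129 : 1 + (1 / 2 : ℝ) ^ 7 ≤ (2 : ℝ) ^ (1 / 64 : ℝ) := by
  have := numA_root (a := 1 + (1 / 2 : ℝ) ^ 7) 64 (by norm_num) (by positivity) (by norm_num)
  simpa using this

theorem numA_3 : (3 : ℝ) ≤ (2 : ℝ) ^ (8 / 5 : ℝ) := by
  have h1 : (3 : ℝ) = ((3 : ℝ) ^ (5 : ℕ)) ^ (1 / 5 : ℝ) := by
    rw [← Real.rpow_natCast, ← Real.rpow_mul (by norm_num)]
    norm_num
  have h2 : (2 : ℝ) ^ (8 / 5 : ℝ) = ((2 : ℝ) ^ (8 : ℕ)) ^ (1 / 5 : ℝ) := by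
    rw [← Real.rpow_natCast, ← Real.rpow_mul (by norm_num)]
    norm_num
  rw [h2, h1]
  exact Real.rpow_le_rpow (by positivity) (by norm_num) (by positivity)

theorem num_E2 : ∃ N : ℕ, ∀ n ≥ N,
    ((n * (3 * BS n (n / 32)) : ℕ) : ℝ) ≤ (2 : ℝ) ^ ((1 / 2 - 1 / 20) * (n : ℝ)) := by
  obtain ⟨N, hN⟩ := numA_poly 1 3 (1 / 5) (by norm_num) (by norm_num)
  refine ⟨N, fun n hn => ?_⟩
  have h1 := hN n hn
  have h2 := numA_BS (c := 1 / 16) 5 n (n / 32) numA_33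
  have h3 : ((n / 32 : ℕ) : ℝ) ≤ (n : ℝ) / 32 := by
    have := @Nat.cast_div_le ℝ _ _ _ n 32
    simpa using this
  have hn0 : (0 : ℝ) ≤ n := Nat.cast_nonneg n
  have hB : (0 : ℝ) ≤ (BS n (n / 32) : ℝ) := Nat.cast_nonneg _
  push_cast
  calc (n : ℝ) * (3 * (BS n (n / 32) : ℝ)) ≤ (3 * ((n : ℝ) + 1) ^ 1) * (BS n (n / 32) : ℝ) := by
        nlinarith
    _ ≤ (2 : ℝ) ^ ((1 / 5 : ℝ) * (n : ℝ)) * (2 : ℝ) ^ ((1 / 16 : ℝ) * (n : ℝ) + ((5 : ℕ) : ℝ) *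
          ((n / 32 : ℕ) : ℝ)) := mul_le_mul h1 h2 hB (by positivity)
    _ = (2 : ℝ) ^ ((1 / 5 : ℝ) * (n : ℝ) + ((1 / 16 : ℝ) * (n : ℝ) + ((5 : ℕ) : ℝ) *
          ((n / 32 : ℕ) : ℝ))) := by rw [← Real.rpow_add (by norm_num)]
    _ ≤ (2 : ℝ) ^ ((1 / 2 - 1 / 20) * (n : ℝ)) := by
        apply Real.rpow_le_rpow_of_exponent_le (by norm_num)
        push_cast
        linarith

theorem num_E6 (K : ℕ) : ∃ N : ℕ, ∀ n ≥ N,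
    ((n * ((n + 1) ^ K * (2 * (3 * (2 ^ (n / 4 + n / 256) * BS n (n / 64 + n / 128))))) : ℕ) : ℝ) ≤
      (2 : ℝ) ^ ((1 / 2 - 1 / 20) * (n : ℝ)) := by
  obtain ⟨N, hN⟩ := numA_poly (K + 1) 6 (1 / 64) (by norm_num) (by norm_num)
  refine ⟨N, fun n hn => ?_⟩
  have h1 := hN n hn
  have h2 := numA_BS (c := 1 / 16) 5 n (n / 64 + n / 128) numA_33
  have h3 : ((n / 64 : ℕ) : ℝ) ≤ (n : ℝ) / 64 := by
    have := @Nat.cast_div_le ℝ _ _ _ n 64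
    simpa using this
  have h3' : ((n / 128 : ℕ) : ℝ) ≤ (n : ℝ) / 128 := by
    have := @Nat.cast_div_le ℝ _ _ _ n 128
    simpa using this
  have h4 : ((n / 4 : ℕ) : ℝ) ≤ (n : ℝ) / 4 := by
    have := @Nat.cast_div_le ℝ _ _ _ n 4
    simpa using this
  have h5 : ((n / 256 : ℕ) : ℝ) ≤ (n : ℝ) / 256 := by
    have := @Nat.cast_div_le ℝ _ _ _ n 256
    simpa using this
  have hn0 : (0 : ℝ) ≤ n := Nat.cast_nonneg n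
  have hB : (0 : ℝ) ≤ (BS n (n / 64 + n / 128) : ℝ) := Nat.cast_nonneg _
  have h6 : (2 : ℝ) ^ (n / 4 + n / 256 : ℕ) = (2 : ℝ) ^ (((n / 4 : ℕ) : ℝ) + ((n / 256 : ℕ) : ℝ)) := by
    rw [← Nat.cast_add, Real.rpow_natCast]
  push_cast
  rw [h6]
  have h7 : (n : ℝ) * ((n : ℝ) + 1) ^ K ≤ ((n : ℝ) + 1) ^ (K + 1) := by
    rw [pow_succ, mul_comm]
    exact mul_le_mul_of_nonneg_left (by linarith) (by positivity)
  calc (n : ℝ) * (((n : ℝ) + 1) ^ K * (2 * (3 * ((2 : ℝ) ^ (((n / 4 : ℕ) : ℝ) + ((n / 256 : ℕ) : ℝ)) *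
        (BS n (n / 64 + n / 128) : ℝ)))))
      = (6 * ((n : ℝ) * ((n : ℝ) + 1) ^ K)) * ((2 : ℝ) ^ (((n / 4 : ℕ) : ℝ) + ((n / 256 : ℕ) : ℝ)) *
        (BS n (n / 64 + n / 128) : ℝ)) := by ring
    _ ≤ (6 * ((n : ℝ) + 1) ^ (K + 1)) * ((2 : ℝ) ^ (((n / 4 : ℕ) : ℝ) + ((n / 256 : ℕ) : ℝ)) *
        (BS n (n / 64 + n / 128) : ℝ)) := by
        apply mul_le_mul_of_nonneg_right _ (by positivity)
        linarith
    _ ≤ (2 : ℝ) ^ ((1 / 64 : ℝ) * (n : ℝ)) * ((2 : ℝ) ^ (((n / 4 : ℕ) : ℝ) + ((n / 256 : ℕ) : ℝ)) *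
        (2 : ℝ) ^ ((1 / 16 : ℝ) * (n : ℝ) + ((5 : ℕ) : ℝ) * ((n / 64 + n / 128 : ℕ) : ℝ))) := by
        apply mul_le_mul h1 _ (by positivity) (by positivity)
        exact mul_le_mul_of_nonneg_left h2 (by positivity)
    _ = (2 : ℝ) ^ ((1 / 64 : ℝ) * (n : ℝ) + ((((n / 4 : ℕ) : ℝ) + ((n / 256 : ℕ) : ℝ)) +
        ((1 / 16 : ℝ) * (n : ℝ) + ((5 : ℕ) : ℝ) * ((n / 64 + n / 128 : ℕ) : ℝ)))) := by
        rw [← Real.rpow_add (by norm_num), ← Real.rpow_add (by norm_num)]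
    _ ≤ (2 : ℝ) ^ ((1 / 2 - 1 / 20) * (n : ℝ)) := by
        apply Real.rpow_le_rpow_of_exponent_le (by norm_num)
        push_cast
        linarith

theorem num_E7 (K : ℕ) : ∃ N : ℕ, ∀ n ≥ N,
    ((n * n * ((n + 1) ^ K * (9 * (3 ^ (n - (n / 2 - n / 2 ^ 29)) *
      (BS n (n / 128) * BS n (n / 128))))) : ℕ) : ℝ) ≤ (2 : ℝ) ^ ((1 - 1 / 20) * (n : ℝ)) := by
  obtain ⟨N, hN⟩ := numA_poly (K + 2) 18 (9 / 1000) (by norm_num) (by norm_num)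
  refine ⟨N, fun n hn => ?_⟩
  have h1 := hN n hn
  have h2 := numA_BS (c := 1 / 64) 7 n (n / 128) numA_129
  have h3 : ((n / 128 : ℕ) : ℝ) ≤ (n : ℝ) / 128 := by
    have := @Nat.cast_div_le ℝ _ _ _ n 128
    simpa using this
  have h4 : ((n / 2 ^ 29 : ℕ) : ℝ) ≤ (n : ℝ) / 2 ^ 29 := by
    have := @Nat.cast_div_le ℝ _ _ _ n (2 ^ 29)
    norm_num at this ⊢
    exact this
  have hn0 : (0 : ℝ) ≤ n := Nat.cast_nonneg n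
  have hB : (0 : ℝ) ≤ (BS n (n / 128) : ℝ) := Nat.cast_nonneg _
  set e : ℕ := n - (n / 2 - n / 2 ^ 29) with he
  have h5 : (e : ℝ) ≤ (n : ℝ) / 2 + 1 / 2 + (n : ℝ) / 2 ^ 29 := by
    have h6 : 2 * e ≤ n + 1 + 2 * (n / 2 ^ 29) := by omega
    have h7 : (2 : ℝ) * (e : ℝ) ≤ (n : ℝ) + 1 + 2 * ((n / 2 ^ 29 : ℕ) : ℝ) := by exact_mod_cast h6
    linarith
  have h6 : (3 : ℝ) ^ e ≤ (2 : ℝ) ^ ((8 / 5 : ℝ) * (e : ℝ)) := numA_pow (by norm_num) numA_3 e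
  have h7 : (n : ℝ) * n * ((n : ℝ) + 1) ^ K ≤ ((n : ℝ) + 1) ^ (K + 2) := by
    have : (n : ℝ) * n ≤ ((n : ℝ) + 1) ^ 2 := by nlinarith
    calc (n : ℝ) * n * ((n : ℝ) + 1) ^ K ≤ ((n : ℝ) + 1) ^ 2 * ((n : ℝ) + 1) ^ K :=
          mul_le_mul_of_nonneg_right this (by positivity)
      _ = ((n : ℝ) + 1) ^ (K + 2) := by ring
  push_cast
  calc (n : ℝ) * n * (((n : ℝ) + 1) ^ K * (9 * ((3 : ℝ) ^ e *
        ((BS n (n / 128) : ℝ) * (BS n (n / 128) : ℝ)))))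
      = (1 / 2) * ((18 * ((n : ℝ) * n * ((n : ℝ) + 1) ^ K)) * ((3 : ℝ) ^ e *
        ((BS n (n / 128) : ℝ) * (BS n (n / 128) : ℝ)))) := by ring
    _ ≤ (1 / 2) * ((18 * ((n : ℝ) + 1) ^ (K + 2)) * ((3 : ℝ) ^ e *
        ((BS n (n / 128) : ℝ) * (BS n (n / 128) : ℝ)))) := by
        apply mul_le_mul_of_nonneg_left _ (by norm_num)
        apply mul_le_mul_of_nonneg_right _ (by positivity)
        linarith
    _ ≤ (1 / 2) * ((2 : ℝ) ^ ((9 / 1000 : ℝ) * (n : ℝ)) * ((2 : ℝ) ^ ((8 / 5 : ℝ) * (e : ℝ)) *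
        ((2 : ℝ) ^ ((1 / 64 : ℝ) * (n : ℝ) + ((7 : ℕ) : ℝ) * ((n / 128 : ℕ) : ℝ)) *
        (2 : ℝ) ^ ((1 / 64 : ℝ) * (n : ℝ) + ((7 : ℕ) : ℝ) * ((n / 128 : ℕ) : ℝ))))) := by
        apply mul_le_mul_of_nonneg_left _ (by norm_num)
        apply mul_le_mul h1 _ (by positivity) (by positivity)
        apply mul_le_mul h6 _ (by positivity) (by positivity)
        exact mul_le_mul h2 h2 hB (by positivity)
    _ = (1 / 2) * (2 : ℝ) ^ ((9 / 1000 : ℝ) * (n : ℝ) + ((8 / 5 : ℝ) * (e : ℝ) +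
        (((1 / 64 : ℝ) * (n : ℝ) + ((7 : ℕ) : ℝ) * ((n / 128 : ℕ) : ℝ)) +
        ((1 / 64 : ℝ) * (n : ℝ) + ((7 : ℕ) : ℝ) * ((n / 128 : ℕ) : ℝ))))) := by
        rw [← Real.rpow_add (by norm_num), ← Real.rpow_add (by norm_num),
          ← Real.rpow_add (by norm_num)]
    _ ≤ (1 / 2) * (2 : ℝ) ^ (1 + (1 - 1 / 20) * (n : ℝ)) := by
        apply mul_le_mul_of_nonneg_left _ (by norm_num)
        apply Real.rpow_le_rpow_of_exponent_le (by norm_num)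
        push_cast
        have h8 : (n : ℝ) / 2 ^ 29 ≤ (n : ℝ) / 100000000 :=
          div_le_div_of_nonneg_left hn0 (by norm_num) (by norm_num)
        linarith
    _ = (2 : ℝ) ^ ((1 - 1 / 20) * (n : ℝ)) := by
        rw [Real.rpow_add (by norm_num), Real.rpow_one]
        ring

end Pool.KR87
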