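import Pool.Agent.KR87.Comb

set_option autoImplicit false
set_option linter.unusedSectionVars false

/-!
# KR87/NumB: numbers for `E3`, `E4`, `E3b`

`D = n / 2 ^ 29`, `m3 = n / 2 - D`, `m4 = n - m3`, `g = 4 D`, `t = 16 D`; `k D ≥ 2 n`-like bounds because
`k ≥ 2 ^ 31`, `K ≥ 2 ^ 32`.  (`log2 3 ≤ 1.585`, so `3 ^ g 2 ^ (m4 - 2 g) ≤ 2 ^ (m4 - 0.415 g)` and
`m4 - 1.66 D ≤ n / 2 + 1 - 0.66 D`.)
-/

namespace Pool.KR87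

open Finset

/-- polynomials are eventually smaller than `2 ^ (c n)` -/
theorem numB_poly (k : ℕ) (C c : ℝ) (hC : 0 < C) (hc : 0 < c) :
    ∃ N : ℕ, ∀ n ≥ N, (n : ℝ) ^ k * C ≤ (2 : ℝ) ^ (c * (n : ℝ)) := by
  have hr : (1 : ℝ) < (2 : ℝ) ^ c := Real.one_lt_rpow (by norm_num) hc
  have ht := tendsto_pow_const_div_const_pow_of_one_lt k hr
  have h1 : ∀ᶠ n : ℕ in Filter.atTop, (n : ℝ) ^ k / ((2 : ℝ) ^ c) ^ n < 1 / C :=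
    ht.eventually_lt_const (by positivity)
  obtain ⟨N, hN⟩ := Filter.eventually_atTop.1 h1
  refine ⟨N, fun n hn => ?_⟩
  have h2 := hN n hn
  have h3 : (0 : ℝ) < ((2 : ℝ) ^ c) ^ n := by positivity
  rw [div_lt_div_iff₀ h3 hC, one_mul] at h2
  have h4 : (2 : ℝ) ^ (c * (n : ℝ)) = ((2 : ℝ) ^ c) ^ n := by
    rw [Real.rpow_mul (by norm_num), Real.rpow_natCast]
  rw [h4]
  exact h2.le

/-- rounding in `n / 2 ^ 29` -/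
theorem numB_D (n : ℕ) : (n : ℝ) / 2 ^ 29 - 1 ≤ ((n / 2 ^ 29 : ℕ) : ℝ) ∧
    ((n / 2 ^ 29 : ℕ) : ℝ) ≤ (n : ℝ) / 2 ^ 29 := by
  have h1 : n < (n / 2 ^ 29 + 1) * 2 ^ 29 := by omega
  have h2 : n / 2 ^ 29 * 2 ^ 29 ≤ n := by omega
  have h3 : (n : ℝ) < (((n / 2 ^ 29 : ℕ) : ℝ) + 1) * 2 ^ 29 := by exact_mod_cast h1
  have h4 : ((n / 2 ^ 29 : ℕ) : ℝ) * 2 ^ 29 ≤ (n : ℝ) := by exact_mod_cast h2
  constructor
  · rw [sub_le_iff_le_add, div_le_iff₀ (by norm_num)]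
    exact h3.le
  · rw [le_div_iff₀ (by norm_num)]
    exact h4

theorem num_E3 (k : ℕ) (hk : 2 ^ 31 ≤ k) : ∃ N : ℕ, ∀ n ≥ N,
    ((n ^ k * (3 ^ k * (2 ^ n * 2 ^ (k * (n / 2 - n / 2 ^ 29)))) : ℕ) : ℝ) ≤
      (2 : ℝ) ^ (((k : ℝ) / 2 - 1 / 20) * (n : ℝ)) := by
  have hk' : (2 : ℝ) ^ 31 ≤ (k : ℝ) := by exact_mod_cast hk
  obtain ⟨N, hN⟩ := numB_poly k ((3 : ℝ) ^ k * 2 ^ k) ((k : ℝ) / 2 ^ 29 - 1 - 1 / 20)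
    (by positivity) (by
      have : (4 : ℝ) ≤ (k : ℝ) / 2 ^ 29 := by
        rw [le_div_iff₀ (by norm_num)]
        norm_num at hk' ⊢
        exact hk'
      linarith)
  refine ⟨N, fun n hn => ?_⟩
  have h1 := hN n hn
  obtain ⟨hD1, hD2⟩ := numB_D n
  have he : ((n / 2 - n / 2 ^ 29 : ℕ) : ℝ) ≤ (n : ℝ) / 2 - (n : ℝ) / 2 ^ 29 + 1 := by
    have a1 : n / 2 ^ 29 ≤ n / 2 := by omega
    rw [Nat.cast_sub a1]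
    have a2 : ((n / 2 : ℕ) : ℝ) ≤ (n : ℝ) / 2 := Nat.cast_div_le
    linarith
  have h2 : (2 : ℝ) ^ n * (2 : ℝ) ^ (k * (n / 2 - n / 2 ^ 29)) ≤
      (2 : ℝ) ^ ((n : ℝ) + (k : ℝ) * ((n : ℝ) / 2 - (n : ℝ) / 2 ^ 29 + 1)) := by
    rw [← pow_add, ← Real.rpow_natCast]
    apply Real.rpow_le_rpow_of_exponent_le (by norm_num)
    rw [Nat.cast_add, Nat.cast_mul]
    have := mul_le_mul_of_nonneg_left he (Nat.cast_nonneg (α := ℝ) k)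
    linarith
  have h3 : (2 : ℝ) ^ (((k : ℝ) / 2 - 1 / 20) * (n : ℝ)) =
      (2 : ℝ) ^ (((k : ℝ) / 2 ^ 29 - 1 - 1 / 20) * (n : ℝ)) *
      ((2 : ℝ) ^ ((n : ℝ) + (k : ℝ) * ((n : ℝ) / 2 - (n : ℝ) / 2 ^ 29 + 1)) / 2 ^ k) := by
    rw [← Real.rpow_natCast 2 k, ← Real.rpow_sub (by norm_num), ← Real.rpow_add (by norm_num)]
    congr 1
    ring
  push_cast
  calc (n : ℝ) ^ k * (3 ^ k * (2 ^ n * 2 ^ (k * (n / 2 - n / 2 ^ 29))))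
      ≤ (n : ℝ) ^ k * (3 ^ k *
        ((2 : ℝ) ^ ((n : ℝ) + (k : ℝ) * ((n : ℝ) / 2 - (n : ℝ) / 2 ^ 29 + 1)))) := by
        gcongr
    _ = ((n : ℝ) ^ k * (3 ^ k * 2 ^ k)) *
        ((2 : ℝ) ^ ((n : ℝ) + (k : ℝ) * ((n : ℝ) / 2 - (n : ℝ) / 2 ^ 29 + 1)) / 2 ^ k) := by
        have : (2 : ℝ) ^ k ≠ 0 := by positivity
        field_simp
    _ ≤ _ := by
        rw [h3]
        exact mul_le_mul_of_nonneg_right h1 (by positivity)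

theorem num_E4 (K : ℕ) (hK : 2 ^ 32 ≤ K) : ∃ N : ℕ, ∀ n ≥ N,
    ((n ^ K * (3 ^ K * (2 * (4 ^ n * (3 ^ (4 * (n / 2 ^ 29)) *
      2 ^ (n - (n / 2 - n / 2 ^ 29) - 2 * (4 * (n / 2 ^ 29)))) ^ K))) : ℕ) : ℝ) ≤
      (2 : ℝ) ^ (((K : ℝ) / 2 - 1 / 20) * (n : ℝ)) := by
  have hK' : (2 : ℝ) ^ 32 ≤ (K : ℝ) := by exact_mod_cast hK
  obtain ⟨N, hN⟩ := numB_poly K ((3 : ℝ) ^ K * 2 * 2 ^ K) ((K : ℝ) / 2 ^ 30 - 2 - 1 / 20)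
    (by positivity) (by
      have : (4 : ℝ) ≤ (K : ℝ) / 2 ^ 30 := by
        rw [le_div_iff₀ (by norm_num)]
        norm_num at hK' ⊢
        exact hK'
      linarith)
  refine ⟨N, fun n hn => ?_⟩
  have h1 := hN n hn
  obtain ⟨hD1, hD2⟩ := numB_D n
  have hm : ((n - (n / 2 - n / 2 ^ 29) - 2 * (4 * (n / 2 ^ 29)) : ℕ) : ℝ) ≤
      (n : ℝ) / 2 + 1 / 2 - 7 * ((n / 2 ^ 29 : ℕ) : ℝ) := by
    have a1 : 2 * (n - (n / 2 - n / 2 ^ 29) - 2 * (4 * (n / 2 ^ 29))) + 14 * (n / 2 ^ 29) ≤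
        n + 1 := by omega
    have a2 : 2 * ((n - (n / 2 - n / 2 ^ 29) - 2 * (4 * (n / 2 ^ 29)) : ℕ) : ℝ) +
        14 * ((n / 2 ^ 29 : ℕ) : ℝ) ≤ (n : ℝ) + 1 := by exact_mod_cast a1
    linarith
  have h81 : (81 : ℝ) ≤ (2 : ℝ) ^ ((13 : ℝ) / 2) := by
    have e1 : (2 : ℝ) ^ ((13 : ℝ) / 2) = Real.sqrt ((2 : ℝ) ^ (13 : ℕ)) := by
      rw [Real.sqrt_eq_rpow, ← Real.rpow_natCast, ← Real.rpow_mul (by norm_num)]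
      norm_num
    rw [e1]
    apply Real.le_sqrt_of_sq_le
    norm_num
  have h2 : (3 : ℝ) ^ (4 * (n / 2 ^ 29)) *
      (2 : ℝ) ^ (n - (n / 2 - n / 2 ^ 29) - 2 * (4 * (n / 2 ^ 29))) ≤
      (2 : ℝ) ^ ((n : ℝ) / 2 - (n : ℝ) / 2 ^ 30 + 1) := by
    have b1 : (3 : ℝ) ^ (4 * (n / 2 ^ 29)) ≤
        (2 : ℝ) ^ ((13 : ℝ) / 2 * ((n / 2 ^ 29 : ℕ) : ℝ)) := by
      rw [pow_mul, Real.rpow_mul (by norm_num), Real.rpow_natCast]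
      apply pow_le_pow_left₀ (by norm_num)
      have : (3 : ℝ) ^ 4 = 81 := by norm_num
      rw [this]
      exact h81
    calc (3 : ℝ) ^ (4 * (n / 2 ^ 29)) *
          (2 : ℝ) ^ (n - (n / 2 - n / 2 ^ 29) - 2 * (4 * (n / 2 ^ 29)))
        ≤ (2 : ℝ) ^ ((13 : ℝ) / 2 * ((n / 2 ^ 29 : ℕ) : ℝ)) *
          (2 : ℝ) ^ ((n : ℝ) / 2 + 1 / 2 - 7 * ((n / 2 ^ 29 : ℕ) : ℝ)) := by
          apply mul_le_mul b1 _ (by positivity) (by positivity)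
          rw [← Real.rpow_natCast]
          exact Real.rpow_le_rpow_of_exponent_le (by norm_num) hm
      _ ≤ _ := by
          rw [← Real.rpow_add (by norm_num)]
          apply Real.rpow_le_rpow_of_exponent_le (by norm_num)
          have e2 : (n : ℝ) / 2 ^ 30 = (n : ℝ) / 2 ^ 29 / 2 := by
            rw [div_div]; norm_num
          rw [e2]
          linarith
  have h2K : ((3 : ℝ) ^ (4 * (n / 2 ^ 29)) *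
      (2 : ℝ) ^ (n - (n / 2 - n / 2 ^ 29) - 2 * (4 * (n / 2 ^ 29)))) ^ K ≤
      (2 : ℝ) ^ ((K : ℝ) * ((n : ℝ) / 2 - (n : ℝ) / 2 ^ 30 + 1)) := by
    rw [mul_comm (K : ℝ), Real.rpow_mul (by norm_num), Real.rpow_natCast]
    exact pow_le_pow_left₀ (by positivity) h2 K
  have h4 : (4 : ℝ) ^ n = (2 : ℝ) ^ (2 * (n : ℝ)) := by
    rw [Real.rpow_mul (by norm_num), Real.rpow_natCast]
    norm_num
  have h3 : (2 : ℝ) ^ (((K : ℝ) / 2 - 1 / 20) * (n : ℝ)) =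
      (2 : ℝ) ^ (((K : ℝ) / 2 ^ 30 - 2 - 1 / 20) * (n : ℝ)) *
      ((2 : ℝ) ^ (2 * (n : ℝ)) *
        (2 : ℝ) ^ ((K : ℝ) * ((n : ℝ) / 2 - (n : ℝ) / 2 ^ 30 + 1)) / 2 ^ K) := by
    rw [← Real.rpow_natCast 2 K, ← Real.rpow_add (by norm_num), ← Real.rpow_sub (by norm_num),
      ← Real.rpow_add (by norm_num)]
    congr 1
    ring
  push_cast
  calc (n : ℝ) ^ K * (3 ^ K * (2 * (4 ^ n * (3 ^ (4 * (n / 2 ^ 29)) *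
        2 ^ (n - (n / 2 - n / 2 ^ 29) - 2 * (4 * (n / 2 ^ 29)))) ^ K)))
      ≤ (n : ℝ) ^ K * (3 ^ K * (2 * ((2 : ℝ) ^ (2 * (n : ℝ)) *
        (2 : ℝ) ^ ((K : ℝ) * ((n : ℝ) / 2 - (n : ℝ) / 2 ^ 30 + 1))))) := by
        rw [h4]
        gcongr
    _ = ((n : ℝ) ^ K * (3 ^ K * 2 * 2 ^ K)) *
        ((2 : ℝ) ^ (2 * (n : ℝ)) *
          (2 : ℝ) ^ ((K : ℝ) * ((n : ℝ) / 2 - (n : ℝ) / 2 ^ 30 + 1)) / 2 ^ K) := by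
        have : (2 : ℝ) ^ K ≠ 0 := by positivity
        field_simp
    _ ≤ _ := by
        rw [h3]
        exact mul_le_mul_of_nonneg_right h1 (by positivity)

theorem num_E3b (L : ℕ) (hL : 2 ^ 29 ≤ L) : ∃ N : ℕ, ∀ n ≥ N,
    ((n ^ (8 * L) * (3 ^ (8 * L) * (4 ^ n * ((n + 1) * 2 ^ (8 * L) *
      2 ^ (8 * L * (n - (n / 2 - n / 2 ^ 29)) - L * (16 * (n / 2 ^ 29)))))) : ℕ) : ℝ) ≤
      (2 : ℝ) ^ ((((8 * L : ℕ) : ℝ) / 2 - 1 / 20) * (n : ℝ)) := by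
  have hL' : (2 : ℝ) ^ 29 ≤ (L : ℝ) := by exact_mod_cast hL
  obtain ⟨N, hN⟩ := numB_poly (8 * L + 1) ((3 : ℝ) ^ (8 * L) * 2 * 2 ^ (8 * L) * 2 ^ (12 * L))
    ((L : ℝ) / 2 ^ 26 - 2 - 1 / 20) (by positivity) (by
      have : (8 : ℝ) ≤ (L : ℝ) / 2 ^ 26 := by
        rw [le_div_iff₀ (by norm_num)]
        norm_num at hL' ⊢
        exact hL'
      linarith)
  refine ⟨max N 1, fun n hn => ?_⟩
  have h1 := hN n (le_trans (le_max_left _ _) hn)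
  have hn1 : 1 ≤ n := le_trans (le_max_right _ _) hn
  have hn1' : (1 : ℝ) ≤ (n : ℝ) := by exact_mod_cast hn1
  obtain ⟨hD1, hD2⟩ := numB_D n
  have hm : ((8 * L * (n - (n / 2 - n / 2 ^ 29)) - L * (16 * (n / 2 ^ 29)) : ℕ) : ℝ) ≤
      4 * (L : ℝ) * (n : ℝ) + 12 * (L : ℝ) - (L : ℝ) * ((n : ℝ) / 2 ^ 26) := by
    have a0 : 2 * (n / 2 ^ 29) ≤ n - (n / 2 - n / 2 ^ 29) := by omega
    have a1 : L * (16 * (n / 2 ^ 29)) ≤ 8 * L * (n - (n / 2 - n / 2 ^ 29)) := by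
      calc L * (16 * (n / 2 ^ 29)) = 8 * L * (2 * (n / 2 ^ 29)) := by ring
        _ ≤ _ := Nat.mul_le_mul_left _ a0
    rw [Nat.cast_sub a1]
    have a2 : 2 * (n - (n / 2 - n / 2 ^ 29)) ≤ n + 1 + 2 * (n / 2 ^ 29) := by omega
    have a3 : 2 * ((n - (n / 2 - n / 2 ^ 29) : ℕ) : ℝ) ≤
        (n : ℝ) + 1 + 2 * ((n / 2 ^ 29 : ℕ) : ℝ) := by exact_mod_cast a2
    have a4 : (n : ℝ) / 2 ^ 26 = 8 * ((n : ℝ) / 2 ^ 29) := by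
      norm_num
      ring
    rw [Nat.cast_mul, Nat.cast_mul, Nat.cast_mul, Nat.cast_mul, a4]
    have a5 : (0 : ℝ) ≤ (L : ℝ) := Nat.cast_nonneg L
    push_cast at a3 ⊢
    nlinarith
  have h2 : (2 : ℝ) ^ (8 * L * (n - (n / 2 - n / 2 ^ 29)) - L * (16 * (n / 2 ^ 29))) ≤
      (2 : ℝ) ^ (4 * (L : ℝ) * (n : ℝ) + 12 * (L : ℝ) - (L : ℝ) * ((n : ℝ) / 2 ^ 26)) := by
    rw [← Real.rpow_natCast]
    exact Real.rpow_le_rpow_of_exponent_le (by norm_num) hm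
  have h4 : (4 : ℝ) ^ n = (2 : ℝ) ^ (2 * (n : ℝ)) := by
    rw [Real.rpow_mul (by norm_num), Real.rpow_natCast]
    norm_num
  have h3 : (2 : ℝ) ^ ((((8 * L : ℕ) : ℝ) / 2 - 1 / 20) * (n : ℝ)) =
      (2 : ℝ) ^ (((L : ℝ) / 2 ^ 26 - 2 - 1 / 20) * (n : ℝ)) *
      ((2 : ℝ) ^ (2 * (n : ℝ)) *
        (2 : ℝ) ^ (4 * (L : ℝ) * (n : ℝ) + 12 * (L : ℝ) - (L : ℝ) * ((n : ℝ) / 2 ^ 26)) /
        2 ^ (12 * L)) := by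
    rw [← Real.rpow_natCast 2 (12 * L), ← Real.rpow_add (by norm_num),
      ← Real.rpow_sub (by norm_num), ← Real.rpow_add (by norm_num)]
    congr 1
    push_cast
    ring
  push_cast at h3 ⊢
  calc (n : ℝ) ^ (8 * L) * (3 ^ (8 * L) * (4 ^ n * (((n : ℝ) + 1) * 2 ^ (8 * L) *
        2 ^ (8 * L * (n - (n / 2 - n / 2 ^ 29)) - L * (16 * (n / 2 ^ 29))))))
      ≤ (n : ℝ) ^ (8 * L) * (3 ^ (8 * L) * ((2 : ℝ) ^ (2 * (n : ℝ)) * ((2 * (n : ℝ)) * 2 ^ (8 * L) *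
        (2 : ℝ) ^ (4 * (L : ℝ) * (n : ℝ) + 12 * (L : ℝ) - (L : ℝ) * ((n : ℝ) / 2 ^ 26))))) := by
        rw [h4]
        gcongr
        linarith
    _ = ((n : ℝ) ^ (8 * L + 1) * ((3 : ℝ) ^ (8 * L) * 2 * 2 ^ (8 * L) * 2 ^ (12 * L))) *
        ((2 : ℝ) ^ (2 * (n : ℝ)) *
        (2 : ℝ) ^ (4 * (L : ℝ) * (n : ℝ) + 12 * (L : ℝ) - (L : ℝ) * ((n : ℝ) / 2 ^ 26)) /
        2 ^ (12 * L)) := by
        have : (2 : ℝ) ^ (12 * L) ≠ 0 := by positivity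
        rw [pow_succ (n : ℝ)]
        field_simp
    _ ≤ _ := by
        rw [h3]
        exact mul_le_mul_of_nonneg_right h1 (by positivity)

end Pool.KR87
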