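import Pool.Agent.KR87.Comb

set_option autoImplicit false
set_option linter.unusedSectionVars false

namespace Pool.KR87

open Finset

theorem num_E5 : ∃ N : ℕ, ∀ n ≥ N,
    ((5 ^ n * (2 ^ ((n - (n / 2 - n / 2 ^ 29)) * (n - (n / 2 - n / 2 ^ 29)) -
      (n / 256) * (n / 256)) * BS (n * n) (70 * (n / 2 ^ 29) * n)) : ℕ) : ℝ) ≤
      (2 : ℝ) ^ ((n : ℝ) ^ 2 / 4) := by
  refine ⟨2 ^ 19, fun n hn => ?_⟩
  set D := n / 2 ^ 29 with hD
  set b := n / 256 with hb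
  set m := n - (n / 2 - D) with hm
  have hDh : D ≤ n / 2 := by omega
  have hbm : b ≤ m := by omega
  have hnR : (2 : ℝ) ^ 19 ≤ n := by exact_mod_cast hn
  have hD1 : (D : ℝ) ≤ n / 2 ^ 29 := by
    rw [le_div_iff₀ (by positivity)]
    have : D * 2 ^ 29 ≤ n := by omega
    exact_mod_cast this
  have hb1 : (n : ℝ) / 256 - 1 ≤ b := by
    have : n ≤ 256 * b + 256 := by omega
    have h' : (n : ℝ) ≤ 256 * b + 256 := by exact_mod_cast this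
    linarith
  have hm1 : (m : ℝ) ≤ n / 2 + 1 / 2 + D := by
    have : 2 * m ≤ n + 1 + 2 * D := by omega
    have h' : 2 * (m : ℝ) ≤ n + 1 + 2 * D := by exact_mod_cast this
    linarith
  have hBS := BS_mul_le (n * n) (70 * D * n) (1 / 2 ^ 22) (by positivity) (by norm_num)
  set B : ℝ := (BS (n * n) (70 * D * n) : ℝ) with hB
  have hB0 : 0 ≤ B := Nat.cast_nonneg _
  -- `B ≤ 2 ^ (22 m) * (1 + x) ^ (n ^ 2)`
  have h1 : B ≤ 2 ^ (22 * (70 * D * n)) * (1 + 1 / 2 ^ 22 : ℝ) ^ (n * n) := by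
    have e1 : (2 : ℝ) ^ (22 * (70 * D * n)) * (1 / 2 ^ 22) ^ (70 * D * n) = 1 := by
      rw [pow_mul, ← mul_pow]; norm_num
    calc B = 2 ^ (22 * (70 * D * n)) * ((1 / 2 ^ 22) ^ (70 * D * n) * B) := by
          rw [← mul_assoc, e1, one_mul]
      _ ≤ _ := mul_le_mul_of_nonneg_left hBS (by positivity)
  have h2 : (1 + 1 / 2 ^ 22 : ℝ) ≤ (2 : ℝ) ^ (2 / 2 ^ 22 : ℝ) := by
    have e1 : (1 + 1 / 2 ^ 22 : ℝ) ≤ Real.exp (1 / 2 ^ 22) := by
      have := Real.add_one_le_exp (1 / 2 ^ 22 : ℝ)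
      linarith
    have e2 : Real.exp 1 ≤ (2 : ℝ) ^ (2 : ℝ) := by
      have := Real.exp_one_lt_d9
      norm_num
      linarith
    have e3 : Real.exp (1 / 2 ^ 22) ≤ (2 : ℝ) ^ (2 / 2 ^ 22 : ℝ) := by
      calc Real.exp (1 / 2 ^ 22) = (Real.exp 1) ^ (1 / 2 ^ 22 : ℝ) := by
            rw [← Real.exp_mul, one_mul]
        _ ≤ ((2 : ℝ) ^ (2 : ℝ)) ^ (1 / 2 ^ 22 : ℝ) :=
            Real.rpow_le_rpow (Real.exp_pos _).le e2 (by positivity)
        _ = (2 : ℝ) ^ (2 / 2 ^ 22 : ℝ) := by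
            rw [← Real.rpow_mul (by norm_num)]; congr 1; ring
    exact e1.trans e3
  have h3 : (1 + 1 / 2 ^ 22 : ℝ) ^ (n * n) ≤ (2 : ℝ) ^ ((2 / 2 ^ 22 : ℝ) * (n * n)) := by
    rw [Real.rpow_mul (by norm_num), ← Nat.cast_mul, Real.rpow_natCast]
    exact pow_le_pow_left₀ (by positivity) h2 _
  have h4 : (5 : ℝ) ^ n ≤ 2 ^ (3 * n) := by
    rw [pow_mul]
    exact pow_le_pow_left₀ (by norm_num) (by norm_num) _
  have h5 : ((5 ^ n * (2 ^ (m * m - b * b) * BS (n * n) (70 * D * n)) : ℕ) : ℝ) ≤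
      2 ^ (3 * n) * (2 ^ (m * m - b * b) * (2 ^ (22 * (70 * D * n)) *
        (2 : ℝ) ^ ((2 / 2 ^ 22 : ℝ) * (n * n)))) := by
    push_cast
    rw [← hB]
    have : B ≤ 2 ^ (22 * (70 * D * n)) * (2 : ℝ) ^ ((2 / 2 ^ 22 : ℝ) * (n * n)) :=
      h1.trans (mul_le_mul_of_nonneg_left h3 (by positivity))
    gcongr
  refine h5.trans ?_
  rw [← Real.rpow_natCast 2 (3 * n), ← Real.rpow_natCast 2 (m * m - b * b),
    ← Real.rpow_natCast 2 (22 * (70 * D * n)), ← Real.rpow_add (by norm_num),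
    ← Real.rpow_add (by norm_num), ← Real.rpow_add (by norm_num)]
  apply Real.rpow_le_rpow_of_exponent_le (by norm_num)
  have hsub : b * b ≤ m * m := Nat.mul_le_mul hbm hbm
  rw [Nat.cast_sub hsub]
  push_cast
  have hn0 : (0 : ℝ) ≤ n := Nat.cast_nonneg _
  have hD0 : (0 : ℝ) ≤ D := Nat.cast_nonneg _
  have e1 : (m : ℝ) * m ≤ (n / 2 + 1 / 2 + n / 2 ^ 29) ^ 2 := by
    have : (m : ℝ) ≤ n / 2 + 1 / 2 + n / 2 ^ 29 := by linarith
    rw [sq]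
    exact mul_le_mul this this (Nat.cast_nonneg _) (by positivity)
  have e2 : ((n : ℝ) / 256 - 1) ^ 2 ≤ b * b := by
    have : 0 ≤ (n : ℝ) / 256 - 1 := by
      have : (256 : ℝ) ≤ 2 ^ 19 := by norm_num
      linarith
    rw [sq]
    exact mul_le_mul hb1 hb1 this (Nat.cast_nonneg _)
  have e3 : (D : ℝ) * n ≤ n / 2 ^ 29 * n := mul_le_mul_of_nonneg_right hD1 hn0
  have e4 : (2 : ℝ) ^ 19 * n ≤ n * n := mul_le_mul_of_nonneg_right hnR hn0
  nlinarith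

end Pool.KR87
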