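import Mathlib

set_option autoImplicit false
set_option linter.unusedSectionVars false

/-!
# KR87/NumM: the recursion inequality

By induction `p n ≤ C 2 ^ (n ^ 2 / 4 + 3 n / 2)`: the term `i` of the sum is at most
`C 2 ^ ((j / 2 - c) n) 2 ^ ((n - j) ^ 2 / 4 + 3 (n - j) / 2) = C 2 ^ (n ^ 2 / 4 + 3 n / 2) 2 ^ (j ^ 2 / 4 - 3 j / 2) 2 ^ (- c n)`.
-/

namespace Pool.KR87

open Finset

/-- one term of the sum -/
private theorem numM_term (c K : ℝ) (hK : 0 ≤ K) (f P : ℝ) (n j : ℕ) (hjn : j ≤ n) (hf0 : 0 ≤ f)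
    (hf : f ≤ (2 : ℝ) ^ (((j : ℝ) / 2 - c) * (n : ℝ)))
    (hP : P ≤ K * (2 : ℝ) ^ (((n - j : ℕ) : ℝ) ^ 2 / 4 + 3 * ((n - j : ℕ) : ℝ) / 2)) :
    f * P ≤ (K * (2 : ℝ) ^ ((j : ℝ) ^ 2 / 4 - 3 * (j : ℝ) / 2)) *
      (2 : ℝ) ^ ((n : ℝ) ^ 2 / 4 + 3 * n / 2 - c * n) := by
  have h1 : f * P ≤ f * (K * (2 : ℝ) ^ (((n - j : ℕ) : ℝ) ^ 2 / 4 + 3 * ((n - j : ℕ) : ℝ) / 2)) :=
    mul_le_mul_of_nonneg_left hP hf0
  have h2 : f * (K * (2 : ℝ) ^ (((n - j : ℕ) : ℝ) ^ 2 / 4 + 3 * ((n - j : ℕ) : ℝ) / 2)) ≤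
      (2 : ℝ) ^ (((j : ℝ) / 2 - c) * (n : ℝ)) *
        (K * (2 : ℝ) ^ (((n - j : ℕ) : ℝ) ^ 2 / 4 + 3 * ((n - j : ℕ) : ℝ) / 2)) :=
    mul_le_mul_of_nonneg_right hf (by positivity)
  refine (h1.trans h2).trans (le_of_eq ?_)
  have h3 : ((n - j : ℕ) : ℝ) = (n : ℝ) - j := by
    rw [Nat.cast_sub hjn]
  rw [h3]
  have h4 : (2 : ℝ) ^ (((j : ℝ) / 2 - c) * (n : ℝ)) *
      (2 : ℝ) ^ (((n : ℝ) - j) ^ 2 / 4 + 3 * ((n : ℝ) - j) / 2) =
      (2 : ℝ) ^ ((j : ℝ) ^ 2 / 4 - 3 * (j : ℝ) / 2) *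
      (2 : ℝ) ^ ((n : ℝ) ^ 2 / 4 + 3 * n / 2 - c * n) := by
    rw [← Real.rpow_add (by norm_num), ← Real.rpow_add (by norm_num)]
    congr 1
    ring
  calc (2 : ℝ) ^ (((j : ℝ) / 2 - c) * (n : ℝ)) *
        (K * (2 : ℝ) ^ (((n : ℝ) - j) ^ 2 / 4 + 3 * ((n : ℝ) - j) / 2))
      = K * ((2 : ℝ) ^ (((j : ℝ) / 2 - c) * (n : ℝ)) *
        (2 : ℝ) ^ (((n : ℝ) - j) ^ 2 / 4 + 3 * ((n : ℝ) - j) / 2)) := by ring
    _ = _ := by rw [h4]; ring

/-- the sum of the terms -/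
private theorem numM_sum {ι : Type} [Fintype ι] (p : ℕ → ℝ) (j : ι → ℕ) (F : ι → ℕ → ℝ) (c K : ℝ)
    (hK : 0 ≤ K) (n : ℕ) (hj : ∀ i, j i ≤ n) (hF0 : ∀ i, 0 ≤ F i n)
    (hF : ∀ i, F i n ≤ (2 : ℝ) ^ (((j i : ℝ) / 2 - c) * (n : ℝ)))
    (hp : ∀ i, p (n - j i) ≤
      K * (2 : ℝ) ^ (((n - j i : ℕ) : ℝ) ^ 2 / 4 + 3 * ((n - j i : ℕ) : ℝ) / 2)) :
    ∑ i, F i n * p (n - j i) ≤
      (K * ∑ i, (2 : ℝ) ^ ((j i : ℝ) ^ 2 / 4 - 3 * (j i : ℝ) / 2)) *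
      (2 : ℝ) ^ ((n : ℝ) ^ 2 / 4 + 3 * n / 2 - c * n) := by
  rw [mul_sum, sum_mul]
  exact sum_le_sum fun i _ => numM_term c K hK _ _ n (j i) (hj i) (hF0 i) (hF i) (hp i)

/-- `S 2 ^ (- c n)` is small for large `n` -/
private theorem numM_small (c S : ℝ) (hc : 0 < c) :
    ∃ N : ℕ, ∀ n ≥ N, S * (2 : ℝ) ^ (-(c * (n : ℝ))) ≤ 1 / 2 := by
  have h1 : Filter.Tendsto (fun n : ℕ => S * ((2 : ℝ) ^ (-c)) ^ n) Filter.atTop (nhds (S * 0)) := by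
    apply Filter.Tendsto.const_mul
    apply tendsto_pow_atTop_nhds_zero_of_lt_one (by positivity)
    exact Real.rpow_lt_one_of_one_lt_of_neg (by norm_num) (by linarith)
  rw [mul_zero] at h1
  have h2 := (h1.eventually (gt_mem_nhds (by norm_num : (0 : ℝ) < 1 / 2)))
  rw [Filter.eventually_atTop] at h2
  obtain ⟨N, hN⟩ := h2
  refine ⟨N, fun n hn => ?_⟩
  have h3 := hN n hn
  have h4 : (2 : ℝ) ^ (-(c * (n : ℝ))) = ((2 : ℝ) ^ (-c)) ^ n := by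
    rw [← Real.rpow_natCast, ← Real.rpow_mul (by norm_num)]
    congr 1
    ring
  rw [h4]
  exact h3.le

theorem rec_bound {ι : Type} [Fintype ι] (p A : ℕ → ℝ) (j : ι → ℕ) (F : ι → ℕ → ℝ) (c C0 : ℝ)
    (N : ℕ) (hc : 0 < c) (hp : ∀ n, 0 ≤ p n) (hj : ∀ i, 1 ≤ j i) (hF0 : ∀ i n, 0 ≤ F i n)
    (hF : ∀ i, ∀ n ≥ N, F i n ≤ (2 : ℝ) ^ (((j i : ℝ) / 2 - c) * (n : ℝ)))
    (hA : ∀ n ≥ N, A n ≤ C0 * (2 : ℝ) ^ ((n : ℝ) ^ 2 / 4 + 3 * n / 2))
    (hrec : ∀ n ≥ N, p n ≤ A n + ∑ i, F i n * p (n - j i)) :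
    ∃ C : ℝ, 0 < C ∧ ∃ N' : ℕ, ∀ n ≥ N', ∑ i, F i n * p (n - j i) ≤
      C * (2 : ℝ) ^ ((n : ℝ) ^ 2 / 4 + 3 * n / 2 - c * n) := by
  classical
  set S : ℝ := ∑ i, (2 : ℝ) ^ ((j i : ℝ) ^ 2 / 4 - 3 * (j i : ℝ) / 2) with hSdef
  have hS : 0 ≤ S := sum_nonneg fun i _ => by positivity
  obtain ⟨J, hJ⟩ : ∃ J, ∀ i, j i ≤ J := ⟨univ.sup j, fun i => le_sup (mem_univ i)⟩
  obtain ⟨N2, hN2⟩ := numM_small c S hc
  set N1 : ℕ := max N (max J N2) with hN1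
  have hN1a : N ≤ N1 := le_max_left _ _
  have hN1b : J ≤ N1 := (le_max_left _ _).trans (le_max_right _ _)
  have hN1c : N2 ≤ N1 := (le_max_right _ _).trans (le_max_right _ _)
  set g : ℕ → ℝ := fun n => (2 : ℝ) ^ ((n : ℝ) ^ 2 / 4 + 3 * n / 2) with hg
  have hgpos : ∀ n, 0 < g n := fun n => by simp only [hg]; positivity
  -- the constant
  set K : ℝ := 2 * |C0| + ∑ m ∈ range N1, p m / g m with hK
  have hsum0 : 0 ≤ ∑ m ∈ range N1, p m / g m :=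
    sum_nonneg fun m _ => div_nonneg (hp m) (hgpos m).le
  have hK0 : 0 ≤ K := by positivity
  have hmain : ∀ n, p n ≤ K * g n := by
    intro n
    induction n using Nat.strong_induction_on with
    | _ n ih =>
      by_cases hn : n < N1
      · have h1 : p n / g n ≤ ∑ m ∈ range N1, p m / g m :=
          single_le_sum (f := fun m => p m / g m) (fun m _ => div_nonneg (hp m) (hgpos m).le)
            (mem_range.mpr hn)
        have h2 : p n / g n ≤ K := by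
          have := abs_nonneg C0
          linarith
        rwa [div_le_iff₀ (hgpos n)] at h2
      · push Not at hn
        have h1 := hrec n (hN1a.trans hn)
        have h2 := hA n (hN1a.trans hn)
        have h3 := numM_sum p j F c K hK0 n (fun i => (hJ i).trans (hN1b.trans hn))
          (fun i => hF0 i n) (fun i => hF i n (hN1a.trans hn))
          (fun i => ih (n - j i) (by
            have := hj i
            have := (hJ i).trans (hN1b.trans hn)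
            omega))
        rw [← hSdef] at h3
        have h4 := hN2 n (hN1c.trans hn)
        have h5 : (2 : ℝ) ^ ((n : ℝ) ^ 2 / 4 + 3 * n / 2 - c * n) =
            g n * (2 : ℝ) ^ (-(c * (n : ℝ))) := by
          simp only [hg]
          rw [← Real.rpow_add (by norm_num)]
          congr 1
        rw [h5] at h3
        have h6 : K * S * (g n * (2 : ℝ) ^ (-(c * (n : ℝ)))) ≤ K * g n * (1 / 2) := by
          calc K * S * (g n * (2 : ℝ) ^ (-(c * (n : ℝ))))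
              = K * g n * (S * (2 : ℝ) ^ (-(c * (n : ℝ)))) := by ring
            _ ≤ K * g n * (1 / 2) :=
              mul_le_mul_of_nonneg_left h4 (mul_nonneg hK0 (hgpos n).le)
        have h7 : C0 * g n ≤ |C0| * g n := mul_le_mul_of_nonneg_right (le_abs_self _) (hgpos n).le
        have h8 : 2 * |C0| * g n ≤ K * g n := by
          apply mul_le_mul_of_nonneg_right _ (hgpos n).le
          linarith
        have h9 : A n ≤ C0 * g n := h2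
        linarith
  refine ⟨K * S + 1, by positivity, N1, fun n hn => ?_⟩
  have h3 := numM_sum p j F c K hK0 n (fun i => (hJ i).trans (hN1b.trans hn))
    (fun i => hF0 i n) (fun i => hF i n (hN1a.trans hn)) (fun i => hmain (n - j i))
  rw [← hSdef] at h3
  refine h3.trans ?_
  apply mul_le_mul_of_nonneg_right _ (by positivity)
  linarith

end Pool.KR87
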