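import Pool.Agent.KR87.C2
import Pool.Agent.KR87.C3
import Pool.Agent.KR87.C4
import Pool.Agent.KR87.C3b
import Pool.Agent.KR87.C5
import Pool.Agent.KR87.C6
import Pool.Agent.KR87.C7
import Pool.Agent.KR87.CG
import Pool.Agent.KR87.CB
import Pool.Agent.KR87.Low
import Pool.Agent.KR87.NumA
import Pool.Agent.KR87.NumB
import Pool.Agent.KR87.NumC
import Pool.Agent.KR87.NumM

set_option autoImplicit false

/-!
# KR87/MainB: assembly of the counts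
-/

namespace Pool.KR87

open Finset

/-- the number of removed points of the six recursive events: E2, E3, E4, E3b, E6, E7 -/
def jj (k : ℕ) : Fin 6 → ℕ := ![1, k, k + 2, k + 2, 1, 2]

/-- the factors of the six recursive events -/
def FF (k L : ℕ) : Fin 6 → ℕ → ℕ := ![
  fun n => n * (3 * BS n (n / 32)),
  fun n => n ^ k * (3 ^ k * (2 ^ n * 2 ^ (k * (n / 2 - n / 2 ^ 29)))),
  fun n => n ^ (k + 2) * (3 ^ (k + 2) * (2 * (4 ^ n * (3 ^ (4 * (n / 2 ^ 29)) *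
      2 ^ (n - (n / 2 - n / 2 ^ 29) - 2 * (4 * (n / 2 ^ 29)))) ^ (k + 2)))),
  fun n => n ^ (8 * L) * (3 ^ (8 * L) * (4 ^ n * ((n + 1) * 2 ^ (8 * L) *
      2 ^ (8 * L * (n - (n / 2 - n / 2 ^ 29)) - L * (16 * (n / 2 ^ 29)))))),
  fun n => n * ((n + 1) ^ (k + 2) *
      (2 * (3 * (2 ^ (n / 4 + n / 256) * BS n (n / 64 + n / 128))))),
  fun n => n * n * ((n + 1) ^ (k + 2) * (9 * (3 ^ (n - (n / 2 - n / 2 ^ 29)) *
      (BS n (n / 128) * BS n (n / 128)))))]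

theorem FF_le (k L : ℕ) (hkL : k + 2 = 8 * L) (hL : 2 ^ 29 ≤ L) : ∃ N : ℕ, ∀ i, ∀ n ≥ N,
    ((FF k L i n : ℕ) : ℝ) ≤ (2 : ℝ) ^ (((jj k i : ℝ) / 2 - 1 / 20) * (n : ℝ)) := by
  have hk : 2 ^ 31 ≤ k := by omega
  have hK : 2 ^ 32 ≤ k + 2 := by omega
  obtain ⟨N0, h0⟩ := num_E2
  obtain ⟨N1, h1⟩ := num_E3 k hk
  obtain ⟨N2, h2⟩ := num_E4 (k + 2) hK
  obtain ⟨N3, h3⟩ := num_E3b L hL
  obtain ⟨N4, h4⟩ := num_E6 (k + 2)
  obtain ⟨N5, h5⟩ := num_E7 (k + 2)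
  refine ⟨N0 + N1 + N2 + N3 + N4 + N5, fun i n hn => ?_⟩
  fin_cases i
  · have := h0 n (by omega)
    simpa [FF, jj] using this
  · have := h1 n (by omega)
    simpa [FF, jj] using this
  · have := h2 n (by omega)
    simpa [FF, jj] using this
  · have := h3 n (by omega)
    rw [← hkL] at this
    simpa [FF, jj, ← hkL] using this
  · have := h4 n (by omega)
    simpa [FF, jj] using this
  · have := h5 n (by omega)
    simpa [FF, jj] using this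

/-- the union bound -/
theorem count_le (k L : ℕ) (hkL : k + 2 = 8 * L) (hL : 0 < L) (n : ℕ)
    (htyp : ∀ P : SO (Fin n), ¬ E2 (n / 32) P → ¬ E3 k (n / 2 - n / 2 ^ 29) P →
      ¬ E4 (k + 2) (n - (n / 2 - n / 2 ^ 29)) (4 * (n / 2 ^ 29)) P →
      ¬ E3b (k + 2) (n - (n / 2 - n / 2 ^ 29)) (16 * (n / 2 ^ 29)) P →
      ¬ E5 (n - (n / 2 - n / 2 ^ 29)) (n / 256) (70 * (n / 2 ^ 29) * n) P →
      ¬ E6 (k + 2) (n / 4 + n / 256) (n / 64 + n / 128) P →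
      ¬ E7 (k + 2) (n - (n / 2 - n / 2 ^ 29)) (n / 128) P → Good P ∨ Both P) :
    cnt (fun P : SO (Fin n) => ¬ Good P) ≤ ∑ i, FF k L i n * pn (n - jj k i) +
      cnt (E5 (V := Fin n) (n - (n / 2 - n / 2 ^ 29)) (n / 256) (70 * (n / 2 ^ 29) * n)) +
      cnt (Both (V := Fin n)) := by
  have h2 := cnt_E2_le (V := Fin n) (n / 32)
  have h3 := cnt_E3_le (V := Fin n) k (n / 2 - n / 2 ^ 29)
  have h4 := cnt_E4_le (V := Fin n) (k + 2) (n - (n / 2 - n / 2 ^ 29)) (4 * (n / 2 ^ 29))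
  have h3b := cnt_E3b_le (V := Fin n) L (n - (n / 2 - n / 2 ^ 29)) (16 * (n / 2 ^ 29)) hL
  have h6 := cnt_E6_le (V := Fin n) (k + 2) (n / 4 + n / 256) (n / 64 + n / 128)
  have h7 := cnt_E7_le (V := Fin n) (k + 2) (n - (n / 2 - n / 2 ^ 29)) (n / 128)
  rw [Fintype.card_fin] at h2 h3 h4 h3b h6 h7
  rw [← hkL] at h3b
  have e2 : cnt (E2 (V := Fin n) (n / 32)) ≤ FF k L 0 n * pn (n - jj k 0) := by
    have a1 : FF k L 0 n = n * (3 * BS n (n / 32)) := rfl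
    have a2 : jj k 0 = 1 := rfl
    rw [a1, a2]
    refine h2.trans (le_of_eq ?_)
    ring
  have e3 : cnt (E3 (V := Fin n) k (n / 2 - n / 2 ^ 29)) ≤ FF k L 1 n * pn (n - jj k 1) := by
    have a1 : FF k L 1 n = n ^ k * (3 ^ k * (2 ^ n * 2 ^ (k * (n / 2 - n / 2 ^ 29)))) := rfl
    have a2 : jj k 1 = k := rfl
    rw [a1, a2]
    refine h3.trans (le_of_eq ?_)
    ring
  have e4 : cnt (E4 (V := Fin n) (k + 2) (n - (n / 2 - n / 2 ^ 29)) (4 * (n / 2 ^ 29))) ≤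
      FF k L 2 n * pn (n - jj k 2) := by
    have a1 : FF k L 2 n = n ^ (k + 2) * (3 ^ (k + 2) * (2 * (4 ^ n * (3 ^ (4 * (n / 2 ^ 29)) *
      2 ^ (n - (n / 2 - n / 2 ^ 29) - 2 * (4 * (n / 2 ^ 29)))) ^ (k + 2)))) := rfl
    have a2 : jj k 2 = k + 2 := rfl
    rw [a1, a2]
    refine h4.trans (le_of_eq ?_)
    ring
  have e3b : cnt (E3b (V := Fin n) (k + 2) (n - (n / 2 - n / 2 ^ 29)) (16 * (n / 2 ^ 29))) ≤
      FF k L 3 n * pn (n - jj k 3) := by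
    have a1 : FF k L 3 n = n ^ (8 * L) * (3 ^ (8 * L) * (4 ^ n * ((n + 1) * 2 ^ (8 * L) *
      2 ^ (8 * L * (n - (n / 2 - n / 2 ^ 29)) - L * (16 * (n / 2 ^ 29)))))) := rfl
    have a2 : jj k 3 = k + 2 := rfl
    rw [a1, a2, ← hkL]
    refine h3b.trans (le_of_eq ?_)
    ring
  have e6 : cnt (E6 (V := Fin n) (k + 2) (n / 4 + n / 256) (n / 64 + n / 128)) ≤
      FF k L 4 n * pn (n - jj k 4) := by
    have a1 : FF k L 4 n = n * ((n + 1) ^ (k + 2) *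
      (2 * (3 * (2 ^ (n / 4 + n / 256) * BS n (n / 64 + n / 128))))) := rfl
    have a2 : jj k 4 = 1 := rfl
    rw [a1, a2]
    refine h6.trans (le_of_eq ?_)
    ring
  have e7 : cnt (E7 (V := Fin n) (k + 2) (n - (n / 2 - n / 2 ^ 29)) (n / 128)) ≤
      FF k L 5 n * pn (n - jj k 5) := by
    have a1 : FF k L 5 n = n * n * ((n + 1) ^ (k + 2) * (9 * (3 ^ (n - (n / 2 - n / 2 ^ 29)) *
      (BS n (n / 128) * BS n (n / 128))))) := rfl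
    have a2 : jj k 5 = 2 := rfl
    rw [a1, a2]
    refine h7.trans (le_of_eq ?_)
    ring
  rw [Fin.sum_univ_six]
  have hcov : cnt (fun P : SO (Fin n) => ¬ Good P) ≤ cnt (fun P : SO (Fin n) =>
      E2 (n / 32) P ∨ E3 k (n / 2 - n / 2 ^ 29) P ∨
      E4 (k + 2) (n - (n / 2 - n / 2 ^ 29)) (4 * (n / 2 ^ 29)) P ∨
      E3b (k + 2) (n - (n / 2 - n / 2 ^ 29)) (16 * (n / 2 ^ 29)) P ∨
      E6 (k + 2) (n / 4 + n / 256) (n / 64 + n / 128) P ∨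
      E7 (k + 2) (n - (n / 2 - n / 2 ^ 29)) (n / 128) P ∨
      E5 (n - (n / 2 - n / 2 ^ 29)) (n / 256) (70 * (n / 2 ^ 29) * n) P ∨ Both P) := by
    apply cnt_mono
    intro P hP
    by_contra hcon
    push Not at hcon
    obtain ⟨c2, c3, c4, c3b, c6, c7, c5, cb⟩ := hcon
    rcases htyp P c2 c3 c4 c3b c5 c6 c7 with h | h
    · exact hP h
    · exact cb h
  have u1 := cnt_or_le (E2 (V := Fin n) (n / 32)) (fun P => E3 k (n / 2 - n / 2 ^ 29) P ∨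
      E4 (k + 2) (n - (n / 2 - n / 2 ^ 29)) (4 * (n / 2 ^ 29)) P ∨
      E3b (k + 2) (n - (n / 2 - n / 2 ^ 29)) (16 * (n / 2 ^ 29)) P ∨
      E6 (k + 2) (n / 4 + n / 256) (n / 64 + n / 128) P ∨
      E7 (k + 2) (n - (n / 2 - n / 2 ^ 29)) (n / 128) P ∨
      E5 (n - (n / 2 - n / 2 ^ 29)) (n / 256) (70 * (n / 2 ^ 29) * n) P ∨ Both P)
  have u2 := cnt_or_le (E3 (V := Fin n) k (n / 2 - n / 2 ^ 29)) (fun P =>
      E4 (k + 2) (n - (n / 2 - n / 2 ^ 29)) (4 * (n / 2 ^ 29)) P ∨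
      E3b (k + 2) (n - (n / 2 - n / 2 ^ 29)) (16 * (n / 2 ^ 29)) P ∨
      E6 (k + 2) (n / 4 + n / 256) (n / 64 + n / 128) P ∨
      E7 (k + 2) (n - (n / 2 - n / 2 ^ 29)) (n / 128) P ∨
      E5 (n - (n / 2 - n / 2 ^ 29)) (n / 256) (70 * (n / 2 ^ 29) * n) P ∨ Both P)
  have u3 := cnt_or_le
      (E4 (V := Fin n) (k + 2) (n - (n / 2 - n / 2 ^ 29)) (4 * (n / 2 ^ 29))) (fun P =>
      E3b (k + 2) (n - (n / 2 - n / 2 ^ 29)) (16 * (n / 2 ^ 29)) P ∨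
      E6 (k + 2) (n / 4 + n / 256) (n / 64 + n / 128) P ∨
      E7 (k + 2) (n - (n / 2 - n / 2 ^ 29)) (n / 128) P ∨
      E5 (n - (n / 2 - n / 2 ^ 29)) (n / 256) (70 * (n / 2 ^ 29) * n) P ∨ Both P)
  have u4 := cnt_or_le
      (E3b (V := Fin n) (k + 2) (n - (n / 2 - n / 2 ^ 29)) (16 * (n / 2 ^ 29))) (fun P =>
      E6 (k + 2) (n / 4 + n / 256) (n / 64 + n / 128) P ∨
      E7 (k + 2) (n - (n / 2 - n / 2 ^ 29)) (n / 128) P ∨
      E5 (n - (n / 2 - n / 2 ^ 29)) (n / 256) (70 * (n / 2 ^ 29) * n) P ∨ Both P)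
  have u5 := cnt_or_le
      (E6 (V := Fin n) (k + 2) (n / 4 + n / 256) (n / 64 + n / 128)) (fun P =>
      E7 (k + 2) (n - (n / 2 - n / 2 ^ 29)) (n / 128) P ∨
      E5 (n - (n / 2 - n / 2 ^ 29)) (n / 256) (70 * (n / 2 ^ 29) * n) P ∨ Both P)
  have u6 := cnt_or_le
      (E7 (V := Fin n) (k + 2) (n - (n / 2 - n / 2 ^ 29)) (n / 128)) (fun P =>
      E5 (n - (n / 2 - n / 2 ^ 29)) (n / 256) (70 * (n / 2 ^ 29) * n) P ∨ Both P)
  have u7 := cnt_or_le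
      (E5 (V := Fin n) (n - (n / 2 - n / 2 ^ 29)) (n / 256) (70 * (n / 2 ^ 29) * n))
      (Both (V := Fin n))
  omega

theorem poly_le_exp (C : ℝ) : ∃ N : ℕ, ∀ n ≥ N,
    (C + 33 + 4 * (n : ℝ)) * (8 * ((n : ℝ) + 1) ^ 2) ≤ (2 : ℝ) ^ ((1 / 40 : ℝ) * n) := by
  have hr : (1 : ℝ) < (2 : ℝ) ^ (1 / 40 : ℝ) := by
    apply Real.one_lt_rpow (by norm_num) (by norm_num)
  have h := tendsto_pow_const_div_const_pow_of_one_lt 3 hr
  have h' := h.eventually (gt_mem_nhds (show (0 : ℝ) < 1 / (64 * (|C| + 37)) by positivity))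
  obtain ⟨N, hN⟩ := Filter.eventually_atTop.1 h'
  refine ⟨N + 1, fun n hn => ?_⟩
  have h1 := hN n (by omega)
  have hn1 : (1 : ℝ) ≤ n := by exact_mod_cast (by omega : 1 ≤ n)
  have hpow : ((2 : ℝ) ^ (1 / 40 : ℝ)) ^ n = (2 : ℝ) ^ ((1 / 40 : ℝ) * n) := by
    rw [← Real.rpow_natCast, ← Real.rpow_mul (by norm_num)]
  rw [hpow, div_lt_div_iff₀ (by positivity) (by positivity), one_mul] at h1
  have hC : C ≤ |C| := le_abs_self C
  have hC0 : 0 ≤ |C| := abs_nonneg C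
  have e1 : C + 33 + 4 * (n : ℝ) ≤ (|C| + 37) * n := by nlinarith
  have e2 : 8 * ((n : ℝ) + 1) ^ 2 ≤ 32 * (n : ℝ) ^ 2 := by nlinarith
  calc (C + 33 + 4 * (n : ℝ)) * (8 * ((n : ℝ) + 1) ^ 2)
      ≤ ((|C| + 37) * n) * (8 * ((n : ℝ) + 1) ^ 2) := by
        apply mul_le_mul_of_nonneg_right e1 (by positivity)
    _ ≤ ((|C| + 37) * n) * (32 * (n : ℝ) ^ 2) := by
        apply mul_le_mul_of_nonneg_left e2 (by positivity)
    _ ≤ (n : ℝ) ^ 3 * (64 * (|C| + 37)) := by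
        have : 0 ≤ (n : ℝ) ^ 3 * (|C| + 37) := by positivity
        nlinarith
    _ ≤ (2 : ℝ) ^ ((1 / 40 : ℝ) * n) := h1.le

theorem kr_exp_of_typical (k L : ℕ) (hkL : k + 2 = 8 * L) (hL : 2 ^ 29 ≤ L)
    (htyp : ∃ N : ℕ, ∀ n ≥ N, ∀ P : SO (Fin n), ¬ E2 (n / 32) P →
      ¬ E3 k (n / 2 - n / 2 ^ 29) P →
      ¬ E4 (k + 2) (n - (n / 2 - n / 2 ^ 29)) (4 * (n / 2 ^ 29)) P →
      ¬ E3b (k + 2) (n - (n / 2 - n / 2 ^ 29)) (16 * (n / 2 ^ 29)) P →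
      ¬ E5 (n - (n / 2 - n / 2 ^ 29)) (n / 256) (70 * (n / 2 ^ 29) * n) P →
      ¬ E6 (k + 2) (n / 4 + n / 256) (n / 64 + n / 128) P →
      ¬ E7 (k + 2) (n - (n / 2 - n / 2 ^ 29)) (n / 128) P → Good P ∨ Both P) :
    ∃ N : ℕ, ∀ n ≥ N,
    (cnt (fun P : SO (Fin n) => ¬ Good P) : ℝ) ≤ (2 : ℝ) ^ (-(1 / 40 : ℝ) * n) * pn n := by
  obtain ⟨N0, hN0⟩ := htyp
  obtain ⟨N1, hN1⟩ := FF_le k L hkL hL
  obtain ⟨N2, hN2⟩ := num_E5
  obtain ⟨N3, hN3⟩ := pn_lower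
  have hbad : ∀ n ≥ N0, (cnt (fun P : SO (Fin n) => ¬ Good P) : ℝ) ≤
      ∑ i, (FF k L i n : ℝ) * pn (n - jj k i) +
      cnt (E5 (V := Fin n) (n - (n / 2 - n / 2 ^ 29)) (n / 256) (70 * (n / 2 ^ 29) * n)) +
      cnt (Both (V := Fin n)) := by
    intro n hn
    have := count_le k L hkL (by omega) n (hN0 n hn)
    exact_mod_cast this
  have hE5 : ∀ n ≥ N2, (cnt (E5 (V := Fin n) (n - (n / 2 - n / 2 ^ 29)) (n / 256)
      (70 * (n / 2 ^ 29) * n)) : ℝ) ≤ (2 : ℝ) ^ ((n : ℝ) ^ 2 / 4) := by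
    intro n hn
    have h1 := cnt_E5_le (V := Fin n) (n - (n / 2 - n / 2 ^ 29)) (n / 256)
      (70 * (n / 2 ^ 29) * n)
    rw [Fintype.card_fin] at h1
    refine le_trans ?_ (hN2 n hn)
    exact_mod_cast h1
  have hBoth : ∀ n : ℕ, (cnt (Both (V := Fin n)) : ℝ) ≤ (2 * n + 16) *
      (2 : ℝ) ^ ((n : ℝ) ^ 2 / 4 + (4 / 3) * n + 1) := by
    intro n
    have h1 := cnt_Both_le (V := Fin n)
    rwa [Fintype.card_fin] at h1
  have hGood : ∀ n : ℕ, (cnt (Good (V := Fin n)) : ℝ) ≤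
      2 * (2 : ℝ) ^ ((n : ℝ) ^ 2 / 4 + 3 * n / 2) := by
    intro n
    have h1 := cnt_Good_le (V := Fin n)
    rw [Fintype.card_fin] at h1
    have h2 : (cnt (Good (V := Fin n)) : ℝ) ≤ (2 : ℝ) ^ n * (2 : ℝ) ^ ((n + 1) ^ 2 / 4) := by
      exact_mod_cast h1
    refine h2.trans ?_
    rw [← pow_add, ← Real.rpow_natCast,
      show (2 : ℝ) * 2 ^ ((n : ℝ) ^ 2 / 4 + 3 * n / 2) =
        (2 : ℝ) ^ (1 + ((n : ℝ) ^ 2 / 4 + 3 * n / 2)) by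
        rw [Real.rpow_add (by norm_num) 1, Real.rpow_one]]
    apply Real.rpow_le_rpow_of_exponent_le (by norm_num)
    have h3 : ((((n + 1) ^ 2 / 4 : ℕ) : ℝ)) ≤ ((n : ℝ) + 1) ^ 2 / 4 := by
      have := @Nat.cast_div_le ℝ _ _ _ ((n + 1) ^ 2) 4
      simpa using this
    push_cast at h3 ⊢
    nlinarith
  -- the recursion
  have hsplit : ∀ n : ℕ, (pn n : ℝ) ≤ cnt (Good (V := Fin n)) +
      cnt (fun P : SO (Fin n) => ¬ Good P) := by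
    intro n
    have h1 := cnt_or_le (V := Fin n) Good (fun P => ¬ Good P)
    have h2 : pn n = cnt (fun P : SO (Fin n) => Good P ∨ ¬ Good P) := by
      unfold pn cnt
      rw [← Finset.card_univ]
      congr 1
      ext P
      simp [Classical.em]
    rw [h2]
    exact_mod_cast h1
  obtain ⟨C, hC, N4, hN4⟩ := rec_bound (fun n => (pn n : ℝ))
    (fun n => (cnt (Good (V := Fin n)) : ℝ) +
      cnt (E5 (V := Fin n) (n - (n / 2 - n / 2 ^ 29)) (n / 256) (70 * (n / 2 ^ 29) * n)) +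
      cnt (Both (V := Fin n))) (jj k) (fun i n => (FF k L i n : ℝ)) (1 / 20)
    (2 + 1 + 1000) (N0 + N1 + N2 + 100) (by norm_num) (fun n => Nat.cast_nonneg _)
    (by
      intro i
      fin_cases i <;> simp [jj]
      omega)
    (fun i n => Nat.cast_nonneg _)
    (fun i n hn => hN1 i n (by omega))
    (by
      intro n hn
      have g1 := hGood n
      have g2 := hE5 n (by omega)
      have g3 := hBoth n
      have hn1 : (100 : ℝ) ≤ n := by exact_mod_cast (by omega : 100 ≤ n)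
      have g4 : (2 : ℝ) ^ ((n : ℝ) ^ 2 / 4) ≤ (2 : ℝ) ^ ((n : ℝ) ^ 2 / 4 + 3 * n / 2) := by
        apply Real.rpow_le_rpow_of_exponent_le (by norm_num)
        nlinarith
      have g5 : (2 * (n : ℝ) + 16) * (2 : ℝ) ^ ((n : ℝ) ^ 2 / 4 + (4 / 3) * n + 1) ≤
          1000 * (2 : ℝ) ^ ((n : ℝ) ^ 2 / 4 + 3 * n / 2) := by
        have e1 : (2 : ℝ) ^ ((n : ℝ) ^ 2 / 4 + 3 * n / 2) =
            (2 : ℝ) ^ ((n : ℝ) ^ 2 / 4 + (4 / 3) * n + 1) * (2 : ℝ) ^ ((n : ℝ) / 6 - 1) := by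
          rw [← Real.rpow_add (by norm_num)]
          congr 1
          ring
        rw [e1]
        have e2 : (2 * (n : ℝ) + 16) ≤ 1000 * (2 : ℝ) ^ ((n : ℝ) / 6 - 1) := by
          have e3 : (n : ℝ) / 6 - 1 + 1 ≤ (2 : ℝ) ^ ((n : ℝ) / 6 - 1) := by
            have hl : Real.log 2 ≥ 1 / 2 := by
              have := Real.log_two_gt_d9
              linarith
            have hx : 0 ≤ (n : ℝ) / 6 - 1 := by linarith
            have h5 := one_add_mul_self_le_rpow_one_add (s := 1) (by norm_num)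
              (p := (n : ℝ) / 6 - 1) (by linarith)
            have h6 : (1 : ℝ) + 1 = 2 := by norm_num
            rw [h6] at h5
            linarith
          nlinarith
        have e4 : 0 < (2 : ℝ) ^ ((n : ℝ) ^ 2 / 4 + (4 / 3) * n + 1) := by positivity
        nlinarith
      have : (0 : ℝ) < (2 : ℝ) ^ ((n : ℝ) ^ 2 / 4 + 3 * n / 2) := by positivity
      nlinarith)
    (by
      intro n hn
      have g1 := hsplit n
      have g2 := hbad n (by omega)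
      linarith)
  obtain ⟨N5, hN5⟩ := poly_le_exp C
  refine ⟨N0 + N1 + N2 + N3 + N4 + N5 + 100, fun n hn => ?_⟩
  have b1 := hbad n (by omega)
  have b2 := hE5 n (by omega)
  have b3 := hBoth n
  have b4 := hN4 n (by omega)
  have b5 := hN3 n (by omega)
  have b6 := hN5 n (by omega)
  have hn1 : (100 : ℝ) ≤ n := by exact_mod_cast (by omega : 100 ≤ n)
  set X : ℝ := (n : ℝ) ^ 2 / 4 + 3 * n / 2 with hX
  have c1 : (2 : ℝ) ^ ((n : ℝ) ^ 2 / 4) ≤ (2 : ℝ) ^ (X - 1 / 20 * n) := by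
    apply Real.rpow_le_rpow_of_exponent_le (by norm_num)
    rw [hX]; linarith
  have c2 : (2 : ℝ) ^ ((n : ℝ) ^ 2 / 4 + (4 / 3) * n + 1) ≤ 2 * (2 : ℝ) ^ (X - 1 / 20 * n) := by
    have : (2 : ℝ) * (2 : ℝ) ^ (X - 1 / 20 * n) = (2 : ℝ) ^ (1 + (X - 1 / 20 * n)) := by
      rw [Real.rpow_add (by norm_num), Real.rpow_one]
    rw [this]
    apply Real.rpow_le_rpow_of_exponent_le (by norm_num)
    rw [hX]; linarith
  have c3 : (cnt (fun P : SO (Fin n) => ¬ Good P) : ℝ) ≤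
      (C + 33 + 4 * n) * (2 : ℝ) ^ (X - 1 / 20 * n) := by
    have hpos : (0 : ℝ) < (2 : ℝ) ^ (X - 1 / 20 * n) := by positivity
    have c4 : (2 * (n : ℝ) + 16) * (2 : ℝ) ^ ((n : ℝ) ^ 2 / 4 + (4 / 3) * n + 1) ≤
        (2 * (n : ℝ) + 16) * (2 * (2 : ℝ) ^ (X - 1 / 20 * n)) :=
      mul_le_mul_of_nonneg_left c2 (by positivity)
    nlinarith
  have c5 : (2 : ℝ) ^ (X - 1 / 20 * n) =
      (2 : ℝ) ^ X * (2 : ℝ) ^ (-(1 / 40 : ℝ) * n) * (2 : ℝ) ^ (-(1 / 40 : ℝ) * n) := by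
    rw [← Real.rpow_add (by norm_num), ← Real.rpow_add (by norm_num)]
    congr 1
    ring
  have c6 : (2 : ℝ) ^ ((1 / 40 : ℝ) * n) * (2 : ℝ) ^ (-(1 / 40 : ℝ) * n) = 1 := by
    rw [← Real.rpow_add (by norm_num)]
    have : (1 / 40 : ℝ) * n + -(1 / 40 : ℝ) * n = 0 := by ring
    rw [this, Real.rpow_zero]
  have hCn : 0 ≤ C + 33 + 4 * (n : ℝ) := by positivity
  calc (cnt (fun P : SO (Fin n) => ¬ Good P) : ℝ)
      ≤ (C + 33 + 4 * n) * (2 : ℝ) ^ (X - 1 / 20 * n) := c3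
    _ = (C + 33 + 4 * n) * ((2 : ℝ) ^ (-(1 / 40 : ℝ) * n) * (2 : ℝ) ^ (-(1 / 40 : ℝ) * n)) *
        (2 : ℝ) ^ X := by rw [c5]; ring
    _ ≤ (C + 33 + 4 * n) * ((2 : ℝ) ^ (-(1 / 40 : ℝ) * n) * (2 : ℝ) ^ (-(1 / 40 : ℝ) * n)) *
        (8 * ((n : ℝ) + 1) ^ 2 * pn n) := by
        apply mul_le_mul_of_nonneg_left b5 (by positivity)
    _ = ((C + 33 + 4 * n) * (8 * ((n : ℝ) + 1) ^ 2)) * ((2 : ℝ) ^ (-(1 / 40 : ℝ) * n) *
        (2 : ℝ) ^ (-(1 / 40 : ℝ) * n) * pn n) := by ring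
    _ ≤ (2 : ℝ) ^ ((1 / 40 : ℝ) * n) * ((2 : ℝ) ^ (-(1 / 40 : ℝ) * n) *
        (2 : ℝ) ^ (-(1 / 40 : ℝ) * n) * pn n) := by
        apply mul_le_mul_of_nonneg_right b6 (by positivity)
    _ = ((2 : ℝ) ^ ((1 / 40 : ℝ) * n) * (2 : ℝ) ^ (-(1 / 40 : ℝ) * n)) *
        ((2 : ℝ) ^ (-(1 / 40 : ℝ) * n) * pn n) := by ring
    _ = (2 : ℝ) ^ (-(1 / 40 : ℝ) * n) * pn n := by rw [c6, one_mul]

end Pool.KR87
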