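import Pool.Agent.KR87.Base

set_option autoImplicit false
set_option linter.unusedSectionVars false

/-!
# KR87/Rec: the recursion lemma

An order `P` is determined by `P - S`, the order on `S` (whose comparable pairs are covers), and
the sets `N⁺(s) \ S`, `N⁻(s) \ S` for `s ∈ S`.  Given `P' = P - S` and `D = N(s) \ S`, the splitting
of `D` into upper and lower covers has at most three possibilities: all upper, all lower, or (both
parts nonempty; then every lower cover is below every upper cover in `P'`) the upper covers are the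
elements of `D` that have an element of `D` below them in `P'`.
-/

namespace Pool.KR87

open Finset

/-- An element of `S` is below `y ∉ S` exactly if some element of `S` above it has an upper cover
outside `S` that is below `y` or equal to `y`. -/
private theorem lt_out {V : Type} [Finite V] (P : SO V) (S : Finset V) {y : V} (hy : y ∉ S)
    (x : V) (hx : x ∈ S) :
    P.lt x y ↔ ∃ s ∈ S, (s = x ∨ P.lt x s) ∧ ∃ z, z ∉ S ∧ P.cov s z ∧ (z = y ∨ P.lt z y) := by
  constructor
  · have wf : WellFounded (fun a b => P.lt b a) := by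
      have : IsTrans V (fun a b => P.lt b a) := ⟨fun a b c h1 h2 => P.tr _ _ _ h2 h1⟩
      have : Std.Irrefl (fun a b => P.lt b a) := ⟨P.irr⟩
      exact Finite.wellFounded_of_trans_of_irrefl _
    induction x using wf.induction with
    | _ x ih =>
      intro hxy
      obtain ⟨z, hz, hzy⟩ := P.exists_cov hxy
      by_cases hzS : z ∈ S
      · have hzy' : P.lt z y := by
          rcases hzy with rfl | h
          · exact absurd hzS hy
          · exact h
        obtain ⟨s, hs, hsz, w, hw⟩ := ih z hz.1 hzS hzy'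
        refine ⟨s, hs, Or.inr ?_, w, hw⟩
        rcases hsz with rfl | h
        · exact hz.1
        · exact P.tr _ _ _ hz.1 h
      · exact ⟨x, hx, Or.inl rfl, z, hzS, hz, hzy⟩
  · rintro ⟨s, _, hsx, z, _, hz, hzy⟩
    have h1 : P.lt s y := by
      rcases hzy with rfl | h
      · exact hz.1
      · exact P.tr _ _ _ hz.1 h
    rcases hsx with rfl | h
    · exact h1
    · exact P.tr _ _ _ h h1

/-- The dual statement. -/
private theorem lt_in {V : Type} [Finite V] (P : SO V) (S : Finset V) {y : V} (hy : y ∉ S)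
    (x : V) (hx : x ∈ S) :
    P.lt y x ↔ ∃ s ∈ S, (s = x ∨ P.lt s x) ∧ ∃ z, z ∉ S ∧ P.cov z s ∧ (z = y ∨ P.lt y z) := by
  have h := lt_out P.op S hy x hx
  simp only [SO.cov_op] at h
  exact h

/-- One inclusion of the recursion: the data determine the relation. -/
private theorem le_of_data {V : Type} [Finite V] (P P' : SO V) (S : Finset V)
    (hS : ∀ s ∈ S, ∀ s' ∈ S, P.lt s s' → P'.lt s s')
    (hD : ∀ x y, x ∉ S → y ∉ S → P.lt x y → P'.lt x y)
    (hU : ∀ s ∈ S, ∀ z, z ∉ S → P.cov s z → P'.cov s z)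
    (hL : ∀ s ∈ S, ∀ z, z ∉ S → P.cov z s → P'.cov z s) (x y : V) (h : P.lt x y) :
    P'.lt x y := by
  by_cases hx : x ∈ S <;> by_cases hy : y ∈ S
  · exact hS x hx y hy h
  · rw [lt_out P S hy x hx] at h
    rw [lt_out P' S hy x hx]
    obtain ⟨s, hs, hsx, z, hz, hc, hzy⟩ := h
    exact ⟨s, hs, hsx.imp id (hS x hx s hs), z, hz, hU s hs z hz hc,
      hzy.imp id (hD z y hz hy)⟩
  · rw [lt_in P S hx y hy] at h
    rw [lt_in P' S hx y hy]
    obtain ⟨s, hs, hsx, z, hz, hc, hzy⟩ := h
    exact ⟨s, hs, hsx.imp id (hS s hs y hy), z, hz, hL s hs z hz hc,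
      hzy.imp id (hD x z hx hz)⟩
  · exact hD x y hx hy h

/-- If `s` has a lower cover outside `S`, the upper covers of `s` outside `S` are the neighbours
of `s` outside `S` that are above another such neighbour. -/
private theorem up_iff {V : Type} [Fintype V] [DecidableEq V] (P : SO V) (S : Finset V) (s : V)
    (h : ∃ l, l ∉ S ∧ P.cov l s) (y : V) (hy : y ∉ S) :
    P.cov s y ↔ y ∈ nb P s \ S ∧ ∃ l ∈ nb P s \ S, P.lt l y := by
  constructor
  · intro hc
    obtain ⟨l, hl, hls⟩ := h
    refine ⟨?_, l, ?_, P.tr _ _ _ hls.1 hc.1⟩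
    · simp only [mem_sdiff, mem_nb]
      exact ⟨Or.inl hc, hy⟩
    · simp only [mem_sdiff, mem_nb]
      exact ⟨Or.inr hls, hl⟩
  · rintro ⟨h1, l, h2, h3⟩
    simp only [mem_sdiff, mem_nb] at h1 h2
    rcases h1.1 with h1 | h1
    · exact h1
    · exfalso
      rcases h2.1 with h2 | h2
      · exact P.irr _ (P.tr _ _ _ h2.1 (P.tr _ _ _ h3 h1.1))
      · exact h2.2 y h3 h1.1

open Classical in
/-- The code of a vertex: has it no lower cover outside `S`; no upper cover outside `S`; or both. -/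
private noncomputable def code {V : Type} (S : Finset V) (P : SO V) (s : {x // x ∈ S}) : Fin 3 :=
  if ∀ y, y ∉ S → ¬ P.cov y s then 0 else if ∀ y, y ∉ S → ¬ P.cov s y then 1 else 2

private theorem code_zero {V : Type} {S : Finset V} {P : SO V} {s : {x // x ∈ S}} :
    code S P s = 0 ↔ ∀ y, y ∉ S → ¬ P.cov y s := by
  unfold code
  by_cases h1 : ∀ y, y ∉ S → ¬ P.cov y s
  · rw [if_pos h1]; exact ⟨fun _ => h1, fun _ => rfl⟩
  · rw [if_neg h1]
    refine ⟨fun h => ?_, fun h => absurd h h1⟩
    by_cases h2 : ∀ y, y ∉ S → ¬ P.cov s y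
    · rw [if_pos h2] at h; exact absurd h (by decide)
    · rw [if_neg h2] at h; exact absurd h (by decide)

private theorem code_one {V : Type} {S : Finset V} {P : SO V} {s : {x // x ∈ S}}
    (h1 : ¬ ∀ y, y ∉ S → ¬ P.cov y s) :
    code S P s = 1 ↔ ∀ y, y ∉ S → ¬ P.cov s y := by
  unfold code
  rw [if_neg h1]
  by_cases h2 : ∀ y, y ∉ S → ¬ P.cov s y
  · rw [if_pos h2]; exact ⟨fun _ => h2, fun _ => rfl⟩
  · rw [if_neg h2]
    exact ⟨fun h => absurd h (by decide), fun h => absurd h h2⟩

/-- The upper and lower covers outside `S` are determined by the data. -/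
private theorem cov_of_data {V : Type} [Fintype V] [DecidableEq V] (P P' : SO V) (S : Finset V)
    (hD : P.del S = P'.del S) (s : {x // x ∈ S}) (hn : nb P s \ S = nb P' s \ S)
    (hc : code S P s = code S P' s) (z : V) (hz : z ∉ S) :
    (P.cov s z → P'.cov s z) ∧ (P.cov z s → P'.cov z s) := by
  have hlt : ∀ x y, x ∉ S → y ∉ S → (P.lt x y ↔ P'.lt x y) := by
    intro x y hx hy
    have := congrArg (fun Q => SO.lt Q ⟨x, hx⟩ ⟨y, hy⟩) hD
    exact iff_of_eq this
  have hnb : P.adj s z → P'.adj s z := by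
    intro h
    have : z ∈ nb P s \ S := by
      simp only [mem_sdiff, mem_nb]; exact ⟨h, hz⟩
    rw [hn] at this
    simp only [mem_sdiff, mem_nb] at this
    exact this.1
  by_cases hL : ∀ y, y ∉ S → ¬ P.cov y s
  · -- no lower cover outside
    have hL' : ∀ y, y ∉ S → ¬ P'.cov y s := code_zero.1 (hc ▸ code_zero.2 hL)
    refine ⟨fun h => ?_, fun h => absurd h (hL z hz)⟩
    rcases hnb (Or.inl h) with h1 | h1
    · exact h1
    · exact absurd h1 (hL' z hz)
  · have hL' : ¬ ∀ y, y ∉ S → ¬ P'.cov y s := fun h => hL (code_zero.1 (hc ▸ code_zero.2 h))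
    by_cases hU : ∀ y, y ∉ S → ¬ P.cov s y
    · have hU' : ∀ y, y ∉ S → ¬ P'.cov s y := (code_one hL').1 (hc ▸ (code_one hL).2 hU)
      refine ⟨fun h => absurd h (hU z hz), fun h => ?_⟩
      rcases hnb (Or.inr h) with h1 | h1
      · exact absurd h1 (hU' z hz)
      · exact h1
    · push Not at hL hL'
      have key : ∀ y, y ∉ S → (P.cov s y ↔ P'.cov s y) := by
        intro y hy
        rw [up_iff P S s hL y hy, up_iff P' S s hL' y hy, hn]
        constructor
        · rintro ⟨h1, l, h2, h3⟩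
          exact ⟨h1, l, h2, (hlt l y (mem_sdiff.1 h2).2 hy).1 h3⟩
        · rintro ⟨h1, l, h2, h3⟩
          exact ⟨h1, l, h2, (hlt l y (mem_sdiff.1 h2).2 hy).2 h3⟩
      refine ⟨(key z hz).1, fun h => ?_⟩
      rcases hnb (Or.inr h) with h1 | h1
      · have := (key z hz).2 h1
        exact absurd (P.tr _ _ _ h.1 this.1) (P.irr _)
      · exact h1

theorem rec_count {V : Type} [Fintype V] [DecidableEq V] (S : Finset V) (r0 : V → V → Prop)
    (F : SO {x // x ∉ S} → Finset ({x // x ∈ S} → Finset V)) (f : ℕ) (hF : ∀ Q, (F Q).card ≤ f)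
    (p : SO V → Prop)
    (h1 : ∀ P, p P → ∀ s ∈ S, ∀ s' ∈ S, (P.lt s s' ↔ r0 s s') ∧ (P.lt s s' → P.cov s s'))
    (h2 : ∀ P, p P → (fun s : {x // x ∈ S} => nb P s \ S) ∈ F (P.del S)) :
    cnt p ≤ 3 ^ S.card * f * pn (Fintype.card V - S.card) := by
  classical
  have key : ∀ P P' : SO V, p P → p P' → P.del S = P'.del S →
      (fun s : {x // x ∈ S} => nb P s \ S) = (fun s : {x // x ∈ S} => nb P' s \ S) →
      code S P = code S P' → ∀ x y, P.lt x y → P'.lt x y := by
    intro P P' hP hP' hD hn hc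
    apply le_of_data P P' S
    · intro s hs s' hs' h
      exact ((h1 P' hP' s hs s' hs').1).2 (((h1 P hP s hs s' hs').1).1 h)
    · intro x y hx hy h
      have := congrArg (fun Q => SO.lt Q ⟨x, hx⟩ ⟨y, hy⟩) hD
      exact (iff_of_eq this).1 h
    · intro s hs z hz
      exact (cov_of_data P P' S hD ⟨s, hs⟩ (congrFun hn ⟨s, hs⟩) (congrFun hc ⟨s, hs⟩) z hz).1
    · intro s hs z hz
      exact (cov_of_data P P' S hD ⟨s, hs⟩ (congrFun hn ⟨s, hs⟩) (congrFun hc ⟨s, hs⟩) z hz).2
  have hcount := cnt_le_of_injOn (V := V)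
    (β := (Σ _ : SO {x // x ∉ S}, ({x // x ∈ S} → Finset V)) × ({x // x ∈ S} → Fin 3)) p
    (fun P => (⟨P.del S, fun s => nb P s \ S⟩, code S P))
    ((univ.sigma F) ×ˢ univ) ?_ ?_
  · refine hcount.trans ?_
    rw [card_product, card_sigma]
    have hc1 : (univ : Finset ({x // x ∈ S} → Fin 3)).card = 3 ^ S.card := by
      rw [card_univ, Fintype.card_fun, Fintype.card_fin]
      congr 1
      exact Fintype.card_coe S
    have hc2 : Fintype.card (SO {x // x ∉ S}) = pn (Fintype.card V - S.card) := by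
      rw [card_SO]
      congr 1
      rw [Fintype.card_subtype_compl, Fintype.card_coe]
    have hc3 : ∑ Q : SO {x // x ∉ S}, (F Q).card ≤ f * pn (Fintype.card V - S.card) := by
      calc ∑ Q : SO {x // x ∉ S}, (F Q).card ≤ ∑ _Q : SO {x // x ∉ S}, f :=
            sum_le_sum (fun Q _ => hF Q)
        _ = f * pn (Fintype.card V - S.card) := by
            rw [sum_const, card_univ, hc2, smul_eq_mul, mul_comm]
    rw [hc1]
    calc (∑ Q : SO {x // x ∉ S}, (F Q).card) * 3 ^ S.card
        ≤ (f * pn (Fintype.card V - S.card)) * 3 ^ S.card := Nat.mul_le_mul_right _ hc3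
      _ = 3 ^ S.card * f * pn (Fintype.card V - S.card) := by ring
  · intro P hP
    simp only [mem_product, mem_sigma, mem_univ, true_and, and_true]
    exact h2 P hP
  · intro P P' hP hP' h
    simp only [Prod.mk.injEq, Sigma.mk.injEq, heq_eq_eq] at h
    obtain ⟨⟨hD, hn⟩, hc⟩ := h
    apply SO.ext
    funext x y
    exact propext ⟨key P P' hP hP' hD hn hc x y,
      key P' P hP' hP hD.symm hn.symm hc.symm x y⟩

end Pool.KR87
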