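import Pool.Agent.KR87.Bip

set_option autoImplicit false
set_option linter.unusedSectionVars false

/-!
# KR87/Side: middle vertices have many neighbours in the larger side

Let `|N(v) ∩ M| < k` and suppose `|N(v) ∩ A| ≤ s`.  Put `T' = T \ {v}`, `S' = S \ {v}`,
`U = upD P {v} T'`.  `U` is disjoint from `N'(S')` (at least `m3` elements), from `dnD P {v} T'`, which
contains `(A ∩ N(T')) \ {v}` (an `a ∈ A ⊆ N⁻(T)` adjacent to `t' ∈ T'` is a lower cover of `t'`, since
`T` is an antichain), and `2 |A| ≥ |A| + |B| ≥ n - z - (n - m3)`.  So `|U| ≤ m6`.  And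
`N(v) \ U ⊆ (N(v) ∩ A) ∪ (N(v) ∩ M) ∪ Z ∪ (B \ U)`, `B \ U \ {v} ⊆ N(T) \ N(T')`.
This contradicts `¬ E6`.
-/

namespace Pool.KR87

open Finset

section

variable {V : Type} [Fintype V] [DecidableEq V]

theorem Core.side_disj {K z m3 : ℕ} {P : SO V} {S T A M B : Finset V}
    (hC : Core K z m3 P S T A M B) : Disjoint (nbS P S) (nbS P T) := by
  rw [Finset.disjoint_left]
  intro x hx hy
  rw [mem_nbS] at hx hy
  obtain ⟨s, hs, h1⟩ := hx
  obtain ⟨t, ht, h2⟩ := hy
  exact P.no_triangle (hC.adj s hs t ht) h2 h1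

theorem Core.side {k z m3 m6 e6 s : ℕ} {P : SO V} {S T A M B : Finset V}
    (hC : Core (k + 2) z m3 P S T A M B) (hAB : B.card ≤ A.card) (hE : Exp k m3 P)
    (h6 : ¬ E6 (k + 2) m6 e6 P) (n1 : 4 * Fintype.card V + z ≤ 2 * m6 + 7 * m3)
    (n2 : s + k + z + (Fintype.card V - 2 * m3) ≤ e6) :
    ∀ v, (nb P v ∩ M).card < k → s < (nb P v ∩ A).card := by
  intro v hvM
  by_contra hvA
  push Not at hvA
  apply h6
  have hTs : T.erase v ⊆ T := erase_subset _ _
  have hSs : S.erase v ⊆ S := erase_subset _ _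
  have hTc : k ≤ (T.erase v).card := by
    have h1 := Finset.pred_card_le_card_erase (s := T) (a := v)
    have h2 := hC.cT
    omega
  have hSc : k ≤ (S.erase v).card := by
    have h1 := Finset.pred_card_le_card_erase (s := S) (a := v)
    have h2 := hC.cS
    omega
  have hTd : Disjoint (T.erase v) ({v} : Finset V) := by
    rw [Finset.disjoint_singleton_right]; exact notMem_erase v T
  have hSd : Disjoint (S.erase v) ({v} : Finset V) := by
    rw [Finset.disjoint_singleton_right]; exact notMem_erase v S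
  have hadj : ∀ x ∈ S.erase v, ∀ t ∈ T.erase v, P.adj x t :=
    fun x hx t ht => hC.adj x (hSs hx) t (hTs ht)
  have hdis := disjoint_nbD (D := ({v} : Finset V)) hSd hTd hadj
  have hloss := hC.loss hE (by omega) hTs hTc
  -- sizes
  have hNS : m3 ≤ (upD P {v} (S.erase v) ∪ dnD P {v} (S.erase v)).card := by
    have h1 := card_le_card (nbS_sdiff_subset (P := P) hSd)
    have h2 := hE (S.erase v) hSc (hC.aS.subset hSs)
    have h3 : (nbS P (S.erase v)).card ≤ (nbS P (S.erase v) \ {v}).card + 1 := by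
      have h4 := Finset.le_card_sdiff ({v} : Finset V) (nbS P (S.erase v))
      rw [Finset.card_singleton] at h4
      omega
    omega
  have hM : M.card + m3 + 1 ≤ Fintype.card V := by
    have h1 := card_le_card hC.sM
    have h2 := hE T (by have := hC.cT; omega) hC.aT
    have h3 : (nbS P S ∪ nbS P T).card ≤ Fintype.card V := card_le_univ _
    rw [card_union_of_disjoint hC.side_disj] at h3
    omega
  -- lower covers of `T'`
  have hA1 : (A ∩ nbS P (T.erase v)) \ {v} ⊆ dnD P {v} (T.erase v) := by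
    intro a ha
    rw [mem_sdiff, mem_inter, mem_nbS, mem_singleton] at ha
    obtain ⟨⟨haA, t', ht', hadj'⟩, hav⟩ := ha
    rw [mem_dnD]
    refine ⟨t', ht', ?_⟩
    have h1 := hC.sA haA
    rw [mem_dnS] at h1
    obtain ⟨t, ht, hcov⟩ := h1
    rcases hadj' with h2 | h2
    · exact absurd (P.tr _ _ _ h2.1 hcov.1) (hC.aT t' (hTs ht') t ht)
    · exact h2.covD (by simpa using hav) (by simpa using (ne_of_mem_erase ht'))
  have hA2 : A.card ≤ ((A ∩ nbS P (T.erase v)) \ {v}).card + 1 +
      (nbS P T \ nbS P (T.erase v)).card := by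
    have h1 : A.card ≤ (A ∩ nbS P (T.erase v)).card + (nbS P T \ nbS P (T.erase v)).card := by
      rw [← Finset.card_inter_add_card_sdiff A (nbS P (T.erase v))]
      apply Nat.add_le_add_left
      apply card_le_card
      intro a ha
      rw [mem_sdiff] at ha ⊢
      refine ⟨?_, ha.2⟩
      have h1 := hC.sA ha.1
      rw [mem_dnS] at h1
      rw [mem_nbS]
      obtain ⟨t, ht, hcov⟩ := h1
      exact ⟨t, ht, Or.inr hcov⟩
    have h2 : (A ∩ nbS P (T.erase v)).card ≤ ((A ∩ nbS P (T.erase v)) \ {v}).card + 1 := by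
      have h4 := Finset.le_card_sdiff ({v} : Finset V) (A ∩ nbS P (T.erase v))
      rw [Finset.card_singleton] at h4
      omega
    omega
  have hUd : Disjoint (upD P {v} (T.erase v)) (dnD P {v} (T.erase v)) := by
    rw [Finset.disjoint_left]
    intro x hx hy
    rw [mem_upD] at hx
    rw [mem_dnD] at hy
    obtain ⟨t, ht, h1⟩ := hx
    obtain ⟨t', ht', h2⟩ := hy
    exact hC.aT t (hTs ht) t' (hTs ht') (P.tr _ _ _ h1.2.2.1 h2.2.2.1)
  have hU : 2 * (upD P {v} (T.erase v)).card ≤ 2 * m6 := by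
    have h1 : ((upD P {v} (S.erase v) ∪ dnD P {v} (S.erase v)) ∪
        (upD P {v} (T.erase v) ∪ dnD P {v} (T.erase v))).card ≤ Fintype.card V := card_le_univ _
    rw [card_union_of_disjoint hdis, card_union_of_disjoint hUd] at h1
    have h2 := card_le_card hA1
    have h3 := hC.cZ
    omega
  refine ⟨v, T.erase v, ?_, Or.inl ⟨by omega, ?_⟩⟩
  · have h1 := card_le_card hTs
    have h2 := hC.cT
    omega
  · have hsub : nb P v \ upD P {v} (T.erase v) ⊆
        ((nb P v ∩ A) ∪ (nb P v ∩ M)) ∪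
          ((univ \ (A ∪ M ∪ B)) ∪ (nbS P T \ nbS P (T.erase v))) := by
      intro x hx
      rw [mem_sdiff, mem_nb] at hx
      obtain ⟨hx1, hx2⟩ := hx
      by_cases hxA : x ∈ A
      · simp only [mem_union, mem_inter, mem_nb]
        exact Or.inl (Or.inl ⟨hx1, hxA⟩)
      by_cases hxM : x ∈ M
      · simp only [mem_union, mem_inter, mem_nb]
        exact Or.inl (Or.inr ⟨hx1, hxM⟩)
      by_cases hxB : x ∈ B
      · rw [mem_union, mem_union (s := univ \ (A ∪ M ∪ B))]
        refine Or.inr (Or.inr ?_)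
        have h1 := hC.sB hxB
        rw [mem_upS] at h1
        obtain ⟨t, ht, hcov⟩ := h1
        rw [mem_sdiff, mem_nbS, mem_nbS]
        refine ⟨⟨t, ht, Or.inl hcov⟩, ?_⟩
        rintro ⟨t', ht', hadj'⟩
        rcases hadj' with h2 | h2
        · apply hx2
          rw [mem_upD]
          refine ⟨t', ht', h2.covD (by simpa using (ne_of_mem_erase ht')) ?_⟩
          rw [mem_singleton]
          rintro rfl
          rcases hx1 with h3 | h3
          · exact P.irr _ h3.1
          · exact P.irr _ h3.1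
        · exact hC.aT t ht t' (hTs ht') (P.tr _ _ _ hcov.1 h2.1)
      · rw [mem_union, mem_union (s := univ \ (A ∪ M ∪ B))]
        refine Or.inr (Or.inl ?_)
        simp [hxA, hxM, hxB]
    have h1 := card_le_card hsub
    have h2 := card_union_le ((nb P v ∩ A) ∪ (nb P v ∩ M))
      ((univ \ (A ∪ M ∪ B)) ∪ (nbS P T \ nbS P (T.erase v)))
    have h3 := card_union_le (nb P v ∩ A) (nb P v ∩ M)
    have h4 := card_union_le (univ \ (A ∪ M ∪ B)) (nbS P T \ nbS P (T.erase v))
    have h5 : (univ \ (A ∪ M ∪ B)).card ≤ z := by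
      have h6 : (univ \ (A ∪ M ∪ B)).card = Fintype.card V - (A ∪ M ∪ B).card := by
        rw [← Finset.compl_eq_univ_sdiff, Finset.card_compl]
      have h7 : (A ∪ M ∪ B).card = A.card + M.card + B.card := by
        rw [card_union_of_disjoint, card_union_of_disjoint hC.dAM]
        rw [Finset.disjoint_union_left]
        exact ⟨hC.dAB, hC.dMB⟩
      have h8 := hC.cZ
      omega
    omega

end

end Pool.KR87
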