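import Pool.Agent.KR87.Main

set_option autoImplicit false

/-!
# KR87/Upper: the number of orders is at most a constant times `2 ^ (n ^ 2 / 4 + 3 n / 2)`
-/

namespace Pool.KR87

open Finset

theorem cnt_Good_real (n : ℕ) : (cnt (Good (V := Fin n)) : ℝ) ≤
    2 * (2 : ℝ) ^ ((n : ℝ) ^ 2 / 4 + 3 * n / 2) := by
  have h1 := cnt_Good_le (V := Fin n)
  rw [Fintype.card_fin] at h1
  have h2 : (cnt (Good (V := Fin n)) : ℝ) ≤ (2 : ℝ) ^ n * (2 : ℝ) ^ ((n + 1) ^ 2 / 4) := by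
    exact_mod_cast h1
  refine h2.trans ?_
  rw [← pow_add, ← Real.rpow_natCast,
    show (2 : ℝ) * 2 ^ ((n : ℝ) ^ 2 / 4 + 3 * n / 2) =
      (2 : ℝ) ^ (1 + ((n : ℝ) ^ 2 / 4 + 3 * n / 2)) by
      rw [Real.rpow_add (by norm_num) 1, Real.rpow_one]]
  apply Real.rpow_le_rpow_of_exponent_le (by norm_num)
  have h3 : ((((n + 1) ^ 2 / 4 : ℕ) : ℝ)) ≤ ((n : ℝ) + 1) ^ 2 / 4 := by
    have := @Nat.cast_div_le ℝ _ _ _ ((n + 1) ^ 2) 4
    simpa using this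
  push_cast at h3 ⊢
  nlinarith

theorem pn_split (n : ℕ) : (pn n : ℝ) ≤ cnt (Good (V := Fin n)) +
    cnt (fun P : SO (Fin n) => ¬ Good P) := by
  have h1 := cnt_or_le (V := Fin n) Good (fun P => ¬ Good P)
  have h2 : pn n = cnt (fun P : SO (Fin n) => Good P ∨ ¬ Good P) := by
    unfold pn cnt
    rw [← Finset.card_univ]
    congr 1
    ext P
    simp [Classical.em]
  rw [h2]
  exact_mod_cast h1

theorem pn_upper : ∃ C : ℝ, 0 < C ∧ ∀ n : ℕ,
    (pn n : ℝ) ≤ C * (2 : ℝ) ^ ((n : ℝ) ^ 2 / 4 + 3 * n / 2) := by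
  obtain ⟨c, hc, N, hN⟩ := kr_exp
  obtain ⟨N1, hN1⟩ := exists_nat_gt (1 / c)
  refine ⟨4 + ∑ m ∈ range (N + N1), (pn m : ℝ), by positivity, fun n => ?_⟩
  have hX : (1 : ℝ) ≤ (2 : ℝ) ^ ((n : ℝ) ^ 2 / 4 + 3 * n / 2) := by
    apply Real.one_le_rpow (by norm_num) (by positivity)
  have hsum : 0 ≤ ∑ m ∈ range (N + N1), (pn m : ℝ) := by positivity
  rcases lt_or_ge n (N + N1) with hn | hn
  · have h1 : (pn n : ℝ) ≤ ∑ m ∈ range (N + N1), (pn m : ℝ) :=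
      single_le_sum (f := fun m => (pn m : ℝ)) (fun m _ => Nat.cast_nonneg _)
        (mem_range.2 hn)
    nlinarith
  · have h1 := hN n (by omega)
    have h2 := pn_split n
    have h3 := cnt_Good_real n
    have h4 : (2 : ℝ) ^ (-c * n) ≤ 1 / 2 := by
      have h5 : (1 : ℝ) ≤ c * n := by
        have h6 : (N1 : ℝ) ≤ n := by exact_mod_cast (by omega : N1 ≤ n)
        have h7 : 1 / c < n := lt_of_lt_of_le hN1 h6
        rw [div_lt_iff₀ hc] at h7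
        linarith
      calc (2 : ℝ) ^ (-c * n) ≤ (2 : ℝ) ^ (-1 : ℝ) := by
            apply Real.rpow_le_rpow_of_exponent_le (by norm_num)
            linarith
        _ = 1 / 2 := by rw [Real.rpow_neg_one]; norm_num
    have h5 : (2 : ℝ) ^ (-c * n) * pn n ≤ 1 / 2 * pn n :=
      mul_le_mul_of_nonneg_right h4 (Nat.cast_nonneg _)
    nlinarith

end Pool.KR87
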